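import Pool.Agent.K4H80.RT.Spare

set_option autoImplicit false

/-!
# All trees
-/

namespace Pool.Agent.K4H80.RT

open Finset Pool.Agent.K4H80.RP V11174.RES

theorem unf_num {a k t K0 K1 x y U : ℕ} (ha : a = k + 1) (hk : 1 ≤ k)
    (hx : x * (96 * t ^ 3) ≤ a) (hy : y * (32 * t ^ 3 * K0) ≤ a)
    (hk2 : 8 * t ^ 3 * (2 + 2 * K0 + K0 * K1) ≤ k)
    (hU : U ≤ a * (1 + (x + K0)) + a * (1 + ((x + K0) + (x + (y + K1) * K0)))) :
    2 * U * t ^ 3 ≤ k ^ 2 := by
  have h1 : 16 * (2 * U * t ^ 3) ≤ a * (x * (96 * t ^ 3)) + a * (y * (32 * t ^ 3 * K0)) +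
      4 * (a * (8 * t ^ 3 * (2 + 2 * K0 + K0 * K1))) := by
    calc 16 * (2 * U * t ^ 3) = U * (32 * t ^ 3) := by ring
      _ ≤ (a * (1 + (x + K0)) + a * (1 + ((x + K0) + (x + (y + K1) * K0)))) * (32 * t ^ 3) :=
          Nat.mul_le_mul_right _ hU
      _ = _ := by ring
  have h2 : a * (x * (96 * t ^ 3)) ≤ a * a := Nat.mul_le_mul_left _ hx
  have h3 : a * (y * (32 * t ^ 3 * K0)) ≤ a * a := Nat.mul_le_mul_left _ hy
  have h4 : a * (8 * t ^ 3 * (2 + 2 * K0 + K0 * K1)) ≤ a * k := Nat.mul_le_mul_left _ hk2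
  have h5 : a ≤ 2 * k := by omega
  have h6 : a * a ≤ (2 * k) * (2 * k) := Nat.mul_le_mul h5 h5
  have h7 : a * k ≤ (2 * k) * k := Nat.mul_le_mul_right _ h5
  nlinarith

/-- the main bound for all trees -/
theorem upperAll {n : ℕ} (H : SimpleGraph (Fin n → Bool)) [DecidableRel H.Adj] (hH : H ≤ cube n)
    (φ : Sym2 (Fin n → Bool) → ℕ) (hφ : IsProper H φ) {W : Type} [Fintype W] [DecidableEq W]
    (T : SimpleGraph W) (hT : T.IsTree) (k t s0 K0 s1 K1 : ℕ) (hW : Fintype.card W = k + 1)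
    (ht : 1400000 ≤ t) (hs0 : s0 = 96 * t ^ 3)
    (hK0 : K0 = 2 * t * (8 * t ^ 3 * (Ups s0 s0).card)) (hs1 : s1 = 32 * t ^ 3 * K0)
    (hK1 : K1 = 2 * t * (8 * t ^ 3 * (Ups s1 s1).card)) (hk : t ^ 4 ≤ k)
    (hk2 : 8 * t ^ 3 * (2 + 2 * K0 + K0 * K1) ≤ k)
    (hno : ¬ ∃ f : W → (Fin n → Bool), IsRainbowCopy H φ T f) :
    t * (2 * H.edgeFinset.card) ≤ k * (t + 1400004) * 2 ^ n := by
  classical
  have ht0 : 0 < t := by omega
  have ht3 : 0 < t ^ 3 := by positivity
  have hne : Nonempty W := Fintype.card_pos_iff.1 (by omega)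
  obtain ⟨r⟩ := hne
  obtain ⟨ad, had, hA, hC, h0, hadj⟩ := exists_words T hT r
  set A : Finset (List ℕ) := univ.image ad with hAdef
  have hAc : A.card = k + 1 := by
    rw [hAdef, Finset.card_image_of_injective _ had, Finset.card_univ, hW]
  obtain ⟨M, hM⟩ : ∃ M : ℕ, ∀ w ∈ A, ∀ i ∈ w, i < M := by
    refine ⟨(A.biUnion (fun w => w.toFinset)).sup id + 1, ?_⟩
    intro w hw i hi
    have h1 : i ∈ A.biUnion (fun w => w.toFinset) :=
      Finset.mem_biUnion.2 ⟨w, hw, List.mem_toFinset.2 hi⟩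
    have h2 : id i ≤ (A.biUnion (fun w => w.toFinset)).sup id := Finset.le_sup h1
    simp only [id] at h2
    omega
  set J := 8 * t ^ 3 with hJ
  set B := BT A s0 K0 s1 K1 J M with hB
  have hAB : A ⊆ B := fun w hw => (mem_BT _ _ _ _ _ _ _ _).2 (Or.inl hw)
  have hBTC : TC B := BT_TC A s0 K0 s1 K1 J M hA
  have hB0 : [] ∈ B := hAB h0
  have hBpos : 0 < B.card := Finset.card_pos.2 ⟨_, hB0⟩
  obtain ⟨k', hk'⟩ : ∃ k', B.card = k' + 1 := ⟨B.card - 1, by omega⟩
  have hkk' : k ≤ k' := by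
    have := Finset.card_le_card hAB
    omega
  have hBcard : t * B.card ≤ t * A.card + A.card :=
    BT_card A s0 K0 s1 K1 J M (t := t) (le_of_eq hK0.symm) (le_of_eq hK1.symm)
  have hUc0 : 0 < (Ups s0 s0).card := Finset.card_pos.2 ⟨[], by rw [mem_Ups]; simp⟩
  have hK0pos : 0 < K0 := by rw [hK0]; positivity
  have hs0pos : 1 ≤ s0 := by rw [hs0]; omega
  have hs1pos : 1 ≤ s1 := by
    rw [hs1]
    exact Nat.one_le_iff_ne_zero.2 (by positivity)
  have hU := unf_card A s0 K0 s1 K1 J M hA h0 hs0pos hs1pos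
  have hQc : 2 * (unf A s0 K0 s1 K1 J M).card * t ^ 3 ≤ k' ^ 2 := by
    have h1 := unf_num (a := A.card) (k := k) (t := t) (K0 := K0) (K1 := K1)
      (x := A.card / s0) (y := A.card / s1) (U := (unf A s0 K0 s1 K1 J M).card) hAc
      (le_trans (Nat.one_le_pow _ _ ht0) hk)
      (by rw [← hs0]; exact Nat.div_mul_le_self _ _)
      (by rw [← hs1]; exact Nat.div_mul_le_self _ _) hk2 hU
    exact h1.trans (Nat.pow_le_pow_left hkk' 2)
  have hTB : (TG B).IsTree := TG_tree hBTC hB0
  have main := upperT2 H hH φ hφ (TG B) hTB k' t (by rw [Fintype.card_coe, hk']) ht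
    (hk.trans hkk') (unf A s0 K0 s1 K1 J M) (fun x hx => ((mem_unf _ _ _ _ _ _ _ x).1 hx).1) hQc
    (by
      intro f hf hcol
      by_contra hcon
      push Not at hcon
      obtain ⟨hQ, h6, h4⟩ := hcon
      apply hno
      set Col := (univ : Finset (B × B)).filter
        (fun x => (TG B).dist x.1 x.2 = 4 ∧ f x.2 = f x.1) with hCol
      have hfx : ∀ x ∈ Col, ∃ d, Dl A s0 K0 s1 K1 J M d ∧ (d <:+ x.1.1 ∨ d <:+ x.2.1) := by
        intro x hx
        rw [hCol, Finset.mem_filter] at hx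
        by_contra hc
        exact hQ x ((mem_unf _ _ _ _ _ _ _ x).2 ⟨hx.2.1, hc⟩) hx.2.2
      choose! dd hdd1 hdd2 using hfx
      have hDelc : (Col.image dd).card < J := lt_of_le_of_lt Finset.card_image_le h4
      obtain ⟨g, g1, g2, g3, g4⟩ := fix_map (s0 := s0) (K0 := K0) (s1 := s1) (K1 := K1) (J := J)
        hA hC hM (Col.image dd) (by
          intro d hd
          rw [Finset.mem_image] at hd
          obtain ⟨x, hx, rfl⟩ := hd
          exact hdd1 x hx) hDelc
      have hmem : ∀ w : W, ad w ∈ A := fun w => Finset.mem_image_of_mem _ (Finset.mem_univ w)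
      let G : W → B := fun w => ⟨g (ad w), g1 _ (hmem w)⟩
      have hG : Function.Injective G := by
        intro w w' h
        exact had (g2 _ (hmem w) _ (hmem w') (congrArg Subtype.val h))
      have hGadj : ∀ a b, T.Adj a b → (TG B).Adj (G a) (G b) := by
        intro a b hab
        rcases hadj a b hab with ⟨i, hi⟩ | ⟨i, hi⟩
        · have h1 := hmem b
          rw [hi] at h1
          obtain ⟨j, hj⟩ := g3 i (ad a) h1
          left
          refine ⟨j, ?_⟩
          show g (ad b) = j :: g (ad a)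
          rw [hi, hj]
        · have h1 := hmem a
          rw [hi] at h1
          obtain ⟨j, hj⟩ := g3 i (ad b) h1
          right
          refine ⟨j, ?_⟩
          show g (ad a) = j :: g (ad b)
          rw [hi, hj]
      refine ⟨fun w => f (G w), ?_, ?_, ?_⟩
      · intro w w' h
        by_contra hww
        have hne : G w ≠ G w' := fun h1 => hww (hG h1)
        have h' : f (G w) = f (G w') := h
        rcases hcol _ _ hne h' with h1 | h1
        · have h2 : (G w, G w') ∈ Col := by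
            rw [hCol, Finset.mem_filter]
            exact ⟨Finset.mem_univ _, h1, h'.symm⟩
          have h3 : dd (G w, G w') ∈ Col.image dd := Finset.mem_image_of_mem _ h2
          rcases hdd2 _ h2 with h5 | h5
          · exact g4 _ (hmem w) _ h3 h5
          · exact g4 _ (hmem w') _ h3 h5
        · exact h6 (G w, G w') h1 h'.symm
      · intro a b hab
        exact hf.1 _ _ (hGadj a b hab)
      · intro a b c d hab hcd h
        have h1 := hf.2 _ _ _ _ (hGadj a b hab) (hGadj c d hcd) h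
        have h2 : Sym2.map G s(a, b) = Sym2.map G s(c, d) := h1
        exact Sym2.map.injective hG h2)
  -- arithmetic
  have e1 : t * k' ≤ t * k + (k + 1) := by
    rw [hAc, hk'] at hBcard
    have e2 : t * (k' + 1) = t * k' + t := by ring
    have e3 : t * (k + 1) = t * k + t := by ring
    omega
  have hk1 : 1 ≤ k := le_trans (Nat.one_le_pow _ _ ht0) hk
  have e2 : k' * (t + 1400000) ≤ k * (t + 1400004) := by
    have e3 : t * (k' * (t + 1400000)) ≤ t * (k * (t + 1400004)) := by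
      calc t * (k' * (t + 1400000)) = (t * k') * (t + 1400000) := by ring
        _ ≤ (t * k + (k + 1)) * (t + 1400000) := Nat.mul_le_mul_right _ e1
        _ = t * k * (t + 1400000) + (k + 1) * (t + 1400000) := by ring
        _ ≤ t * k * (t + 1400000) + (2 * k) * (2 * t) := by
            apply Nat.add_le_add_left
            exact Nat.mul_le_mul (by omega) (by omega)
        _ = t * (k * (t + 1400004)) := by ring
    exact Nat.le_of_mul_le_mul_left e3 ht0
  exact main.trans (Nat.mul_le_mul_right _ e2)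

end Pool.Agent.K4H80.RT
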