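import Pool.Agent.K4H80.RT.Ring
import Pool.Agent.K4H80.RP.Av

set_option autoImplicit false

/-!
# The elements of the ring
-/

namespace Pool.Agent.K4H80.RT

open Finset Pool.Agent.K4H80.RP

variable {C : Type} [DecidableEq C]

/-- a single colour -/
noncomputable def X (c : C) : SF C := fun D => if D = {c} then 1 else 0

theorem X_app (c : C) (D : Finset C) : X c D = if D = {c} then 1 else 0 := rfl

theorem X_nonneg (c : C) : 0 ≤ X c := by
  intro D
  show (0 : ℝ) ≤ X c D
  rw [X_app]
  split_ifs <;> norm_num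

theorem X_mul_app (c : C) (g : SF C) (D : Finset C) :
    (X c * g) D = if c ∈ D then g (D.erase c) else 0 := by
  rw [mul_app]
  split_ifs with h
  · rw [Finset.sum_eq_single {c}]
    · rw [X_app, if_pos rfl, one_mul, Finset.sdiff_singleton_eq_erase]
    · intro M _ hM
      rw [X_app, if_neg hM, zero_mul]
    · intro h1
      exfalso
      apply h1
      rw [Finset.mem_powerset, Finset.singleton_subset_iff]
      exact h
  · apply Finset.sum_eq_zero
    intro M hM
    rw [X_app, if_neg, zero_mul]
    rintro rfl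
    apply h
    rw [Finset.mem_powerset, Finset.singleton_subset_iff] at hM
    exact hM

theorem X_sq (c : C) : X c * X c = 0 := by
  ext D
  rw [X_mul_app]
  split_ifs with h
  · rw [X_app, if_neg]
    · rfl
    · intro h1
      have : c ∈ D.erase c := by rw [h1]; exact Finset.mem_singleton_self c
      exact Finset.notMem_erase c D this
  · rfl

/-- the sum of the colours of `S` -/
noncomputable def sg (S : Finset C) : SF C := ∑ c ∈ S, X c

theorem sg_nonneg (S : Finset C) : 0 ≤ sg S := Finset.sum_nonneg (fun c _ => X_nonneg c)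

theorem sg_mul_app (S : Finset C) (g : SF C) (D : Finset C) :
    (sg S * g) D = ∑ c ∈ S ∩ D, g (D.erase c) := by
  unfold sg
  rw [Finset.sum_mul, sum_app]
  rw [← Finset.filter_mem_eq_inter, Finset.sum_filter]
  apply Finset.sum_congr rfl
  intro c _
  rw [X_mul_app]

variable [Fintype C]

/-- the sum of all colours -/
noncomputable def R : SF C := sg univ

theorem R_mul_app (g : SF C) (D : Finset C) : (R * g : SF C) D = ∑ c ∈ D, g (D.erase c) := by
  unfold R
  rw [sg_mul_app, Finset.univ_inter]

/-- the blocks without colours of `S` -/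
noncomputable def Bk (S : Finset C) : SF C := fun M => if Disjoint M S then (M.card.factorial : ℝ) else 0

theorem Bk_app (S M : Finset C) : Bk S M = if Disjoint M S then (M.card.factorial : ℝ) else 0 := rfl

theorem Bk_nonneg (S : Finset C) : 0 ≤ Bk S := by
  intro D
  show (0 : ℝ) ≤ Bk S D
  rw [Bk_app]
  split_ifs <;> positivity

theorem Bk_rec (S : Finset C) : Bk S = 1 + (R - sg S) * Bk S := by
  ext D
  rw [add_app, sub_mul, sub_app, R_mul_app, sg_mul_app, one_app]
  have h1 : ∑ c ∈ D, Bk S (D.erase c) - ∑ c ∈ S ∩ D, Bk S (D.erase c) =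
      ∑ c ∈ D \ S, Bk S (D.erase c) := by
    rw [← Finset.sum_sdiff (Finset.inter_subset_right : S ∩ D ⊆ D)]
    rw [add_sub_cancel_right]
    apply Finset.sum_congr _ (fun _ _ => rfl)
    ext c
    simp only [mem_sdiff, mem_inter]
    tauto
  rw [h1]
  by_cases hd : Disjoint D S
  · have h2 : D \ S = D := Finset.sdiff_eq_self_of_disjoint hd
    rw [h2, Bk_app, if_pos hd]
    by_cases h0 : D = ∅
    · subst h0
      simp
    · rw [if_neg h0, zero_add]
      have h3 : ∀ c ∈ D, Bk S (D.erase c) = ((D.card - 1).factorial : ℝ) := by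
        intro c hc
        rw [Bk_app, if_pos (Finset.disjoint_of_subset_left (Finset.erase_subset c D) hd),
          Finset.card_erase_of_mem hc]
      rw [Finset.sum_congr rfl h3, Finset.sum_const, nsmul_eq_mul]
      have h4 : 0 < D.card := Finset.card_pos.2 (Finset.nonempty_iff_ne_empty.2 h0)
      have h5 := Nat.mul_factorial_pred (by omega : D.card ≠ 0)
      exact_mod_cast h5.symm
  · rw [Bk_app, if_neg hd, if_neg, zero_add]
    · symm
      apply Finset.sum_eq_zero
      intro c hc
      rw [Bk_app, if_neg]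
      intro h3
      apply hd
      rw [Finset.disjoint_left] at h3 ⊢
      intro x hx hxS
      by_cases hxc : x = c
      · subst hxc
        exact (Finset.mem_sdiff.1 hc).2 hxS
      · exact h3 (Finset.mem_erase.2 ⟨hxc, hx⟩) hxS
    · rintro rfl
      exact hd (Finset.disjoint_empty_left _)

/-- `σ B = 1 - (1 - R) B` -/
theorem sg_mul_Bk (S : Finset C) : sg S * Bk S = 1 - (1 - R) * Bk S := by
  have h := Bk_rec S
  have h2 : sg S * Bk S = 1 + R * Bk S - Bk S := by
    have h3 : (R - sg S) * Bk S = R * Bk S - sg S * Bk S := by ring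
    rw [h3] at h
    linear_combination h
  rw [h2]
  ring

/-! ### superharmonic functions -/

/-- superharmonic functions -/
def SH (g : SF C) : Prop := 0 ≤ g ∧ 0 ≤ (1 - R) * g

theorem SH.mul {a g : SF C} (ha : 0 ≤ a) (hg : SH g) : SH (a * g) := by
  refine ⟨sf_mul_nonneg ha hg.1, ?_⟩
  have : (1 - R) * (a * g) = a * ((1 - R) * g) := by ring
  rw [this]
  exact sf_mul_nonneg ha hg.2

theorem SH.add {f g : SF C} (hf : SH f) (hg : SH g) : SH (f + g) := by
  refine ⟨add_nonneg hf.1 hg.1, ?_⟩
  rw [mul_add]
  exact add_nonneg hf.2 hg.2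

theorem SH.zero : SH (0 : SF C) := ⟨le_rfl, by rw [mul_zero]⟩

theorem smul_nonneg' {a : ℝ} (ha : 0 ≤ a) {f : SF C} (h : 0 ≤ f) : 0 ≤ a • f := by
  intro D
  exact mul_nonneg ha (h D)

theorem SH.smul {a : ℝ} (ha : 0 ≤ a) {g : SF C} (hg : SH g) : SH (a • g) := by
  refine ⟨smul_nonneg' ha hg.1, ?_⟩
  rw [mul_smul_comm]
  exact smul_nonneg' ha hg.2

theorem SH.sum {ι : Type} (s : Finset ι) (g : ι → SF C) (h : ∀ i ∈ s, SH (g i)) :
    SH (∑ i ∈ s, g i) := by
  classical
  induction s using Finset.induction_on with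
  | empty => rw [Finset.sum_empty]; exact SH.zero
  | insert i s hi ih =>
    rw [Finset.sum_insert hi]
    exact (h i (Finset.mem_insert_self _ _)).add
      (ih (fun j hj => h j (Finset.mem_insert_of_mem hj)))

/-- the basic inequality -/
theorem sg_Bk_le (S : Finset C) {g : SF C} (hg : SH g) : sg S * Bk S * g ≤ g := by
  rw [sg_mul_Bk]
  have h1 : (1 - (1 - R) * Bk S) * g = g - Bk S * ((1 - R) * g) := by ring
  rw [h1]
  exact sub_le_self _ (sf_mul_nonneg (Bk_nonneg S) hg.2)

theorem one_sub_R_app (g : SF C) (D : Finset C) :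
    ((1 - R) * g : SF C) D = g D - ∑ c ∈ D, g (D.erase c) := by
  rw [sub_mul, one_mul, sub_app, R_mul_app]

/-- all orders of the rest -/
noncomputable def g0 : SF C := fun M => (M.card.factorial : ℝ)

theorem g0_app (M : Finset C) : (g0 : SF C) M = (M.card.factorial : ℝ) := rfl

theorem g0_SH : SH (g0 : SF C) := by
  constructor
  · intro M
    show (0 : ℝ) ≤ (g0 : SF C) M
    rw [g0_app]; positivity
  · intro M
    show (0 : ℝ) ≤ ((1 - R) * g0 : SF C) M
    rw [one_sub_R_app]
    have h3 : ∀ c ∈ M, (g0 : SF C) (M.erase c) = ((M.card - 1).factorial : ℝ) := by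
      intro c hc
      rw [g0_app, Finset.card_erase_of_mem hc]
    rw [Finset.sum_congr rfl h3, Finset.sum_const, nsmul_eq_mul, g0_app]
    by_cases h0 : M.card = 0
    · rw [h0]; simp
    · have h5 := Nat.mul_factorial_pred h0
      have h6 : ((M.card : ℝ) * ((M.card - 1).factorial : ℝ)) = (M.card.factorial : ℝ) := by
        exact_mod_cast h5
      rw [h6]
      simp

/-- the linear weight -/
noncomputable def gl (l : ℕ) : SF C := fun M => (M.card.factorial : ℝ) * ((M.card - l : ℕ) : ℝ)

theorem gl_app (l : ℕ) (M : Finset C) :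
    (gl l : SF C) M = (M.card.factorial : ℝ) * ((M.card - l : ℕ) : ℝ) := rfl

theorem gl_R (l : ℕ) (M : Finset C) :
    ((1 - R) * gl l : SF C) M = if l < M.card then (M.card.factorial : ℝ) else 0 := by
  rw [one_sub_R_app]
  have h3 : ∀ c ∈ M, (gl l : SF C) (M.erase c) =
      ((M.card - 1).factorial : ℝ) * ((M.card - 1 - l : ℕ) : ℝ) := by
    intro c hc
    rw [gl_app, Finset.card_erase_of_mem hc]
  rw [Finset.sum_congr rfl h3, Finset.sum_const, nsmul_eq_mul, gl_app]
  by_cases h0 : M.card = 0
  · rw [h0]; simp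
  · have h5 := Nat.mul_factorial_pred h0
    have h6 : ((M.card : ℝ) * ((M.card - 1).factorial : ℝ)) = (M.card.factorial : ℝ) := by
      exact_mod_cast h5
    rw [← mul_assoc, h6]
    split_ifs with h
    · have : M.card - l = (M.card - 1 - l) + 1 := by omega
      rw [this]
      push_cast
      ring
    · have h1 : M.card - l = 0 := by omega
      have h2 : M.card - 1 - l = 0 := by omega
      rw [h1, h2]
      simp

theorem gl_SH (l : ℕ) : SH (gl l : SF C) := by
  constructor
  · intro M
    show (0 : ℝ) ≤ (gl l : SF C) M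
    rw [gl_app]; positivity
  · intro M
    show (0 : ℝ) ≤ ((1 - R) * gl l : SF C) M
    rw [gl_R]
    split_ifs <;> positivity

theorem gl_le (l : ℕ) : (1 - R) * gl l ≤ (g0 : SF C) := by
  intro M
  show ((1 - R) * gl l : SF C) M ≤ (g0 : SF C) M
  rw [gl_R, g0_app]
  split_ifs
  · exact le_rfl
  · positivity

/-- the bound for the bad event -/
noncomputable def Ph (l m : ℕ) (S : Finset C) : SF C :=
  fun M => (M.card.factorial : ℝ) * Phi l m M.card (M ∩ S).card

theorem Ph_app (l m : ℕ) (S M : Finset C) :
    Ph l m S M = (M.card.factorial : ℝ) * Phi l m M.card (M ∩ S).card := rfl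

theorem Phi_mono (l m s : ℕ) {n n' : ℕ} (h : n ≤ n') : Phi l m n s ≤ Phi l m n' s := by
  unfold Phi
  have h1 := A_mono m h
  have h2 := A_pos m (m - 1)
  have h3 := A_pos m s
  have h4 := A_pos m l
  apply div_le_div_of_nonneg_right _ (by positivity)
  exact mul_le_mul_of_nonneg_right h1 h2.le

theorem Ph_SH (l m : ℕ) (S : Finset C) : SH (Ph l m S) := by
  constructor
  · intro M
    show (0 : ℝ) ≤ Ph l m S M
    rw [Ph_app]
    have := Phi_nonneg l m M.card (M ∩ S).card
    positivity
  · intro M
    show (0 : ℝ) ≤ ((1 - R) * Ph l m S : SF C) M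
    rw [one_sub_R_app]
    have h1 : ∀ c ∈ M, Ph l m S (M.erase c) = ((M.card - 1).factorial : ℝ) *
        (if c ∈ S then Phi l m (M.card - 1) ((M ∩ S).card - 1)
          else Phi l m (M.card - 1) (M ∩ S).card) := by
      intro c hc
      rw [Ph_app, Finset.card_erase_of_mem hc]
      congr 1
      split_ifs with h
      · congr 1
        rw [← Finset.card_erase_of_mem (Finset.mem_inter.2 ⟨hc, h⟩)]
        congr 1
        ext x
        simp only [mem_inter, mem_erase]
        tauto
      · congr 2
        ext x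
        simp only [mem_inter, mem_erase]
        constructor
        · rintro ⟨⟨_, h1⟩, h2⟩; exact ⟨h1, h2⟩
        · rintro ⟨h1, h2⟩
          refine ⟨⟨?_, h1⟩, h2⟩
          rintro rfl
          exact h h2
    rw [Finset.sum_congr rfl h1, ← Finset.mul_sum]
    have h2 : ∑ c ∈ M, (if c ∈ S then Phi l m (M.card - 1) ((M ∩ S).card - 1)
          else Phi l m (M.card - 1) (M ∩ S).card) =
        ((M ∩ S).card : ℝ) * Phi l m (M.card - 1) ((M ∩ S).card - 1) +
        ((M.card : ℝ) - (M ∩ S).card) * Phi l m (M.card - 1) (M ∩ S).card := by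
      rw [Finset.sum_ite, Finset.sum_const, Finset.sum_const, nsmul_eq_mul, nsmul_eq_mul,
        Finset.filter_mem_eq_inter]
      congr 2
      have h5 := Finset.card_filter_add_card_filter_not (s := M) (fun c => c ∈ S)
      rw [Finset.filter_mem_eq_inter] at h5
      have h6 : ((M ∩ S).card : ℝ) + ((M.filter (fun c => ¬ c ∈ S)).card : ℝ) = M.card := by
        exact_mod_cast h5
      linarith
    rw [h2, Ph_app]
    rcases Nat.eq_zero_or_pos M.card with h0 | h0
    · have h00 : (M ∩ S).card = 0 := by
        have := Finset.card_le_card (Finset.inter_subset_left : M ∩ S ⊆ M)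
        omega
      rw [h00, h0]
      simp
      exact Phi_nonneg _ _ _ _
    · obtain ⟨n, hn⟩ : ∃ n, M.card = n + 1 := ⟨M.card - 1, by omega⟩
      rw [hn, Nat.add_sub_cancel]
      have hf : ((n + 1).factorial : ℝ) = ((n : ℝ) + 1) * (n.factorial : ℝ) := by
        rw [Nat.factorial_succ]; push_cast; ring
      rw [hf]
      have hfp : (0 : ℝ) ≤ (n.factorial : ℝ) := by positivity
      have key : (((M ∩ S).card : ℝ) * Phi l m n ((M ∩ S).card - 1) +
          (((n + 1 : ℕ) : ℝ) - (M ∩ S).card) * Phi l m n (M ∩ S).card) ≤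
          ((n : ℝ) + 1) * Phi l m (n + 1) (M ∩ S).card := by
        rcases hs : (M ∩ S).card with _ | s
        · simp only [Nat.cast_zero, zero_mul, zero_add, sub_zero]
          push_cast
          apply mul_le_mul_of_nonneg_left _ (by positivity)
          exact Phi_mono l m 0 (by omega)
        · have := Phi_mart l m n s
          rw [Nat.add_sub_cancel]
          push_cast
          have e : ((n : ℝ) + 1 - (s + 1)) = (n : ℝ) - s := by ring
          rw [e]
          exact this.le
      have := mul_le_mul_of_nonneg_left key hfp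
      linarith

/-! ### the probability of a colour -/

theorem X_Bk_gl (S : Finset C) (l : ℕ) (M : Finset C) {c c' : C} (hc : c ∈ S) (hc' : c' ∈ S)
    (hM : c ∈ M) (hM' : c' ∈ M) :
    (X c * (Bk S * gl l) : SF C) M = (X c' * (Bk S * gl l) : SF C) M := by
  rw [X_mul_app, X_mul_app, if_pos hM, if_pos hM', mul_app, mul_app]
  -- only blocks inside `M \ S`
  have h : ∀ d ∈ S, d ∈ M → ∑ K ∈ (M.erase d).powerset, Bk S K * (gl l : SF C) ((M.erase d) \ K) =
      ∑ K ∈ (M \ S).powerset, (K.card.factorial : ℝ) *
        (((M.card - 1 - K.card).factorial : ℝ) * ((M.card - 1 - K.card - l : ℕ) : ℝ)) := by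
    intro d hd hdM
    have hsub : (M \ S).powerset ⊆ (M.erase d).powerset := by
      apply Finset.powerset_mono.2
      intro x hx
      rw [Finset.mem_sdiff] at hx
      rw [Finset.mem_erase]
      refine ⟨?_, hx.1⟩
      rintro rfl
      exact hx.2 hd
    rw [← Finset.sum_subset hsub]
    · apply Finset.sum_congr rfl
      intro K hK
      have hK2 := hsub hK
      rw [Finset.mem_powerset] at hK hK2
      have hdis : Disjoint K S := by
        rw [Finset.disjoint_left]
        intro x hx
        exact (Finset.mem_sdiff.1 (hK hx)).2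
      rw [Bk_app, if_pos hdis, gl_app, Finset.card_sdiff_of_subset hK2,
        Finset.card_erase_of_mem hdM]
    · intro K hK hKn
      rw [Bk_app, if_neg, zero_mul]
      intro hdis
      apply hKn
      rw [Finset.mem_powerset] at hK ⊢
      intro x hx
      rw [Finset.mem_sdiff]
      exact ⟨Finset.mem_of_mem_erase (hK hx), Finset.disjoint_left.1 hdis hx⟩
  rw [h c hc hM, h c' hc' hM']

/-- a given colour comes first with probability at most `1 / m`, apart from the bad event -/
theorem X_Bk_le {l m : ℕ} (hm : 1 ≤ m) (S : Finset C) (c : C) (hc : c ∈ S) :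
    X c * (Bk S * gl l) ≤ (1 / (m : ℝ)) • gl l + ((Fintype.card C : ℝ)) • Ph l m S := by
  intro M
  show (X c * (Bk S * gl l) : SF C) M ≤ ((1 / (m : ℝ)) • gl l + ((Fintype.card C : ℝ)) • Ph l m S : SF C) M
  rw [add_app, smul_app, smul_app]
  have hm0 : (0 : ℝ) < m := by exact_mod_cast hm
  have hg : (0 : ℝ) ≤ (gl l : SF C) M := (gl_SH l).1 M
  have hP : (0 : ℝ) ≤ Ph l m S M := (Ph_SH l m S).1 M
  have hq : (0 : ℝ) ≤ (Fintype.card C : ℝ) := by positivity
  by_cases hcM : c ∈ M
  · have hsum : ((M ∩ S).card : ℝ) * (X c * (Bk S * gl l) : SF C) M ≤ (gl l : SF C) M := by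
      have h1 := sg_Bk_le S (gl_SH (C := C) l) M
      have h2 : (sg S * Bk S * gl l : SF C) M = ∑ d ∈ S ∩ M, (Bk S * gl l : SF C) (M.erase d) := by
        rw [mul_assoc, sg_mul_app]
      have h3 : ∀ d ∈ S ∩ M, (Bk S * gl l : SF C) (M.erase d) =
          (X c * (Bk S * gl l) : SF C) M := by
        intro d hd
        rw [Finset.mem_inter] at hd
        rw [X_Bk_gl S l M hc hd.1 hcM hd.2, X_mul_app, if_pos hd.2]
      have h4 : (sg S * Bk S * gl l : SF C) M =
          ((M ∩ S).card : ℝ) * (X c * (Bk S * gl l) : SF C) M := by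
        rw [h2, Finset.sum_congr rfl h3, Finset.sum_const, nsmul_eq_mul, Finset.inter_comm]
      rw [← h4]
      exact h1
    have hval : (0 : ℝ) ≤ (X c * (Bk S * gl l) : SF C) M :=
      sf_mul_nonneg (X_nonneg c) (sf_mul_nonneg (Bk_nonneg S) (gl_SH l).1) M
    by_cases hbad : (M ∩ S).card < m
    · -- bad
      have h1 : (1 : ℝ) ≤ ((M ∩ S).card : ℝ) := by
        have : 0 < (M ∩ S).card := Finset.card_pos.2 ⟨c, Finset.mem_inter.2 ⟨hcM, hc⟩⟩
        exact_mod_cast this
      have h2 : (X c * (Bk S * gl l) : SF C) M ≤ (gl l : SF C) M := by nlinarith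
      have h3 : (gl l : SF C) M ≤ (Fintype.card C : ℝ) * Ph l m S M := by
        rw [gl_app, Ph_app]
        by_cases hl : M.card ≤ l
        · have : M.card - l = 0 := by omega
          rw [this]
          simp only [Nat.cast_zero, mul_zero]
          have := Phi_nonneg l m M.card (M ∩ S).card
          positivity
        · push Not at hl
          have h5 := Phi_one (l := l) (m := m) hl.le hbad
          have h6 : ((M.card - l : ℕ) : ℝ) ≤ (Fintype.card C : ℝ) := by
            have h7 : M.card - l ≤ Fintype.card C := by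
              have := Finset.card_le_univ M
              omega
            exact_mod_cast h7
          have h8 : (0 : ℝ) ≤ (M.card.factorial : ℝ) := by positivity
          calc (M.card.factorial : ℝ) * ((M.card - l : ℕ) : ℝ) ≤
              (M.card.factorial : ℝ) * (Fintype.card C : ℝ) := mul_le_mul_of_nonneg_left h6 h8
            _ = (Fintype.card C : ℝ) * ((M.card.factorial : ℝ) * 1) := by ring
            _ ≤ _ := by
              apply mul_le_mul_of_nonneg_left _ hq
              exact mul_le_mul_of_nonneg_left h5 h8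
      have h4 : (0 : ℝ) ≤ 1 / (m : ℝ) * (gl l : SF C) M := by positivity
      linarith
    · push Not at hbad
      have h1 : (m : ℝ) ≤ ((M ∩ S).card : ℝ) := by exact_mod_cast hbad
      have h2 : (m : ℝ) * (X c * (Bk S * gl l) : SF C) M ≤ (gl l : SF C) M := by nlinarith
      have h3 : (X c * (Bk S * gl l) : SF C) M ≤ 1 / (m : ℝ) * (gl l : SF C) M := by
        rw [one_div, inv_mul_eq_div, le_div_iff₀ hm0]
        linarith
      have h4 : (0 : ℝ) ≤ (Fintype.card C : ℝ) * Ph l m S M := by positivity
      linarith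
  · rw [X_mul_app, if_neg hcM]
    positivity

end Pool.Agent.K4H80.RT
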