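import Pool.Agent.K4H80.RT.Fin

set_option autoImplicit false

/-!
# Extremal numbers, and the number of pairs at distance four
-/

namespace Pool.Agent.K4H80.RT

open Finset Pool.Agent.K4H80.RP V11174.RES

/-- lower bound for trees -/
theorem star_leW {n k : ℕ} (hk : 1 ≤ k) {W : Type} [Finite W] (T : SimpleGraph W)
    (hT : T.IsTree) (hW : Nat.card W = k + 1) :
    exStar (cube n) (SimpleGraph.starGraph (0 : Fin (k + 1))) ≤ exStar (cube n) T := by
  rw [star_eq n k hk]
  have h1 := lower T hT n k (min (k - 1) n) hW (by omega)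
  have h2 := dirs_card n (min (k - 1) n) (min_le_right _ _)
  have h3 : (dirs n (min (k - 1) n)).edgeSet.ncard = min (k - 1) n * 2 ^ (n - 1) := by
    rcases Nat.eq_zero_or_pos n with h0 | h0
    · subst h0
      simp at h2 ⊢
      omega
    · obtain ⟨m, rfl⟩ : ∃ m, n = m + 1 := ⟨n - 1, by omega⟩
      rw [pow_succ, ← mul_assoc] at h2
      rw [Nat.add_sub_cancel]
      omega
  rw [h3] at h1
  apply le_csSup _ h1
  refine ⟨n * 2 ^ n, ?_⟩
  rintro m ⟨H, hH, -, rfl⟩
  have := cube_bound hH
  omega

/-- upper bound -/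
theorem le_starW {n k t C : ℕ} (hk : t ^ 4 ≤ k) (hk1 : C ≤ t) (hk2 : 2 ≤ t)
    {W : Type} [Finite W] (T : SimpleGraph W)
    (h : ∀ H : SimpleGraph (Fin n → Bool), H ≤ cube n → ∀ φ, IsProper H φ →
      (¬ ∃ f : W → (Fin n → Bool), IsRainbowCopy H φ T f) →
      t * (2 * H.edgeSet.ncard) ≤ k * (t + C) * 2 ^ n) :
    t * exStar (cube n) T ≤
      (t + (C + 2)) * exStar (cube n) (SimpleGraph.starGraph (0 : Fin (k + 1))) := by
  have ht : 1 ≤ t := by omega
  have hk0 : 1 ≤ k := le_trans (Nat.one_le_pow _ _ ht) hk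
  rw [star_eq n k hk0]
  rcases Set.eq_empty_or_nonempty (sizes (cube n) T) with h0 | h0
  · rw [exStar, h0]
    simp
  · have hmem : exStar (cube n) T ∈ sizes (cube n) T := by
      apply Nat.sSup_mem h0
      refine ⟨n * 2 ^ n, ?_⟩
      rintro m ⟨H, hH, -, rfl⟩
      have := cube_bound hH
      omega
    obtain ⟨H, hH, ⟨φ, hφ, hno⟩, hcard⟩ := hmem
    rw [← hcard]
    have h1 := h H hH φ hφ hno
    have h2 := cube_bound hH
    rcases Nat.eq_zero_or_pos n with hn | hn
    · subst hn
      simp at h2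
      rw [h2]
      simp
    · obtain ⟨n', rfl⟩ : ∃ m, n = m + 1 := ⟨n - 1, by omega⟩
      rw [Nat.add_sub_cancel]
      have e2 : 2 ^ (n' + 1) = 2 * 2 ^ n' := by ring
      rw [e2] at h1 h2
      rcases le_total (k - 1) (n' + 1) with h3 | h3
      · rw [min_eq_left h3]
        obtain ⟨k', rfl⟩ : ∃ m, k = m + 1 := ⟨k - 1, by omega⟩
        rw [Nat.add_sub_cancel]
        have h4 : (k' + 1) * (t + C) ≤ (t + (C + 2)) * k' := by
          have h5 : t + C ≤ 2 * k' := by
            have h6 : 2 * t ≤ t ^ 4 := by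
              calc 2 * t ≤ t * t := Nat.mul_le_mul_right _ hk2
                _ = t ^ 2 := by ring
                _ ≤ t ^ 4 := Nat.pow_le_pow_right ht (by norm_num)
            omega
          nlinarith
        have h5 : t * H.edgeSet.ncard ≤ (k' + 1) * (t + C) * 2 ^ n' := by nlinarith
        calc t * H.edgeSet.ncard ≤ (k' + 1) * (t + C) * 2 ^ n' := h5
          _ ≤ (t + (C + 2)) * k' * 2 ^ n' := Nat.mul_le_mul_right _ h4
          _ = _ := by ring
      · rw [min_eq_right h3]
        have h4 : H.edgeSet.ncard ≤ (n' + 1) * 2 ^ n' := by nlinarith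
        calc t * H.edgeSet.ncard ≤ t * ((n' + 1) * 2 ^ n') := Nat.mul_le_mul_left _ h4
          _ ≤ _ := Nat.mul_le_mul_right _ (by omega)

/-- the number of ordered pairs at distance four is at most `2 k Δ ^ 3` -/
theorem pairs_four {W : Type} [Fintype W] [DecidableEq W] (T : SimpleGraph W)
    [DecidableRel T.Adj] (hT : T.IsTree) {k Δ : ℕ} (hW : Fintype.card W = k + 1)
    (hΔ : ∀ w, T.degree w ≤ Δ) :
    ((univ : Finset (W × W)).filter (fun x => T.dist x.1 x.2 = 4)).card ≤ 2 * k * Δ ^ 3 := by
  classical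
  let Da : Finset (W × W) := univ.filter (fun x => T.Adj x.1 x.2)
  have hDa : Da.card = 2 * k := by
    have h1 := T.sum_degrees_eq_twice_card_edges
    have h2 := hT.card_edgeFinset
    have h3 : Da.card = ∑ a, T.degree a := by
      have h4 : Da.card = ∑ a, ∑ b, if T.Adj a b then 1 else 0 := by
        show (univ.filter (fun x : W × W => T.Adj x.1 x.2)).card = _
        rw [Finset.card_filter, Fintype.sum_prod_type]
      rw [h4]
      apply Finset.sum_congr rfl
      intro a _
      rw [← Finset.card_filter, ← SimpleGraph.card_neighborFinset_eq_degree]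
      congr 1
      ext w
      simp
    rw [h3, h1]
    omega
  have hsub : (univ : Finset (W × W)).filter (fun x => T.dist x.1 x.2 = 4) ⊆
      Da.biUnion (fun ab => (T.neighborFinset ab.1).biUnion (fun x =>
        (T.neighborFinset ab.2).biUnion (fun c => (T.neighborFinset c).image (fun y => (x, y))))) := by
    rintro ⟨x, y⟩ hxy
    rw [Finset.mem_filter] at hxy
    have h4 : T.dist x y = 4 := hxy.2
    obtain ⟨c, hc1, hc2⟩ := closer_exists hT (r := x) (z := y) (by
      rintro rfl
      rw [SimpleGraph.dist_self] at h4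
      omega)
    obtain ⟨b, hb1, hb2⟩ := closer_exists hT (r := x) (z := c) (by
      rintro rfl
      rw [SimpleGraph.dist_self] at hc2
      omega)
    obtain ⟨a, ha1, ha2⟩ := closer_exists hT (r := x) (z := b) (by
      rintro rfl
      rw [SimpleGraph.dist_self] at hb2
      omega)
    have hxa : T.dist x a = 1 := by omega
    rw [SimpleGraph.dist_eq_one_iff_adj] at hxa
    rw [Finset.mem_biUnion]
    refine ⟨(a, b), ?_, ?_⟩
    · simp only [Da, Finset.mem_filter, Finset.mem_univ, true_and]
      exact ha1.symm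
    · rw [Finset.mem_biUnion]
      refine ⟨x, by rw [SimpleGraph.mem_neighborFinset]; exact hxa.symm, ?_⟩
      rw [Finset.mem_biUnion]
      refine ⟨c, by rw [SimpleGraph.mem_neighborFinset]; exact hb1.symm, ?_⟩
      rw [Finset.mem_image]
      exact ⟨y, by rw [SimpleGraph.mem_neighborFinset]; exact hc1.symm, rfl⟩
  refine (Finset.card_le_card hsub).trans ?_
  refine (Finset.card_biUnion_le_card_mul _ _ (Δ ^ 3) ?_).trans ?_
  · intro ab _
    refine (Finset.card_biUnion_le_card_mul _ _ (Δ ^ 2) ?_).trans ?_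
    · intro x _
      refine (Finset.card_biUnion_le_card_mul _ _ Δ ?_).trans ?_
      · intro c _
        refine Finset.card_image_le.trans ?_
        rw [SimpleGraph.card_neighborFinset_eq_degree]
        exact hΔ c
      · rw [SimpleGraph.card_neighborFinset_eq_degree, pow_two]
        exact Nat.mul_le_mul_right _ (hΔ _)
    · rw [SimpleGraph.card_neighborFinset_eq_degree]
      calc T.degree ab.1 * Δ ^ 2 ≤ Δ * Δ ^ 2 := Nat.mul_le_mul_right _ (hΔ _)
        _ = Δ ^ 3 := by ring
  · rw [hDa]

end Pool.Agent.K4H80.RT
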