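import Pool.Agent.K4H80.RT.Main
import Pool.Agent.K4H80.RP.Trees

set_option autoImplicit false

/-!
# Trees in subgraphs of the cube
-/

namespace Pool.Agent.K4H80.RT

open Finset Pool.Agent.K4H80.RP V11174.RES

/-! ### finitely many colours -/

section Restrict
variable {V : Type} [DecidableEq V]

/-- restriction of the colours to a finite set -/
def restr (G : Host V ℕ) (D : Finset ℕ) : Host V D where
  S v := univ.filter (fun c : D => c.1 ∈ G.S v)
  mv v c := G.mv v c.1
  mem := by
    intro v c h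
    rw [Finset.mem_filter] at h ⊢
    exact ⟨Finset.mem_univ _, G.mem v c.1 h.2⟩
  inv := by
    intro v c h
    rw [Finset.mem_filter] at h
    exact G.inv v c.1 h.2
  ne := by
    intro v c h
    rw [Finset.mem_filter] at h
    exact G.ne v c.1 h.2
  inj := by
    intro v c c' h h' h0
    rw [Finset.mem_filter] at h h'
    exact Subtype.ext (G.inj v c.1 c'.1 h.2 h'.2 h0)

theorem restr_card (G : Host V ℕ) {D : Finset ℕ} (hD : ∀ v, G.S v ⊆ D) (v : V) :
    ((restr G D).S v).card = (G.S v).card := by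
  have h : ((restr G D).S v).map (Function.Embedding.subtype _) = G.S v := by
    ext c
    simp only [restr, Finset.mem_map, Finset.mem_filter, Finset.mem_univ, true_and,
      Function.Embedding.coe_subtype]
    constructor
    · rintro ⟨a, h1, rfl⟩
      exact h1
    · intro h1
      exact ⟨⟨c, hD v h1⟩, h1, rfl⟩
  rw [← h, Finset.card_map]

theorem restr_cube {dst : V → V → ℕ} (G : Host V ℕ) (D : Finset ℕ) (hG : CubeLike G dst) :
    CubeLike (restr G D) dst where
  zero := hG.zero
  step := by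
    intro w u c hc
    simp only [restr, Finset.mem_filter] at hc
    exact hG.step w u c.1 hc.2
  down := by
    intro w u
    refine le_trans ?_ (hG.down w u)
    rw [← Finset.card_map (Function.Embedding.subtype _)]
    apply Finset.card_le_card
    intro c hc
    simp only [restr, Finset.mem_map, Finset.mem_filter, Finset.mem_univ, true_and,
      Function.Embedding.coe_subtype] at hc
    obtain ⟨a, ⟨h1, h2⟩, rfl⟩ := hc
    rw [Finset.mem_filter]
    exact ⟨h1, h2⟩

end Restrict

/-! ### the numbers -/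

theorem arithT {E N k t q m a l P4 P6 Z B : ℝ} (hN : 0 < N) (ht : 1400000 ≤ t) (hk : t ^ 4 ≤ k)
    (hP4 : 0 ≤ P4) (hP6 : 0 ≤ P6) (hP : P4 * t ^ 3 ≤ k ^ 2) (hP46 : P4 + P6 ≤ 4 * k ^ 2)
    (hE : k * (t + 1400000) * N < t * E) (hm : 1 ≤ m)
    (hkm : k ≤ 16 * t * m) (hq : 0 < q) (hqt : t ≤ q) (ha : (t - 3) * q ≤ t * a) (haq : a ≤ q)
    (hZ : 0 ≤ Z) (hZm : Z ≤ 1 / m ^ 3) (hB0 : 0 ≤ B) (hB : B ≤ E * Z)
    (h : E * a - (k - 1) * N * q ≤ P4 * (3 / m ^ 2 * (E * a) + q * 25 * B) +
      P6 * (15 / m ^ 3 * (E * a) + q * 25 * B)) : False := by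
  have ht0 : 0 < t := by linarith
  have ht1 : 1 ≤ t := by linarith
  have hk0 : 0 < k := lt_of_lt_of_le (by positivity) hk
  have hm0 : 0 < m := by linarith
  have hE0 : 0 < E := by
    have h1 : 0 < k * (t + 1400000) * N := by positivity
    have h2 : 0 < t * E := h1.trans hE
    exact (pos_iff_pos_of_mul_pos h2).1 ht0
  have ha0 : 0 ≤ a := by
    have h1 : 0 ≤ (t - 3) * q := by
      apply mul_nonneg _ hq.le
      linarith
    have h2 : 0 ≤ t * a := h1.trans ha
    exact nonneg_of_mul_nonneg_right h2 ht0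
  -- k ^ 2 t ≤ 4096 m ^ 3
  have h1 : k ^ 2 * t ≤ 4096 * m ^ 3 := by
    have a1 : k ^ 3 ≤ (16 * t * m) ^ 3 := pow_le_pow_left₀ hk0.le hkm 3
    have a2 : k ^ 2 * t ^ 4 ≤ k ^ 2 * k := mul_le_mul_of_nonneg_left hk (by positivity)
    have a3 : t ^ 3 * (k ^ 2 * t) ≤ t ^ 3 * (4096 * m ^ 3) := by nlinarith
    exact le_of_mul_le_mul_left a3 (by positivity)
  have h2 : P4 * t ≤ 256 * m ^ 2 := by
    have a1 : k ^ 2 ≤ (16 * t * m) ^ 2 := pow_le_pow_left₀ hk0.le hkm 2
    have a3 : t ^ 2 * (P4 * t) ≤ t ^ 2 * (256 * m ^ 2) := by nlinarith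
    exact le_of_mul_le_mul_left a3 (by positivity)
  have b1 : P4 * (3 / m ^ 2) ≤ 768 / t := by
    rw [mul_div_assoc', div_le_div_iff₀ (by positivity) ht0]
    nlinarith
  have b2 : P6 * (15 / m ^ 3) ≤ 245760 / t := by
    rw [mul_div_assoc', div_le_div_iff₀ (by positivity) ht0]
    have : P6 * t ≤ 4 * (k ^ 2 * t) := by nlinarith
    nlinarith
  have b3 : 25 * (P4 + P6) * Z ≤ 409600 / t := by
    have c1 : 25 * (P4 + P6) * Z ≤ 25 * (P4 + P6) * (1 / m ^ 3) :=
      mul_le_mul_of_nonneg_left hZm (by positivity)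
    have c2 : 25 * (P4 + P6) * (1 / m ^ 3) ≤ 409600 / t := by
      rw [mul_one_div, div_le_div_iff₀ (by positivity) ht0]
      have : (P4 + P6) * t ≤ 4 * (k ^ 2 * t) := by nlinarith
      nlinarith
    linarith
  -- collect
  have b4 : P4 * (3 / m ^ 2 * (E * a) + q * 25 * B) + P6 * (15 / m ^ 3 * (E * a) + q * 25 * B) ≤
      (246528 / t) * (E * q) + (409600 / t) * (E * q) := by
    have c1 : P4 * (3 / m ^ 2 * (E * a) + q * 25 * B) + P6 * (15 / m ^ 3 * (E * a) + q * 25 * B) =
        (P4 * (3 / m ^ 2) + P6 * (15 / m ^ 3)) * (E * a) + 25 * (P4 + P6) * (q * B) := by ring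
    have c2 : (P4 * (3 / m ^ 2) + P6 * (15 / m ^ 3)) * (E * a) ≤ (246528 / t) * (E * q) := by
      have d1 : P4 * (3 / m ^ 2) + P6 * (15 / m ^ 3) ≤ 246528 / t := by
        have : 768 / t + 245760 / t = 246528 / t := by ring
        linarith
      have d2 : E * a ≤ E * q := mul_le_mul_of_nonneg_left haq hE0.le
      exact mul_le_mul d1 d2 (by positivity) (by positivity)
    have c3 : 25 * (P4 + P6) * (q * B) ≤ (409600 / t) * (E * q) := by
      have d1 : 25 * (P4 + P6) * (q * B) ≤ 25 * (P4 + P6) * (q * (E * Z)) := by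
        apply mul_le_mul_of_nonneg_left _ (by positivity)
        exact mul_le_mul_of_nonneg_left hB hq.le
      have d2 : 25 * (P4 + P6) * (q * (E * Z)) = (25 * (P4 + P6) * Z) * (E * q) := by ring
      have d3 : (25 * (P4 + P6) * Z) * (E * q) ≤ (409600 / t) * (E * q) :=
        mul_le_mul_of_nonneg_right b3 (by positivity)
      linarith
    linarith
  -- multiply by t
  have b5 : t * (E * a) ≤ t * (k * N * q) + 656128 * (E * q) := by
    have c1 : E * a ≤ k * N * q + ((246528 / t) * (E * q) + (409600 / t) * (E * q)) := by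
      have : (k - 1) * N * q ≤ k * N * q := by
        have : 0 < N * q := by positivity
        nlinarith
      linarith
    have c2 := mul_le_mul_of_nonneg_left c1 ht0.le
    have c3 : t * (k * N * q + ((246528 / t) * (E * q) + (409600 / t) * (E * q))) =
        t * (k * N * q) + 656128 * (E * q) := by
      field_simp
      ring
    linarith
  have b6 : E * ((t - 3) * q) ≤ E * (t * a) := mul_le_mul_of_nonneg_left ha hE0.le
  have b7 : (E * (t - 656131)) * q ≤ (t * (k * N)) * q := by nlinarith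
  have b8 : E * (t - 656131) ≤ t * (k * N) := le_of_mul_le_mul_right b7 hq
  have b9 : (t + 1400000) * (E * (t - 656131)) ≤ (t + 1400000) * (t * (k * N)) :=
    mul_le_mul_of_nonneg_left b8 (by positivity)
  have b10 : t * (k * (t + 1400000) * N) < t * (t * E) := mul_lt_mul_of_pos_left hE ht0
  have b11 : E * ((t + 1400000) * (t - 656131)) < E * (t * t) := by nlinarith
  have b12 : (t + 1400000) * (t - 656131) < t * t := lt_of_mul_lt_mul_left b11 hE0.le
  nlinarith

/-- the main bound for trees -/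
theorem upperT {n : ℕ} (H : SimpleGraph (Fin n → Bool)) [DecidableRel H.Adj] (hH : H ≤ cube n)
    (φ : Sym2 (Fin n → Bool) → ℕ) (hφ : IsProper H φ) {W : Type} [Fintype W] [DecidableEq W]
    (T : SimpleGraph W) (hT : T.IsTree) (k t : ℕ) (hW : Fintype.card W = k + 1)
    (ht : 1400000 ≤ t) (hk : t ^ 4 ≤ k)
    (hP : ((univ : Finset (W × W)).filter (fun x => T.dist x.1 x.2 = 4)).card * t ^ 3 ≤ k ^ 2)
    (hno : ¬ ∃ f : W → (Fin n → Bool), IsRainbowCopy H φ T f) :
    t * (2 * H.edgeFinset.card) ≤ k * (t + 1400000) * 2 ^ n := by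
  classical
  by_contra hcon
  push Not at hcon
  have hV : Fintype.card (Fin n → Bool) = 2 ^ n := by simp
  rw [← hV] at hcon
  obtain ⟨U, hU1, hU2⟩ := dense_core' H (k * (t + 1400000)) t (by
    convert hcon)
  have hUne : U.Nonempty := by
    rw [Finset.nonempty_iff_ne_empty]
    rintro rfl
    simp at hU1
  obtain ⟨u0, hu0⟩ := hUne
  have ht0 : 0 < t := by omega
  set G := host H φ U hφ with hGdef
  have hS : ∀ v : U, (G.S v).card = (U.filter (fun w => H.Adj v.1 w)).card :=
    fun v => card_colS hφ v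
  have hdeg : ∀ v : U, k < 2 * (G.S v).card := by
    intro v
    have h1 := hU2 v.1 v.2
    rw [← hS v] at h1
    have h2 : k * t ≤ k * (t + 1400000) := Nat.mul_le_mul_left _ (by omega)
    have h3 : t * k < t * (2 * (G.S v).card) := by
      calc t * k = k * t := mul_comm _ _
        _ ≤ _ := h2
        _ < _ := h1
        _ = _ := by ring
    exact lt_of_mul_lt_mul_left h3 (Nat.zero_le _)
  set D : Finset ℕ := (univ : Finset U).biUnion (fun v => G.S v) with hD
  have hSD : ∀ v, G.S v ⊆ D := fun v =>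
    Finset.subset_biUnion_of_mem (fun v => G.S v) (Finset.mem_univ v)
  set G' := restr G D with hG'def
  have hS' : ∀ v : U, (G'.S v).card = (G.S v).card := restr_card G hSD
  have hG' : CubeLike G' (fun v w => hammingDist v.1 w.1) := restr_cube G D (host_cube hH hφ)
  have hCc : Fintype.card D = D.card := Fintype.card_coe D
  have hq1 : k < 2 * D.card := by
    have h1 := hdeg ⟨u0, hu0⟩
    have h2 := Finset.card_le_card (hSD ⟨u0, hu0⟩)
    omega
  have htk2 : 80 * t * 2 ≤ t ^ 4 := by
    have : t ^ 4 = t ^ 3 * t := by ring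
    have h3 : 160 ≤ t ^ 3 := by
      calc 160 ≤ t := by omega
        _ = t ^ 1 := (pow_one t).symm
        _ ≤ t ^ 3 := Nat.pow_le_pow_right ht0 (by norm_num)
    nlinarith
  have hqt : t ≤ D.card := by omega
  -- the parameters
  obtain ⟨l, hl1, hl2⟩ : ∃ l, D.card ≤ t * l ∧ t * l ≤ D.card + t := by
    refine ⟨(D.card + t - 1) / t, ?_, ?_⟩
    · have h1 := Nat.div_add_mod (D.card + t - 1) t
      have h2 := Nat.mod_lt (D.card + t - 1) ht0
      omega
    · have h1 := Nat.div_mul_le_self (D.card + t - 1) t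
      rw [mul_comm] at h1
      omega
  have hlq : l + 1 ≤ D.card := by
    have h1 : t * l ≤ 2 * D.card := by omega
    have h2 : 4 * l ≤ t * l := Nat.mul_le_mul_right _ (by omega)
    omega
  obtain ⟨m, hm1, hm2⟩ : ∃ m, 8 * t * m ≤ k ∧ k < 8 * t * (m + 1) := by
    refine ⟨k / (8 * t), Nat.mul_div_le _ _, ?_⟩
    exact Nat.lt_mul_div_succ k (by omega)
  have hm10 : 10 ≤ m := by
    by_contra hc
    push Not at hc
    have h1 : 8 * t * (m + 1) ≤ 8 * t * 10 := Nat.mul_le_mul_left _ (by omega)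
    omega
  have hk1 : 1 ≤ k := by omega
  -- no injective rainbow homomorphism
  have hcopy : ∀ f : W → U, IsHom G' T f → IsRb G' T f → ¬ Function.Injective f := by
    intro f hf hr hinj
    apply hno
    have hadj : ∀ a b, T.Adj a b → H.Adj (f a).1 (f b).1 ∧
        ∃ c : D, c ∈ G'.S (f a) ∧ G'.mv (f a) c = f b ∧ φ s((f a).1, (f b).1) = c.1 := by
      intro a b hab
      obtain ⟨c, hc, h1⟩ := hf a b hab
      have hc' : c.1 ∈ colS H φ U (f a) := by
        have := hc
        simp only [hG'def, restr, Finset.mem_filter] at this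
        exact this.2
      obtain ⟨h2, h3⟩ := colM_spec hc'
      have h4 : colM H φ U (f a) c.1 = f b := h1
      rw [h4] at h2 h3
      exact ⟨h2, c, hc, h1, h3⟩
    refine ⟨fun w => (f w).1, ?_, ?_, ?_⟩
    · intro a b h
      exact hinj (Subtype.ext h)
    · intro a b hab
      exact (hadj a b hab).1
    · intro a b a' b' hab hab' h
      obtain ⟨_, c, h1, h2, h3⟩ := hadj a b hab
      obtain ⟨_, c', h1', h2', h3'⟩ := hadj a' b' hab'
      have h4 : c = c' := Subtype.ext (by
        have h5 : φ s((f a).1, (f b).1) = φ s((f a').1, (f b').1) := h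
        rw [h3, h3'] at h5
        exact h5)
      subst h4
      exact hr a b a' b' c hab hab' h1 h2 h1' h2'
  have hmain := main_ineq G' hG' hT ⟨u0, hu0⟩ (by omega) (l := l) (m := m) (by omega) hcopy
  -- evaluation
  have hfac : (0 : ℝ) < ((D.card - 1).factorial : ℝ) := by positivity
  have hE1 : (∑ x : U, sg (G'.S x) * gl l : SF D) univ =
      ((D.card - 1).factorial : ℝ) * ((∑ v : U, ((G.S v).card : ℝ)) * ((D.card - 1 - l : ℕ) : ℝ)) := by
    rw [sum_app]
    have h1 : ∀ x ∈ (univ : Finset U), (sg (G'.S x) * gl l : SF D) univ =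
        ((G.S x).card : ℝ) * (((D.card - 1).factorial : ℝ) * ((D.card - 1 - l : ℕ) : ℝ)) := by
      intro x _
      rw [sg_gl_univ, hS', hCc]
    rw [Finset.sum_congr rfl h1, ← Finset.sum_mul]
    ring
  have hsmall : ∀ v : U, Phi l m (D.card - 1) ((G.S v).card - 1) ≤ (1 / 2 : ℝ) ^ m := by
    intro v
    apply Phi_small (t := t) (by omega) (by omega)
    have := hdeg v
    have h3 : 2 * (4 * t * m) ≤ k := by
      calc 2 * (4 * t * m) = 8 * t * m := by ring
        _ ≤ k := hm1
    omega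
  obtain ⟨B, hBdef⟩ : ∃ B : ℝ, B = ∑ v : U, ((G.S v).card : ℝ) *
      Phi l m (D.card - 1) ((G.S v).card - 1) := ⟨_, rfl⟩
  have hP1 : (∑ x : U, sg (G'.S x) * Ph l m (G'.S x) : SF D) univ =
      ((D.card - 1).factorial : ℝ) * B := by
    rw [sum_app, hBdef, Finset.mul_sum]
    apply Finset.sum_congr rfl
    intro x _
    rw [sg_Ph_univ, hS', hCc]
    ring
  have hB0 : 0 ≤ B := by
    rw [hBdef]
    apply Finset.sum_nonneg
    intro v _
    have := Phi_nonneg l m (D.card - 1) ((G.S v).card - 1)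
    positivity
  have hB1 : B ≤ (∑ v : U, ((G.S v).card : ℝ)) * (1 / 2 : ℝ) ^ m := by
    rw [hBdef, Finset.sum_mul]
    apply Finset.sum_le_sum
    intro v _
    exact mul_le_mul_of_nonneg_left (hsmall v) (by positivity)
  have hfac2 : ((Fintype.card D).factorial : ℝ) = (D.card : ℝ) * ((D.card - 1).factorial : ℝ) := by
    rw [hCc]
    have := Nat.mul_factorial_pred (show D.card ≠ 0 by omega)
    exact_mod_cast this.symm
  rw [hE1, hP1, hfac2, hCc, Fintype.card_coe] at hmain
  set P4 := ((univ : Finset (W × W)).filter (fun x => T.dist x.1 x.2 = 4)) with hP4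
  set P6 := ((univ : Finset (W × W)).filter (fun x => 6 ≤ T.dist x.1 x.2)) with hP6
  have hPP : P4.card + P6.card ≤ 4 * k ^ 2 := by
    have hdis : Disjoint P4 P6 := by
      rw [Finset.disjoint_left]
      intro x h1 h2
      rw [hP4, Finset.mem_filter] at h1
      rw [hP6, Finset.mem_filter] at h2
      omega
    rw [← Finset.card_union_of_disjoint hdis]
    refine (Finset.card_le_univ _).trans ?_
    rw [Fintype.card_prod, hW]
    nlinarith
  have hsum : ∑ v : U, ((G.S v).card : ℝ) =
      ((∑ u ∈ U, (U.filter (fun v => H.Adj u v)).card : ℕ) : ℝ) := by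
    push_cast
    rw [← Finset.sum_coe_sort U]
    apply Finset.sum_congr rfl
    intro v _
    rw [hS v]
  set E : ℝ := ∑ v : U, ((G.S v).card : ℝ) with hEdef
  refine arithT (E := E) (N := (U.card : ℝ)) (k := (k : ℝ)) (t := (t : ℝ))
    (q := (D.card : ℝ)) (a := ((D.card - 1 - l : ℕ) : ℝ)) (l := (l : ℝ)) (m := (m : ℝ))
    (P4 := (P4.card : ℝ)) (P6 := (P6.card : ℝ)) (Z := (1 / 2 : ℝ) ^ m) (B := B)
    ?_ ?_ ?_ ?_ ?_ ?_ ?_ ?_ ?_ ?_ ?_ ?_ ?_ ?_ ?_ ?_ ?_ ?_ ?_
  · exact_mod_cast Finset.card_pos.2 ⟨u0, hu0⟩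
  · exact_mod_cast ht
  · exact_mod_cast hk
  · positivity
  · positivity
  · exact_mod_cast hP
  · exact_mod_cast hPP
  · rw [hsum]
    exact_mod_cast hU1
  · have : 1 ≤ m := by omega
    exact_mod_cast this
  · have h3 : k ≤ 16 * t * m := by
      have h4 : 8 * t * (m + 1) ≤ 16 * t * m := by
        have : 8 * t * 1 ≤ 8 * t * m := Nat.mul_le_mul_left _ (by omega)
        have e1 : 8 * t * (m + 1) = 8 * t * m + 8 * t * 1 := by ring
        have e2 : 16 * t * m = 8 * t * m + 8 * t * m := by ring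
        omega
      omega
    exact_mod_cast h3
  · have : 0 < D.card := by omega
    exact_mod_cast this
  · exact_mod_cast hqt
  · have h1 : ((D.card - 1 - l : ℕ) : ℝ) = (D.card : ℝ) - 1 - l := by
      rw [Nat.cast_sub (by omega), Nat.cast_sub (by omega)]
      push_cast
      ring
    rw [h1]
    have h2 : (t : ℝ) * l ≤ D.card + t := by exact_mod_cast hl2
    have h3 : (t : ℝ) ≤ D.card := by exact_mod_cast hqt
    nlinarith
  · have : D.card - 1 - l ≤ D.card := by omega
    exact_mod_cast this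
  · positivity
  · have h3 := pow_ge_cube hm10
    have h4 : ((m : ℝ)) ^ 3 ≤ 2 ^ m := by exact_mod_cast h3
    have h5 : (0 : ℝ) < m := by
      have : 0 < m := by omega
      exact_mod_cast this
    rw [one_div_pow]
    exact one_div_le_one_div_of_le (by positivity) h4
  · exact hB0
  · exact hB1
  · have h1 : ((Fintype.card W - 2 : ℕ) : ℝ) = (k : ℝ) - 1 := by
      rw [hW, show k + 1 - 2 = k - 1 by omega, Nat.cast_sub hk1]
      push_cast
      ring
    rw [h1] at hmain
    have h2 : ((D.card - 1).factorial : ℝ) * (E * ((D.card - 1 - l : ℕ) : ℝ) -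
        ((k : ℝ) - 1) * (U.card : ℝ) * (D.card : ℝ)) ≤ ((D.card - 1).factorial : ℝ) *
        ((P4.card : ℝ) * (3 / (m : ℝ) ^ 2 * (E * ((D.card - 1 - l : ℕ) : ℝ)) +
          (D.card : ℝ) * 25 * B) +
        (P6.card : ℝ) * (15 / (m : ℝ) ^ 3 * (E * ((D.card - 1 - l : ℕ) : ℝ)) +
          (D.card : ℝ) * 25 * B)) := by
      refine le_trans (le_of_eq ?_) (hmain.trans (le_of_eq ?_))
      · ring
      · ring
    exact le_of_mul_le_mul_left h2 hfac

end Pool.Agent.K4H80.RT
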