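import Pool.Agent.K4H80.RT.Tree

set_option autoImplicit false

/-!
# Reduction to an edge, steps, hits
-/

namespace Pool.Agent.K4H80.RT

open Finset Pool.Agent.K4H80.RP

section
variable {W V C : Type} [DecidableEq W] [Fintype W] [DecidableEq V] [Fintype V]
  [DecidableEq C] [Fintype C]
variable (G : Host V C) (T : SimpleGraph W) [DecidableRel T.Adj]

theorem dg_pos {U : Finset W} (hU : Conv T U) {z y : W} (hz : z ∈ U) (hy : y ∈ U) (hne : y ≠ z) :
    1 ≤ dgU T U z := by
  obtain ⟨w, hw, h1, _⟩ := hU y hy z hz hne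
  unfold dgU
  exact Finset.card_pos.2 ⟨w, Finset.mem_filter.2 ⟨hw, h1⟩⟩

/-- the step operator -/
noncomputable def St (F : V → SF C) (x : V) : SF C :=
  Bk (G.S x) * ∑ c ∈ G.S x, X c * F (G.mv x c)

theorem St_SH {F : V → SF C} (h : ∀ x, SH (F x)) (x : V) : SH (St G F x) := by
  unfold St
  apply SH.mul (Bk_nonneg _)
  apply SH.sum
  intro c _
  exact SH.mul (X_nonneg c) (h _)

theorem St_le {F F' : V → SF C} (h : ∀ x, F x ≤ F' x) (x : V) : St G F x ≤ St G F' x := by
  unfold St
  apply mul_le_mul_of_nonneg_left _ (Bk_nonneg _)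
  apply Finset.sum_le_sum
  intro c _
  exact mul_le_mul_of_nonneg_left (h _) (X_nonneg c)

variable {T}

theorem remove_leaf (hT : T.IsTree) (v0 : V) {U : Finset W} (hU : Conv T U) (h3 : 3 ≤ U.card)
    {r z : W} (hr : r ∈ U) (hz : z ∈ U) (hne : r ≠ z)
    (hmax : ∀ y ∈ U, T.dist r y ≤ T.dist r z) :
    ∃ z' ∈ U.erase z, T.dist r z' + 1 = T.dist r z ∧ ∀ F : (W → V) → SF C,
      ZU G T v0 U F = ZU G T v0 (U.erase z) (fun f => Bk (G.S (f z')) *
        ∑ c ∈ G.S (f z'), X c * F (Function.update f z (G.mv (f z') c))) := by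
  obtain ⟨z', hz', h1, h2, h4⟩ := leaf_of_max hT hU hr hz hne hmax
  refine ⟨z', hz', h2, ?_⟩
  intro F
  apply ZU_leaf G T v0 hz hz' h1 h4
  -- another vertex
  have hcard : 2 ≤ (U.erase z).card := by
    rw [Finset.card_erase_of_mem hz]; omega
  obtain ⟨y, hy, hyne⟩ := Finset.exists_mem_ne (s := U.erase z) (by omega) z'
  exact dg_pos T (conv_erase hT hU hr hz hmax) hz' hy hyne

theorem remove_indep (hT : T.IsTree) (v0 : V) {U : Finset W} (hU : Conv T U) (h3 : 3 ≤ U.card)
    {r z : W} (hr : r ∈ U) (hz : z ∈ U) (hne : r ≠ z)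
    (hmax : ∀ y ∈ U, T.dist r y ≤ T.dist r z) (F : (W → V) → SF C)
    (hF : ∀ f v, F (Function.update f z v) = F f) (hSH : ∀ f, SH (F f)) :
    ZU G T v0 U F ≤ ZU G T v0 (U.erase z) F := by
  obtain ⟨z', _, _, h⟩ := remove_leaf G hT v0 hU h3 hr hz hne hmax
  rw [h F]
  apply ZU_le
  intro f
  simp only [hF]
  rw [← Finset.sum_mul, ← mul_assoc]
  have := sg_Bk_le (G.S (f z')) (hSH f)
  rw [mul_comm (sg _)] at this
  exact this

theorem wt_pair (hT : T.IsTree) {y y' : W} (hadj : T.Adj y y') (f : W → V) :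
    wt G T {y, y'} f = Xe G (f y) (f y') := by
  have hE : EU T {y, y'} = {s(y, y')} := by
    ext e
    rw [mem_EU, Finset.mem_singleton]
    induction e using Sym2.ind with
    | _ a b =>
      simp only [SimpleGraph.mem_edgeSet, Sym2.mem_iff, forall_eq_or_imp, forall_eq,
        Finset.mem_insert, Finset.mem_singleton]
      constructor
      · rintro ⟨h1, h2, h3⟩
        rcases h2 with rfl | rfl <;> rcases h3 with rfl | rfl
        · exact absurd rfl h1.ne
        · rfl
        · exact Sym2.eq_swap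
        · exact absurd rfl h1.ne
      · intro h
        rcases Sym2.eq_iff.1 h with ⟨h1, h2⟩ | ⟨h1, h2⟩
        · subst h1; subst h2
          exact ⟨hadj, Or.inl rfl, Or.inr rfl⟩
        · subst h1; subst h2
          exact ⟨hadj.symm, Or.inr rfl, Or.inl rfl⟩
  have hd : ∀ w ∈ ({y, y'} : Finset W), dgU T {y, y'} w - 1 = 0 := by
    intro w hw
    have : dgU T {y, y'} w ≤ 1 := by
      unfold dgU
      have h1 : ({y, y'} : Finset W).filter (fun u => T.Adj w u) ⊆
          ({y, y'} : Finset W).erase w := by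
        intro u hu
        rw [Finset.mem_filter] at hu
        exact Finset.mem_erase.2 ⟨hu.2.ne', hu.1⟩
      have h2 := Finset.card_le_card h1
      rw [Finset.card_erase_of_mem hw, Finset.card_pair hadj.ne] at h2
      exact h2
    omega
  unfold wt
  rw [hE, Finset.prod_singleton, XE_mk]
  have h1 : ∏ w ∈ ({y, y'} : Finset W), (Bk (G.S (f w))) ^ (dgU T {y, y'} w - 1) =
      ∏ w ∈ ({y, y'} : Finset W), (1 : SF C) := by
    apply Finset.prod_congr rfl
    intro w hw
    rw [hd w hw, pow_zero]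
  rw [h1, Finset.prod_const_one, mul_one]

theorem ZU_pair (hT : T.IsTree) (v0 : V) {y y' : W} (hadj : T.Adj y y') (F : V → SF C) :
    ZU G T v0 {y, y'} (fun f => F (f y)) = ∑ x : V, sg (G.S x) * F x := by
  unfold ZU
  have hne : y ≠ y' := hadj.ne
  have h1 : ∀ f ∈ PiU v0 ({y, y'} : Finset W), wt G T {y, y'} f * F (f y) =
      Xe G (f y) (f y') * F (f y) := by
    intro f _
    rw [wt_pair G hT hadj]
  rw [Finset.sum_congr rfl h1, sum_split v0 (z := y') (by simp)]
  have he : ({y, y'} : Finset W).erase y' = {y} := by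
    ext w
    simp only [mem_erase, mem_insert, mem_singleton]
    constructor
    · rintro ⟨h1, h2 | h2⟩
      · exact h2
      · exact absurd h2 h1
    · rintro rfl
      exact ⟨hne, Or.inl rfl⟩
  rw [he]
  have h2 : ∀ f ∈ PiU v0 ({y} : Finset W), ∑ v : V,
      Xe G (Function.update f y' v y) (Function.update f y' v y') *
        F (Function.update f y' v y) = sg (G.S (f y)) * F (f y) := by
    intro f _
    simp only [Function.update_self, Function.update_of_ne hne]
    rw [sum_Xe G (f y) (fun _ => F (f y)), ← Finset.sum_mul]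
    rfl
  rw [Finset.sum_congr rfl h2, sum_split v0 (z := y) (by simp)]
  have he2 : ({y} : Finset W).erase y = ∅ := by simp
  rw [he2, sum_PiU_empty]
  simp only [Function.update_self]

/-- reduction to an edge at `y` -/
theorem reduce_edge (hT : T.IsTree) (v0 : V) (F : V → SF C) (hF : ∀ x, SH (F x)) (y : W) :
    ∀ (n : ℕ) (U : Finset W), U.card = n → Conv T U → y ∈ U → 2 ≤ U.card →
      ZU G T v0 U (fun f => F (f y)) ≤ ∑ x : V, sg (G.S x) * F x := by
  intro n
  induction n with
  | zero => intro U h0 _ _ h2; omega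
  | succ n ih =>
    intro U hn hU hy h2
    by_cases h3 : 3 ≤ U.card
    · obtain ⟨z, hz, hmax⟩ := Finset.exists_max_image U (fun w => T.dist y w) ⟨y, hy⟩
      have hne : y ≠ z := by
        rintro rfl
        obtain ⟨w, hw, hwne⟩ := Finset.exists_mem_ne (by omega : 1 < U.card) y
        have h4 := hmax w hw
        simp only [SimpleGraph.dist_self] at h4
        have h5 := hT.connected.pos_dist_of_ne hwne.symm
        omega
      refine (remove_indep G hT v0 hU h3 hy hz hne hmax (fun f => F (f y)) ?_ ?_).trans ?_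
      · intro f v
        simp only [Function.update_of_ne hne]
      · intro f
        exact hF _
      · apply ih (U.erase z)
        · rw [Finset.card_erase_of_mem hz]; omega
        · exact conv_erase hT hU hy hz hmax
        · exact Finset.mem_erase.2 ⟨hne, hy⟩
        · rw [Finset.card_erase_of_mem hz]; omega
    · have hc : U.card = 2 := by omega
      obtain ⟨w, hw, hwne⟩ := Finset.exists_mem_ne (by omega : 1 < U.card) y
      have hU2 : U = {y, w} := by
        symm
        apply Finset.eq_of_subset_of_card_le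
        · intro u hu
          rw [Finset.mem_insert, Finset.mem_singleton] at hu
          rcases hu with rfl | rfl
          · exact hy
          · exact hw
        · rw [Finset.card_pair hwne.symm, hc]
      obtain ⟨u, hu, hadj, _⟩ := hU w hw y hy hwne
      have huw : u = w := by
        rw [hU2, Finset.mem_insert, Finset.mem_singleton] at hu
        rcases hu with rfl | rfl
        · exact absurd rfl hadj.ne
        · rfl
      subst huw
      rw [hU2, ZU_pair G hT v0 hadj]

/-- remove the vertices that are as far from `a` as `b` -/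
theorem reduce_to (hT : T.IsTree) (v0 : V) (F : V → V → SF C) (hF : ∀ u x, SH (F u x))
    {a b : W} (hab : a ≠ b) :
    ∀ (n : ℕ) (U : Finset W), U.card = n → Conv T U → a ∈ U → b ∈ U →
      ∃ U' : Finset W, Conv T U' ∧ a ∈ U' ∧ b ∈ U' ∧
        (∀ y ∈ U', y ≠ b → T.dist a y < T.dist a b) ∧
        ZU G T v0 U (fun f => F (f a) (f b)) ≤ ZU G T v0 U' (fun f => F (f a) (f b)) := by
  intro n
  induction n with
  | zero =>
    intro U h0 _ ha
    rw [Finset.card_eq_zero] at h0
    subst h0
    exact absurd ha (Finset.notMem_empty a)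
  | succ n ih =>
    intro U hn hU ha hb
    by_cases hex : ∃ y ∈ U, y ≠ b ∧ T.dist a b ≤ T.dist a y
    · obtain ⟨y0, hy0, hy0b, hy0d⟩ := hex
      obtain ⟨z, hz, hmax⟩ := Finset.exists_max_image (U.erase b) (fun w => T.dist a w)
        ⟨y0, Finset.mem_erase.2 ⟨hy0b, hy0⟩⟩
      have hzb : z ≠ b := Finset.ne_of_mem_erase hz
      have hzU : z ∈ U := Finset.mem_of_mem_erase hz
      have hzd : T.dist a b ≤ T.dist a z :=
        hy0d.trans (hmax y0 (Finset.mem_erase.2 ⟨hy0b, hy0⟩))
      have hpos := hT.connected.pos_dist_of_ne hab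
      have hza : a ≠ z := by
        rintro rfl
        simp only [SimpleGraph.dist_self] at hzd
        omega
      have hmax' : ∀ y ∈ U, T.dist a y ≤ T.dist a z := by
        intro y hy
        by_cases hyb : y = b
        · subst hyb; exact hzd
        · exact hmax y (Finset.mem_erase.2 ⟨hyb, hy⟩)
      have h3 : 3 ≤ U.card := by
        have hsub : ({a, b, z} : Finset W) ⊆ U := by
          intro u hu
          simp only [mem_insert, mem_singleton] at hu
          rcases hu with rfl | rfl | rfl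
          · exact ha
          · exact hb
          · exact hzU
        have hc : ({a, b, z} : Finset W).card = 3 := Finset.card_eq_three.2
          ⟨a, b, z, hab, hza, hzb.symm, rfl⟩
        rw [← hc]
        exact Finset.card_le_card hsub
      have h4 := remove_indep G hT v0 hU h3 ha hzU hza hmax' (fun f => F (f a) (f b)) (by
        intro f v
        simp only [Function.update_of_ne hza, Function.update_of_ne hzb.symm]) (by
        intro f
        exact hF _ _)
      obtain ⟨U', c1, c2, c3, c4, c5⟩ := ih (U.erase z)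
        (by rw [Finset.card_erase_of_mem hzU]; omega) (conv_erase hT hU ha hzU hmax')
        (Finset.mem_erase.2 ⟨hza, ha⟩) (Finset.mem_erase.2 ⟨hzb.symm, hb⟩)
      exact ⟨U', c1, c2, c3, c4, h4.trans c5⟩
    · push Not at hex
      exact ⟨U, hU, ha, hb, hex, le_rfl⟩

/-- one step toward `a` -/
theorem one_step (hT : T.IsTree) (v0 : V) (F : V → V → SF C) (hF : ∀ u x, SH (F u x))
    {a b : W} (hd : 2 ≤ T.dist a b) (U : Finset W) (hU : Conv T U) (ha : a ∈ U) (hb : b ∈ U) :
    ∃ (U' : Finset W) (b' : W), Conv T U' ∧ a ∈ U' ∧ b' ∈ U' ∧ T.dist a b' + 1 = T.dist a b ∧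
      ZU G T v0 U (fun f => F (f a) (f b)) ≤
        ZU G T v0 U' (fun f => St G (F (f a)) (f b')) := by
  have hab : a ≠ b := by
    rintro rfl
    simp only [SimpleGraph.dist_self] at hd
    omega
  obtain ⟨U1, c1, c2, c3, c4, c5⟩ := reduce_to G hT v0 F hF hab U.card U rfl hU ha hb
  have hmax : ∀ y ∈ U1, T.dist a y ≤ T.dist a b := by
    intro y hy
    by_cases hyb : y = b
    · subst hyb; exact le_rfl
    · exact (c4 y hy hyb).le
  have h3 : 3 ≤ U1.card := by
    obtain ⟨w, hw, h1, h2⟩ := c1 a c2 b c3 hab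
    have hwa : a ≠ w := by
      rintro rfl
      simp only [SimpleGraph.dist_self] at h2
      omega
    have hsub : ({a, b, w} : Finset W) ⊆ U1 := by
      intro u hu
      simp only [mem_insert, mem_singleton] at hu
      rcases hu with rfl | rfl | rfl
      · exact c2
      · exact c3
      · exact hw
    have hc : ({a, b, w} : Finset W).card = 3 := Finset.card_eq_three.2
      ⟨a, b, w, hab, hwa, h1.ne, rfl⟩
    rw [← hc]
    exact Finset.card_le_card hsub
  obtain ⟨b', hb', d1, d2⟩ := remove_leaf G hT v0 c1 h3 c2 c3 hab hmax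
  refine ⟨U1.erase b, b', conv_erase hT c1 c2 c3 hmax, Finset.mem_erase.2 ⟨hab, c2⟩, hb', d1, ?_⟩
  refine c5.trans (le_of_eq ?_)
  rw [d2]
  unfold St
  simp only [Function.update_self, Function.update_of_ne hab]

/-- several steps toward `a` -/
theorem steps (hT : T.IsTree) (v0 : V) {a : W} (s : ℕ) (hs : 1 ≤ s) : ∀ (j : ℕ) (b : W)
    (F : V → V → SF C) (U : Finset W), (∀ u x, SH (F u x)) → T.dist a b = s + j →
    Conv T U → a ∈ U → b ∈ U →
    ∃ (U' : Finset W) (b' : W), Conv T U' ∧ a ∈ U' ∧ b' ∈ U' ∧ T.dist a b' = s ∧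
      ZU G T v0 U (fun f => F (f a) (f b)) ≤
        ZU G T v0 U' (fun f => ((St G)^[j] (F (f a))) (f b')) := by
  intro j
  induction j with
  | zero =>
    intro b F U hF hd hU ha hb
    exact ⟨U, b, hU, ha, hb, hd, le_rfl⟩
  | succ j ih =>
    intro b F U hF hd hU ha hb
    obtain ⟨U1, b1, c1, c2, c3, c4, c5⟩ := one_step G hT v0 F hF (by omega) U hU ha hb
    obtain ⟨U2, b2, d1, d2, d3, d4, d5⟩ := ih b1 (fun u => St G (F u)) U1
      (fun u x => St_SH G (hF u) x) (by omega) c1 c2 c3
    exact ⟨U2, b2, d1, d2, d3, d4, c5.trans d5⟩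

/-! ### the hitting functions -/

variable {dst : V → V → ℕ}

/-- the bad part -/
noncomputable def Bd (l m : ℕ) : ℕ → V → SF C
  | 0, _ => 0
  | (j + 1), x => (5 : ℝ) • Ph l m (G.S x) + St G (Bd l m j) x

theorem Bd_SH (l m : ℕ) : ∀ (j : ℕ) (x : V), SH (Bd G l m j x) := by
  intro j
  induction j with
  | zero => intro x; exact SH.zero
  | succ j ih =>
    intro x
    unfold Bd
    exact ((Ph_SH l m _).smul (by norm_num)).add (St_SH G ih x)

/-- the end of a path at `u` -/
noncomputable def Y0 (l : ℕ) (u x : V) : SF C := if x = u then gl l else 0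

theorem Y0_SH (l : ℕ) (u x : V) : SH (Y0 l u x : SF C) := by
  unfold Y0
  split_ifs
  · exact gl_SH l
  · exact SH.zero

theorem kap_zero {m j d : ℕ} (h : j ≤ 4) (hd : j < d) : kap m j d = 0 := by
  interval_cases j
  · rfl
  · simp only [kap]; rw [if_neg (by omega)]
  · simp only [kap]; rw [if_neg (by omega), if_neg (by omega)]
  · simp only [kap]; rw [if_neg (by omega), if_neg (by omega)]
  · simp only [kap]; rw [if_neg (by omega), if_neg (by omega), if_neg (by omega)]

theorem kap_le_one {m j d : ℕ} (hm : 4 ≤ m) (h : j ≤ 4) : kap m j d ≤ 1 := by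
  have hm4 : (4 : ℝ) ≤ m := by exact_mod_cast hm
  have hm0 : (0 : ℝ) < m := by linarith
  have h2 : (16 : ℝ) ≤ (m : ℝ) ^ 2 := by nlinarith
  have h3 : (64 : ℝ) ≤ (m : ℝ) ^ 3 := by nlinarith
  have h4 : (256 : ℝ) ≤ (m : ℝ) ^ 4 := by nlinarith
  interval_cases j
  · exact zero_le_one
  · simp only [kap]
    split_ifs
    · rw [div_le_one hm0]; linarith
    · norm_num
  · simp only [kap]
    split_ifs
    · rw [div_le_one hm0]; linarith
    · rw [div_le_one (by positivity)]; linarith
    · norm_num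
  · simp only [kap]
    split_ifs
    · rw [div_le_one (by positivity)]; linarith
    · rw [div_le_one (by positivity)]; linarith
    · norm_num
  · simp only [kap]
    split_ifs
    · rw [div_le_one (by positivity)]; linarith
    · rw [div_le_one (by positivity)]; linarith
    · rw [div_le_one (by positivity)]; linarith
    · norm_num

theorem hit_one (hG : CubeLike G dst) {l m : ℕ} (hm : 4 ≤ m) (u x : V) :
    St G (Y0 l u) x ≤ kap m 1 (dst x u) • gl l + (Fintype.card C : ℝ) • Bd G l m 1 x := by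
  have hm0 : (0 : ℝ) < m := by
    have : 0 < m := by omega
    exact_mod_cast this
  have hB : (Fintype.card C : ℝ) • Ph l m (G.S x) ≤ (Fintype.card C : ℝ) • Bd G l m 1 x := by
    apply smul_le (by positivity)
    have h1 : Bd G l m 1 x = (5 : ℝ) • Ph l m (G.S x) + St G (Bd G l m 0) x := rfl
    rw [h1]
    have h2 : Ph l m (G.S x) ≤ (5 : ℝ) • Ph l m (G.S x) := by
      intro D
      show Ph l m (G.S x) D ≤ ((5 : ℝ) • Ph l m (G.S x) : SF C) D
      rw [smul_app]
      have : (0 : ℝ) ≤ Ph l m (G.S x) D := (Ph_SH l m (G.S x)).1 D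
      linarith
    exact h2.trans (le_add_of_nonneg_right (St_SH G (Bd_SH G l m 0) x).1)
  have hB0 : (0 : SF C) ≤ (Fintype.card C : ℝ) • Bd G l m 1 x :=
    smul_nonneg' (by positivity) (Bd_SH G l m 1 x).1
  have hk0 : (0 : SF C) ≤ kap m 1 (dst x u) • gl l :=
    smul_nonneg' (kap_nonneg _ _ _) (gl_SH l).1
  by_cases hex : ∃ c ∈ G.S x, G.mv x c = u
  · obtain ⟨c, hc, hcu⟩ := hex
    have hd : dst x u = 1 := by
      have h0 := (hG.zero _ _).2 hcu
      rcases hG.step x u c hc with h | h
      · omega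
      · omega
    have h1 : St G (Y0 l u) x = X c * (Bk (G.S x) * gl l) := by
      unfold St
      rw [Finset.sum_eq_single c]
      · unfold Y0
        rw [if_pos hcu]
        ring
      · intro c' hc' hne
        unfold Y0
        rw [if_neg, mul_zero]
        intro h
        exact hne (G.inj x c' c hc' hc (h.trans hcu.symm))
      · intro h
        exact absurd hc h
    rw [h1, hd]
    have h2 : kap m 1 1 = 1 / (m : ℝ) := by simp [kap]
    rw [h2]
    refine (X_Bk_le (by omega : 1 ≤ m) (G.S x) c hc).trans ?_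
    exact add_le_add le_rfl hB
  · push Not at hex
    have h1 : St G (Y0 l u) x = 0 := by
      unfold St
      rw [Finset.sum_eq_zero, mul_zero]
      intro c hc
      unfold Y0
      rw [if_neg (hex c hc), mul_zero]
    rw [h1]
    exact add_nonneg hk0 hB0

theorem hit_step (hG : CubeLike G dst) {l m j : ℕ} (hm : 4 ≤ m) (h1 : 1 ≤ j) (h4 : j ≤ 4)
    (u : V) (F : V → SF C)
    (hF : ∀ x, F x ≤ kap m j (dst x u) • gl l + (Fintype.card C : ℝ) • Bd G l m j x) (x : V) :
    St G F x ≤ kap m (j + 1) (dst x u) • gl l + (Fintype.card C : ℝ) • Bd G l m (j + 1) x := by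
  have hm0 : (0 : ℝ) < m := by
    have : 0 < m := by omega
    exact_mod_cast this
  have hq : (0 : ℝ) ≤ (Fintype.card C : ℝ) := by positivity
  set q : ℝ := (Fintype.card C : ℝ) with hqdef
  refine (St_le G hF x).trans ?_
  have e1 : St G (fun x => kap m j (dst x u) • gl l + q • Bd G l m j x) x =
      ∑ c ∈ G.S x, kap m j (dst (G.mv x c) u) • (X c * (Bk (G.S x) * gl l)) +
        q • St G (Bd G l m j) x := by
    unfold St
    rw [Finset.mul_sum, Finset.mul_sum, Finset.smul_sum, ← Finset.sum_add_distrib]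
    apply Finset.sum_congr rfl
    intro c _
    rw [mul_add, mul_add, mul_smul_comm, mul_smul_comm, mul_smul_comm, mul_smul_comm]
    congr 2
    ring
  rw [e1]
  -- down and up
  have h5 : ∀ c ∈ G.S x, kap m j (dst (G.mv x c) u) • (X c * (Bk (G.S x) * gl l)) ≤
      (if dst (G.mv x c) u + 1 = dst x u then
        kap m j (dst x u - 1) • ((1 / (m : ℝ)) • gl l + q • Ph l m (G.S x)) else (0 : SF C)) +
      kap m j (dst x u + 1) • (X c * (Bk (G.S x) * gl l)) := by
    intro c hc
    have hpos : (0 : SF C) ≤ X c * (Bk (G.S x) * gl l) :=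
      sf_mul_nonneg (X_nonneg c) (sf_mul_nonneg (Bk_nonneg _) (gl_SH l).1)
    rcases hG.step x u c hc with h6 | h6
    · rw [if_pos h6, show dst x u - 1 = dst (G.mv x c) u by omega]
      have h7 := smul_le (kap_nonneg m j (dst (G.mv x c) u))
        (X_Bk_le (l := l) (by omega : 1 ≤ m) (G.S x) c hc)
      exact h7.trans (le_add_of_nonneg_right (smul_nonneg' (kap_nonneg _ _ _) hpos))
    · rw [h6, if_neg (by omega), zero_add]
  have h6 := Finset.sum_le_sum h5
  rw [Finset.sum_add_distrib, ← Finset.sum_filter, Finset.sum_const, ← Finset.smul_sum,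
    ← Finset.sum_mul] at h6
  have h7 : (∑ c ∈ G.S x, X c) * (Bk (G.S x) * gl l) ≤ gl l := by
    have := sg_Bk_le (G.S x) (gl_SH (C := C) l)
    rw [mul_assoc] at this
    exact this
  have h8 := smul_le (kap_nonneg m j (dst x u + 1)) h7
  set d := dst x u with hd
  set nd := ((G.S x).filter (fun c => dst (G.mv x c) u + 1 = d)).card with hnd
  have hndd : nd ≤ d := hG.down x u
  have h9 : (nd : ℝ) * kap m j (d - 1) ≤ 5 := by
    by_cases hdj : j < d - 1
    · rw [kap_zero h4 hdj]; norm_num
    · have e1 : (nd : ℝ) ≤ 5 := by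
        have : nd ≤ 5 := by omega
        exact_mod_cast this
      have e2 := kap_le_one (d := d - 1) hm h4
      have e3 := kap_nonneg m j (d - 1)
      have e4 : (0 : ℝ) ≤ nd := by positivity
      nlinarith
  have h10 := kap_step hm h1 h4 d
  intro D
  have a1 := h6 D
  have a2 := h8 D
  have hgl : (0 : ℝ) ≤ (gl l : SF C) D := (gl_SH l).1 D
  have hP : (0 : ℝ) ≤ Ph l m (G.S x) D := (Ph_SH l m (G.S x)).1 D
  have e2 : Bd G l m (j + 1) x = (5 : ℝ) • Ph l m (G.S x) + St G (Bd G l m j) x := rfl
  show (∑ c ∈ G.S x, kap m j (dst (G.mv x c) u) • (X c * (Bk (G.S x) * gl l)) +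
        q • St G (Bd G l m j) x : SF C) D ≤
      (kap m (j + 1) d • gl l + q • Bd G l m (j + 1) x : SF C) D
  rw [e2]
  change (∑ c ∈ G.S x, kap m j (dst (G.mv x c) u) • (X c * (Bk (G.S x) * gl l)) : SF C) D ≤
    (nd • (kap m j (d - 1) • ((1 / (m : ℝ)) • gl l + q • Ph l m (G.S x))) +
      kap m j (d + 1) • ((∑ c ∈ G.S x, X c) * (Bk (G.S x) * gl l)) : SF C) D at a1
  change (kap m j (d + 1) • ((∑ c ∈ G.S x, X c) * (Bk (G.S x) * gl l)) : SF C) D ≤
    (kap m j (d + 1) • gl l : SF C) D at a2
  rw [← Nat.cast_smul_eq_nsmul ℝ] at a1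
  simp only [add_app, smul_app] at a1 a2 ⊢
  have h11 : (nd : ℝ) * (kap m j (d - 1) * (1 / (m : ℝ) * (gl l : SF C) D)) ≤
      (d : ℝ) / m * kap m j (d - 1) * (gl l : SF C) D := by
    have e3 : (nd : ℝ) ≤ d := by exact_mod_cast hndd
    have e4 := kap_nonneg m j (d - 1)
    have e5 : (nd : ℝ) * (kap m j (d - 1) * (1 / (m : ℝ) * (gl l : SF C) D)) =
        nd * ((kap m j (d - 1) / m) * (gl l : SF C) D) := by ring
    have e6 : (d : ℝ) / m * kap m j (d - 1) * (gl l : SF C) D =
        d * ((kap m j (d - 1) / m) * (gl l : SF C) D) := by ring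
    rw [e5, e6]
    exact mul_le_mul_of_nonneg_right e3 (by positivity)
  have h12 : (nd : ℝ) * (kap m j (d - 1) * (q * Ph l m (G.S x) D)) ≤
      5 * (q * Ph l m (G.S x) D) := by
    have e3 : (nd : ℝ) * (kap m j (d - 1) * (q * Ph l m (G.S x) D)) =
        (nd * kap m j (d - 1)) * (q * Ph l m (G.S x) D) := by ring
    rw [e3]
    exact mul_le_mul_of_nonneg_right h9 (by positivity)
  have h13 := mul_le_mul_of_nonneg_right h10 hgl
  nlinarith

/-- the bound for the hitting functions -/
theorem hit (hG : CubeLike G dst) {l m : ℕ} (hm : 4 ≤ m) (u : V) : ∀ j, j ≤ 4 → ∀ x : V,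
    ((St G)^[j + 1] (Y0 l u)) x ≤
      kap m (j + 1) (dst x u) • gl l + (Fintype.card C : ℝ) • Bd G l m (j + 1) x := by
  intro j
  induction j with
  | zero => intro _ x; exact hit_one G hG hm u x
  | succ j ih =>
    intro hj x
    rw [Function.iterate_succ_apply']
    exact hit_step G hG hm (by omega) (by omega) u _ (ih (by omega)) x

/-- the bad part summed over the vertices -/
theorem sum_sg_St (F : V → SF C) (hF : ∀ x, SH (F x)) :
    ∑ x : V, sg (G.S x) * St G F x ≤ ∑ x : V, sg (G.S x) * F x := by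
  have h1 : ∀ x ∈ (univ : Finset V), sg (G.S x) * St G F x ≤
      ∑ c ∈ G.S x, X c * F (G.mv x c) := by
    intro x _
    unfold St
    rw [← mul_assoc]
    apply sg_Bk_le
    apply SH.sum
    intro c _
    exact SH.mul (X_nonneg c) (hF _)
  refine (Finset.sum_le_sum h1).trans (le_of_eq ?_)
  rw [Finset.sum_congr rfl (fun x _ => (sum_Xe G x F).symm), Finset.sum_comm]
  apply Finset.sum_congr rfl
  intro v _
  have h2 : ∀ x ∈ (univ : Finset V), Xe G x v * F v = Xe G v x * F v := by
    intro x _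
    rw [Xe_comm]
  rw [Finset.sum_congr rfl h2, sum_Xe G v (fun _ => F v), ← Finset.sum_mul]
  rfl

theorem sum_sg_Bd (l m : ℕ) : ∀ j : ℕ, ∑ x : V, sg (G.S x) * Bd G l m j x ≤
    (5 * (j : ℝ)) • ∑ x : V, sg (G.S x) * Ph l m (G.S x) := by
  intro j
  induction j with
  | zero =>
    simp only [Bd, mul_zero, Finset.sum_const_zero, Nat.cast_zero, zero_smul]
    exact le_rfl
  | succ j ih =>
    have h1 : ∀ x : V, sg (G.S x) * Bd G l m (j + 1) x =
        (5 : ℝ) • (sg (G.S x) * Ph l m (G.S x)) + sg (G.S x) * St G (Bd G l m j) x := by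
      intro x
      show sg (G.S x) * ((5 : ℝ) • Ph l m (G.S x) + St G (Bd G l m j) x) = _
      rw [mul_add, mul_smul_comm]
    rw [Finset.sum_congr rfl (fun x _ => h1 x), Finset.sum_add_distrib, ← Finset.smul_sum]
    have h2 := (sum_sg_St G (Bd G l m j) (Bd_SH G l m j)).trans ih
    have h3 : (5 * ((j + 1 : ℕ) : ℝ)) • ∑ x : V, sg (G.S x) * Ph l m (G.S x) =
        (5 : ℝ) • (∑ x : V, sg (G.S x) * Ph l m (G.S x)) +
        (5 * (j : ℝ)) • ∑ x : V, sg (G.S x) * Ph l m (G.S x) := by
      rw [← add_smul]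
      congr 1
      push_cast
      ring
    rw [h3]
    exact add_le_add le_rfl h2

end

end Pool.Agent.K4H80.RT
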