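import Pool.Agent.K4H80.RT.Hit

set_option autoImplicit false

/-!
# The main inequality for a host graph
-/

namespace Pool.Agent.K4H80.RT

open Finset Pool.Agent.K4H80.RP

section
variable {W V C : Type} [DecidableEq W] [Fintype W] [DecidableEq V] [Fintype V]
  [DecidableEq C] [Fintype C]
variable (G : Host V C) {T : SimpleGraph W} [DecidableRel T.Adj]

/-! ### the mass -/

theorem ZU_mul (v0 : V) (U : Finset W) (F : (W → V) → SF C) (g : SF C) :
    ZU G T v0 U F * g = ZU G T v0 U (fun f => F f * g) := by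
  unfold ZU
  rw [Finset.sum_mul]
  apply Finset.sum_congr rfl
  intro f _
  ring

theorem flow (hT : T.IsTree) (v0 : V) : ∀ (n : ℕ) (U : Finset W), U.card = n → Conv T U →
    2 ≤ U.card → ∃ Om : SF C, 0 ≤ Om ∧
      ZU G T v0 U (fun _ => 1) = ∑ x : V, sg (G.S x) - (1 - R) * Om ∧
      ∀ g : SF C, SH g → Om * g ≤ (((U.card - 2 : ℕ) : ℝ) * (Fintype.card V : ℝ)) • g := by
  intro n
  induction n with
  | zero => intro U h0 _ h2; omega
  | succ n ih =>
    intro U hn hU h2
    obtain ⟨r, hr⟩ : U.Nonempty := Finset.card_pos.1 (by omega)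
    by_cases h3 : 3 ≤ U.card
    · obtain ⟨z, hz, hmax⟩ := Finset.exists_max_image U (fun w => T.dist r w) ⟨r, hr⟩
      have hne : r ≠ z := by
        rintro rfl
        obtain ⟨w, hw, hwne⟩ := Finset.exists_mem_ne (by omega : 1 < U.card) r
        have h4 := hmax w hw
        simp only [SimpleGraph.dist_self] at h4
        have h5 := hT.connected.pos_dist_of_ne hwne.symm
        omega
      obtain ⟨z', hz', _, hZ⟩ := remove_leaf G hT v0 hU h3 hr hz hne hmax
      have hU' := conv_erase hT hU hr hz hmax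
      have hc : (U.erase z).card = U.card - 1 := Finset.card_erase_of_mem hz
      obtain ⟨Om, h4, h5, h6⟩ := ih (U.erase z) (by omega) hU' (by omega)
      refine ⟨Om + ZU G T v0 (U.erase z) (fun f => Bk (G.S (f z'))), ?_, ?_, ?_⟩
      · apply add_nonneg h4
        unfold ZU
        apply Finset.sum_nonneg
        intro f _
        exact mul_nonneg (wt_nonneg G T _ f) (Bk_nonneg _)
      · rw [hZ]
        have h7 : ZU G T v0 (U.erase z) (fun f => Bk (G.S (f z')) *
            ∑ c ∈ G.S (f z'), X c * (1 : SF C)) =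
            ZU G T v0 (U.erase z) (fun _ => 1) -
              (1 - R) * ZU G T v0 (U.erase z) (fun f => Bk (G.S (f z'))) := by
          unfold ZU
          rw [Finset.mul_sum, ← Finset.sum_sub_distrib]
          apply Finset.sum_congr rfl
          intro f _
          have h8 : ∑ c ∈ G.S (f z'), X c * (1 : SF C) = sg (G.S (f z')) := by
            unfold sg
            apply Finset.sum_congr rfl
            intro c _
            rw [mul_one]
          have h9 : Bk (G.S (f z')) * sg (G.S (f z')) = 1 - (1 - R) * Bk (G.S (f z')) := by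
            rw [mul_comm, sg_mul_Bk]
          beta_reduce
          rw [h8, h9]
          ring
        rw [h7, h5]
        ring
      · intro g hg
        rw [add_mul, ZU_mul]
        have h7 := h6 g hg
        have h8 : ZU G T v0 (U.erase z) (fun f => Bk (G.S (f z')) * g) ≤
            (Fintype.card V : ℝ) • g := by
          refine (reduce_edge G hT v0 (fun x => Bk (G.S x) * g)
            (fun x => SH.mul (Bk_nonneg _) hg) z' (U.erase z).card (U.erase z) rfl hU' hz'
            (by omega)).trans ?_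
          have h9 : ∑ x : V, sg (G.S x) * (Bk (G.S x) * g) ≤ ∑ _x : V, g := by
            apply Finset.sum_le_sum
            intro x _
            rw [← mul_assoc]
            exact sg_Bk_le _ hg
          rw [Finset.sum_const, Finset.card_univ, ← Nat.cast_smul_eq_nsmul ℝ] at h9
          exact h9
        have h10 : (((U.card - 2 : ℕ) : ℝ) * (Fintype.card V : ℝ)) • g =
            ((((U.erase z).card - 2 : ℕ) : ℝ) * (Fintype.card V : ℝ)) • g +
              (Fintype.card V : ℝ) • g := by
          rw [← add_smul]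
          congr 1
          have : U.card - 2 = ((U.erase z).card - 2) + 1 := by omega
          rw [this]
          push_cast
          ring
        rw [h10]
        exact add_le_add h7 h8
    · have hc : U.card = 2 := by omega
      obtain ⟨w, hw, hwne⟩ := Finset.exists_mem_ne (by omega : 1 < U.card) r
      have hU2 : U = {r, w} := by
        symm
        apply Finset.eq_of_subset_of_card_le
        · intro u hu
          rw [Finset.mem_insert, Finset.mem_singleton] at hu
          rcases hu with rfl | rfl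
          · exact hr
          · exact hw
        · rw [Finset.card_pair hwne.symm, hc]
      obtain ⟨u, hu, hadj, _⟩ := hU w hw r hr hwne
      have huw : u = w := by
        rw [hU2, Finset.mem_insert, Finset.mem_singleton] at hu
        rcases hu with rfl | rfl
        · exact absurd rfl hadj.ne
        · rfl
      subst huw
      refine ⟨0, le_rfl, ?_, ?_⟩
      · rw [hU2, ZU_pair G hT v0 hadj (fun _ => (1 : SF C))]
        simp only [mul_one, mul_zero, sub_zero]
      · intro g hg
        rw [zero_mul]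
        exact smul_nonneg' (by positivity) hg.1

theorem sg_gl_univ (S : Finset C) (l : ℕ) :
    (sg S * gl l : SF C) univ =
      (S.card : ℝ) * (((Fintype.card C - 1).factorial : ℝ) *
        ((Fintype.card C - 1 - l : ℕ) : ℝ)) := by
  rw [sg_mul_app, Finset.inter_univ]
  have h : ∀ c ∈ S, (gl l : SF C) (univ.erase c) = ((Fintype.card C - 1).factorial : ℝ) *
        ((Fintype.card C - 1 - l : ℕ) : ℝ) := by
    intro c _
    rw [gl_app, Finset.card_erase_of_mem (Finset.mem_univ c), Finset.card_univ]
  rw [Finset.sum_congr rfl h, Finset.sum_const, nsmul_eq_mul]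

theorem sg_Ph_univ (S : Finset C) (l m : ℕ) :
    (sg S * Ph l m S : SF C) univ =
      (S.card : ℝ) * (((Fintype.card C - 1).factorial : ℝ) *
        Phi l m (Fintype.card C - 1) (S.card - 1)) := by
  rw [sg_mul_app, Finset.inter_univ]
  have h : ∀ c ∈ S, Ph l m S (univ.erase c) = ((Fintype.card C - 1).factorial : ℝ) *
        Phi l m (Fintype.card C - 1) (S.card - 1) := by
    intro c hc
    rw [Ph_app, Finset.card_erase_of_mem (Finset.mem_univ c), Finset.card_univ]
    congr 2
    rw [← Finset.card_erase_of_mem hc]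
    congr 1
    ext x
    simp only [mem_inter, mem_erase, mem_univ, and_true]
  rw [Finset.sum_congr rfl h, Finset.sum_const, nsmul_eq_mul]

theorem mass_lower (hT : T.IsTree) (v0 : V) (hW : 2 ≤ Fintype.card W) (l : ℕ) :
    (∑ x : V, sg (G.S x) * gl l : SF C) univ -
      (((Fintype.card W - 2 : ℕ) : ℝ) * (Fintype.card V : ℝ)) *
        ((Fintype.card C).factorial : ℝ) ≤
    (ZU G T v0 univ (fun _ => gl l) : SF C) univ := by
  obtain ⟨Om, h1, h2, h3⟩ := flow G hT v0 (univ : Finset W).card univ rfl (conv_univ hT)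
    (by rw [Finset.card_univ]; exact hW)
  have h4 : ZU G T v0 univ (fun _ => (gl l : SF C)) =
      ∑ x : V, sg (G.S x) * gl l - Om * ((1 - R) * gl l) := by
    have h5 := ZU_mul G v0 univ (fun _ : W → V => (1 : SF C)) (T := T) (gl l)
    simp only [one_mul] at h5
    rw [← h5, h2, sub_mul, Finset.sum_mul]
    ring
  rw [h4, sub_app]
  have h5 : Om * ((1 - R) * gl l) ≤ Om * g0 := mul_le_mul_of_nonneg_left (gl_le l) h1
  have h6 := h5 univ
  have h7 := h3 g0 g0_SH univ
  rw [Finset.card_univ] at h7
  have h8 : ((((Fintype.card W - 2 : ℕ) : ℝ) * (Fintype.card V : ℝ)) • (g0 : SF C)) univ =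
      (((Fintype.card W - 2 : ℕ) : ℝ) * (Fintype.card V : ℝ)) *
        ((Fintype.card C).factorial : ℝ) := by
    rw [smul_app, g0_app, Finset.card_univ]
  have h9 : (Om * ((1 - R) * gl l) : SF C) univ ≤ (Om * g0 : SF C) univ := h6
  have h10 : (Om * g0 : SF C) univ ≤
      ((((Fintype.card W - 2 : ℕ) : ℝ) * (Fintype.card V : ℝ)) • (g0 : SF C)) univ := h7
  linarith

/-! ### homomorphisms -/

theorem Xe_eq {x y : V} {c : C} (hc : c ∈ G.S x) (h : G.mv x c = y) : Xe G x y = X c := by
  unfold Xe
  have : (G.S x).filter (fun c => G.mv x c = y) = {c} := by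
    ext c'
    rw [Finset.mem_filter, Finset.mem_singleton]
    constructor
    · rintro ⟨h1, h2⟩
      exact G.inj x c' c h1 hc (h2.trans h.symm)
    · rintro rfl
      exact ⟨hc, h⟩
  rw [this, Finset.sum_singleton]

theorem of_Xe_ne {x y : V} (h : Xe G x y ≠ 0) : ∃ c ∈ G.S x, G.mv x c = y := by
  by_contra hcon
  push Not at hcon
  apply h
  unfold Xe
  rw [Finset.filter_eq_empty_iff.2 (fun {c} hc => hcon c hc), Finset.sum_empty]

variable (T) in
/-- homomorphism to the host -/
def IsHom (f : W → V) : Prop := ∀ a b, T.Adj a b → ∃ c ∈ G.S (f a), G.mv (f a) c = f b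

variable (T) in
/-- the colours of the edges are distinct -/
def IsRb (f : W → V) : Prop := ∀ a b a' b' c, T.Adj a b → T.Adj a' b' → c ∈ G.S (f a) →
  G.mv (f a) c = f b → c ∈ G.S (f a') → G.mv (f a') c = f b' → s(a, b) = s(a', b')

theorem of_wt_ne_edge {U : Finset W} {f : W → V} (h : wt G T U f ≠ 0) {a b : W} (ha : a ∈ U)
    (hb : b ∈ U) (hab : T.Adj a b) : ∃ c ∈ G.S (f a), G.mv (f a) c = f b := by
  apply of_Xe_ne
  intro h0
  apply h
  unfold wt
  have : ∏ e ∈ EU T U, XE G f e = 0 := by
    apply Finset.prod_eq_zero (i := s(a, b))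
    · rw [mem_EU]
      refine ⟨hab, ?_⟩
      intro w hw
      rw [Sym2.mem_iff] at hw
      rcases hw with rfl | rfl
      · exact ha
      · exact hb
    · rw [XE_mk]
      exact h0
  rw [this, zero_mul]

theorem of_wt_ne {f : W → V} (h : wt G T univ f ≠ 0) : IsHom G T f ∧ IsRb G T f := by
  have hhom : IsHom G T f := fun a b hab =>
    of_wt_ne_edge G h (Finset.mem_univ _) (Finset.mem_univ _) hab
  refine ⟨hhom, ?_⟩
  intro a b a' b' c hab hab' h1 h2 h1' h2'
  by_contra hne
  apply h
  unfold wt
  have he : s(a, b) ∈ EU T univ := by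
    rw [mem_EU]
    exact ⟨hab, fun w _ => Finset.mem_univ w⟩
  have he' : s(a', b') ∈ (EU T univ).erase s(a, b) := by
    rw [Finset.mem_erase, mem_EU]
    exact ⟨fun h5 => hne h5.symm, hab', fun w _ => Finset.mem_univ w⟩
  rw [← Finset.mul_prod_erase _ _ he, ← Finset.mul_prod_erase _ _ he', XE_mk, XE_mk,
    Xe_eq G h1 h2, Xe_eq G h1' h2', ← mul_assoc (X c) (X c), X_sq, zero_mul, zero_mul]

variable {dst : V → V → ℕ}

theorem hom_parity (hG : CubeLike G dst) {f : W → V} (hf : IsHom G T f) {a b : W}
    (p : T.Walk a b) : dst (f a) (f b) % 2 = p.length % 2 := by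
  induction p with
  | nil =>
    rw [(hG.zero _ _).2 rfl]
    rfl
  | @cons a a' b h p ih =>
    obtain ⟨c, hc, h1⟩ := hf a a' h
    have h2 := hG.step (f a) (f b) c hc
    rw [h1] at h2
    rw [SimpleGraph.Walk.length_cons]
    omega

theorem collide (hG : CubeLike G dst) (hT : T.IsTree) {f : W → V} (hf : IsHom G T f)
    (hr : IsRb G T f) {a b : W} (hab : a ≠ b) (h : f a = f b) :
    T.dist a b = 4 ∨ 6 ≤ T.dist a b := by
  obtain ⟨p, hp⟩ := hT.connected.exists_walk_length_eq_dist a b
  have h1 := hom_parity G hG hf p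
  rw [h, (hG.zero _ _).2 rfl, hp] at h1
  have h2 := hT.connected.pos_dist_of_ne hab
  have h3 : T.dist a b ≠ 2 := by
    intro h3
    obtain ⟨y, hy1, hy2⟩ := closer_exists hT hab
    have hy3 : T.dist a y = 1 := by omega
    rw [SimpleGraph.dist_eq_one_iff_adj] at hy3
    obtain ⟨c, hc, h4⟩ := hf y a hy3.symm
    have h5 := hr y a y b c hy3.symm hy1.symm hc h4 hc (h4.trans h)
    rcases Sym2.eq_iff.1 h5 with ⟨_, h6⟩ | ⟨h6, _⟩
    · exact hab h6
    · exact hy1.ne h6.symm
  omega

/-! ### collisions -/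

theorem coll_aux (hT : T.IsTree) (v0 : V) {l m : ℕ} {j : ℕ} {κ : ℝ} (hκ : 0 ≤ κ)
    {U : Finset W} {b : W} (hU : Conv T U) (hb : b ∈ U) (h2 : 2 ≤ U.card)
    (F : (W → V) → SF C) (hF : ∀ f, wt G T U f ≠ 0 →
      F f ≤ κ • gl l + (Fintype.card C : ℝ) • Bd G l m j (f b)) (hj : j ≤ 5) :
    ZU G T v0 U F ≤ κ • (∑ x : V, sg (G.S x) * gl l) +
      ((Fintype.card C : ℝ) * 25) • ∑ x : V, sg (G.S x) * Ph l m (G.S x) := by
  have h1 : ZU G T v0 U F ≤ ZU G T v0 U
      (fun f => κ • gl l + (Fintype.card C : ℝ) • Bd G l m j (f b)) := by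
    unfold ZU
    apply Finset.sum_le_sum
    intro f _
    by_cases h : wt G T U f = 0
    · rw [h, zero_mul, zero_mul]
    · exact mul_le_mul_of_nonneg_left (hF f h) (wt_nonneg G T U f)
  refine h1.trans ?_
  refine (reduce_edge G hT v0 (fun x => κ • gl l + (Fintype.card C : ℝ) • Bd G l m j x)
    (fun x => ((gl_SH l).smul hκ).add ((Bd_SH G l m j x).smul (by positivity))) b U.card U rfl
    hU hb h2).trans ?_
  have h3 : ∑ x : V, sg (G.S x) * (κ • gl l + (Fintype.card C : ℝ) • Bd G l m j x) =
      κ • (∑ x : V, sg (G.S x) * gl l) +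
        (Fintype.card C : ℝ) • ∑ x : V, sg (G.S x) * Bd G l m j x := by
    rw [Finset.smul_sum, Finset.smul_sum, ← Finset.sum_add_distrib]
    apply Finset.sum_congr rfl
    intro x _
    rw [mul_add, mul_smul_comm, mul_smul_comm]
  rw [h3]
  apply add_le_add le_rfl
  rw [mul_smul]
  apply smul_le (by positivity)
  refine (sum_sg_Bd G l m j).trans ?_
  intro D
  have hP : (0 : ℝ) ≤ (∑ x : V, sg (G.S x) * Ph l m (G.S x) : SF C) D := by
    have : (0 : SF C) ≤ ∑ x : V, sg (G.S x) * Ph l m (G.S x) :=
      Finset.sum_nonneg (fun x _ => mul_nonneg (sg_nonneg _) (Ph_SH l m _).1)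
    exact this D
  show ((5 * (j : ℝ)) • ∑ x : V, sg (G.S x) * Ph l m (G.S x) : SF C) D ≤
    ((25 : ℝ) • ∑ x : V, sg (G.S x) * Ph l m (G.S x) : SF C) D
  rw [smul_app, smul_app]
  have hj' : (j : ℝ) ≤ 5 := by exact_mod_cast hj
  nlinarith

theorem coll_four (hG : CubeLike G dst) (hT : T.IsTree) (v0 : V) {l m : ℕ} (hm : 4 ≤ m)
    {a b : W} (hd : T.dist a b = 4) :
    ZU G T v0 univ (fun f => Y0 l (f a) (f b)) ≤
      (3 / (m : ℝ) ^ 2) • (∑ x : V, sg (G.S x) * gl l) +
      ((Fintype.card C : ℝ) * 25) • ∑ x : V, sg (G.S x) * Ph l m (G.S x) := by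
  obtain ⟨U, b', c1, c2, c3, c4, c5⟩ := steps G hT v0 (a := a) 1 le_rfl 3 b (Y0 l) univ
    (Y0_SH l) (by omega) (conv_univ hT) (Finset.mem_univ _) (Finset.mem_univ _)
  refine c5.trans ?_
  rw [SimpleGraph.dist_eq_one_iff_adj] at c4
  have h2 : 2 ≤ U.card := by
    have : ({a, b'} : Finset W) ⊆ U := by
      intro u hu
      rw [Finset.mem_insert, Finset.mem_singleton] at hu
      rcases hu with rfl | rfl
      · exact c2
      · exact c3
    have h3 := Finset.card_le_card this
    rw [Finset.card_pair c4.ne] at h3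
    exact h3
  apply coll_aux G hT v0 (j := 3) (by positivity) c1 c3 h2 _ _ (by norm_num)
  intro f hf
  have h1 := hit G hG (l := l) hm (f a) 2 (by norm_num) (f b')
  obtain ⟨c, hc, h4⟩ := of_wt_ne_edge G hf c3 c2 c4.symm
  have hd1 : dst (f b') (f a) = 1 := by
    have h5 := hG.step (f b') (f a) c hc
    rw [h4, (hG.zero _ _).2 rfl] at h5
    omega
  rw [hd1] at h1
  have h6 : kap m (2 + 1) 1 = 3 / (m : ℝ) ^ 2 := by simp [kap]
  rw [h6] at h1
  exact h1

theorem coll_six (hG : CubeLike G dst) (hT : T.IsTree) (v0 : V) {l m : ℕ} (hm : 4 ≤ m)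
    {a b : W} (hd : 6 ≤ T.dist a b) :
    ZU G T v0 univ (fun f => Y0 l (f a) (f b)) ≤
      (15 / (m : ℝ) ^ 3) • (∑ x : V, sg (G.S x) * gl l) +
      ((Fintype.card C : ℝ) * 25) • ∑ x : V, sg (G.S x) * Ph l m (G.S x) := by
  obtain ⟨U, b', c1, c2, c3, c4, c5⟩ := steps G hT v0 (a := a) (T.dist a b - 5) (by omega) 5 b
    (Y0 l) univ (Y0_SH l) (by omega) (conv_univ hT) (Finset.mem_univ _) (Finset.mem_univ _)
  refine c5.trans ?_
  have hab : a ≠ b' := by
    rintro rfl
    rw [SimpleGraph.dist_self] at c4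
    omega
  have h2 : 2 ≤ U.card := by
    have : ({a, b'} : Finset W) ⊆ U := by
      intro u hu
      rw [Finset.mem_insert, Finset.mem_singleton] at hu
      rcases hu with rfl | rfl
      · exact c2
      · exact c3
    have h3 := Finset.card_le_card this
    rw [Finset.card_pair hab] at h3
    exact h3
  apply coll_aux G hT v0 (j := 5) (by positivity) c1 c3 h2 _ _ (by norm_num)
  intro f _
  have h1 := hit G hG (l := l) hm (f a) 4 (by norm_num) (f b')
  have h6 : kap m (4 + 1) (dst (f b') (f a)) = 15 / (m : ℝ) ^ 3 := rfl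
  rw [h6] at h1
  exact h1

/-! ### the main inequality -/

/-- the numbers of ordered pairs at distance four, and at distance at least six -/
theorem main_ineq (hG : CubeLike G dst) (hT : T.IsTree) (v0 : V) (hW : 2 ≤ Fintype.card W)
    {l m : ℕ} (hm : 4 ≤ m)
    (hno : ∀ f : W → V, IsHom G T f → IsRb G T f → ¬ Function.Injective f) :
    (∑ x : V, sg (G.S x) * gl l : SF C) univ -
      (((Fintype.card W - 2 : ℕ) : ℝ) * (Fintype.card V : ℝ)) *
        ((Fintype.card C).factorial : ℝ) ≤
    (((univ : Finset (W × W)).filter (fun x => T.dist x.1 x.2 = 4)).card : ℝ) *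
      (3 / (m : ℝ) ^ 2 * (∑ x : V, sg (G.S x) * gl l : SF C) univ +
        (Fintype.card C : ℝ) * 25 * (∑ x : V, sg (G.S x) * Ph l m (G.S x) : SF C) univ) +
    (((univ : Finset (W × W)).filter (fun x => 6 ≤ T.dist x.1 x.2)).card : ℝ) *
      (15 / (m : ℝ) ^ 3 * (∑ x : V, sg (G.S x) * gl l : SF C) univ +
        (Fintype.card C : ℝ) * 25 * (∑ x : V, sg (G.S x) * Ph l m (G.S x) : SF C) univ) := by
  refine (mass_lower G hT v0 hW l).trans ?_
  set P4 := (univ : Finset (W × W)).filter (fun x => T.dist x.1 x.2 = 4) with hP4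
  set P6 := (univ : Finset (W × W)).filter (fun x => 6 ≤ T.dist x.1 x.2) with hP6
  have hval : ∀ f : W → V, (0 : ℝ) ≤ (wt G T univ f * gl l : SF C) univ := fun f =>
    sf_mul_nonneg (wt_nonneg G T univ f) (gl_SH l).1 univ
  have hY : ∀ (f : W → V) (a b : W), (wt G T univ f * Y0 l (f a) (f b) : SF C) univ =
      if f b = f a then (wt G T univ f * gl l : SF C) univ else 0 := by
    intro f a b
    unfold Y0
    split_ifs
    · rfl
    · rw [mul_zero]; rfl
  have h1 : (ZU G T v0 univ (fun _ => gl l) : SF C) univ ≤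
      ∑ x ∈ P4, (ZU G T v0 univ (fun f => Y0 l (f x.1) (f x.2)) : SF C) univ +
      ∑ x ∈ P6, (ZU G T v0 univ (fun f => Y0 l (f x.1) (f x.2)) : SF C) univ := by
    unfold ZU
    simp only [sum_app]
    rw [Finset.sum_comm (s := P4), Finset.sum_comm (s := P6), ← Finset.sum_add_distrib]
    apply Finset.sum_le_sum
    intro f _
    simp only [hY]
    have hn : ∀ P : Finset (W × W), (0 : ℝ) ≤
        ∑ x ∈ P, if f x.2 = f x.1 then (wt G T univ f * gl l : SF C) univ else 0 := by
      intro P
      apply Finset.sum_nonneg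
      intro x _
      split_ifs
      · exact hval f
      · exact le_rfl
    by_cases hw : wt G T univ f = 0
    · have h0 : (wt G T univ f * gl l : SF C) univ = 0 := by rw [hw, zero_mul]; rfl
      have h5 := hn P4
      have h6 := hn P6
      linarith
    · obtain ⟨h2, h3⟩ := of_wt_ne G hw
      have h4 := hno f h2 h3
      unfold Function.Injective at h4
      push Not at h4
      obtain ⟨a, b, hab, hne⟩ := h4
      have hmem : ∀ P : Finset (W × W), (a, b) ∈ P → (wt G T univ f * gl l : SF C) univ ≤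
          ∑ x ∈ P, if f x.2 = f x.1 then (wt G T univ f * gl l : SF C) univ else 0 := by
        intro P hP
        have h5 := Finset.single_le_sum (f := fun x : W × W =>
          if f x.2 = f x.1 then (wt G T univ f * gl l : SF C) univ else 0)
          (fun x _ => by
            show (0 : ℝ) ≤ if f x.2 = f x.1 then (wt G T univ f * gl l : SF C) univ else 0
            split_ifs
            · exact hval f
            · exact le_rfl) hP
        refine le_trans (le_of_eq ?_) h5
        show _ = if f b = f a then _ else _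
        rw [if_pos hab.symm]
      rcases collide G hG hT h2 h3 hne hab with h5 | h5
      · have h6 := hmem P4 (by rw [hP4, Finset.mem_filter]; exact ⟨Finset.mem_univ _, h5⟩)
        have h7 := hn P6
        linarith
      · have h6 := hmem P6 (by rw [hP6, Finset.mem_filter]; exact ⟨Finset.mem_univ _, h5⟩)
        have h7 := hn P4
        linarith
  refine h1.trans ?_
  apply add_le_add
  · rw [← nsmul_eq_mul, ← Finset.sum_const]
    apply Finset.sum_le_sum
    intro x hx
    rw [hP4, Finset.mem_filter] at hx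
    have h2 := coll_four G hG hT v0 (l := l) hm hx.2 univ
    change (ZU G T v0 univ (fun f => Y0 l (f x.1) (f x.2)) : SF C) univ ≤
      ((3 / (m : ℝ) ^ 2) • (∑ x : V, sg (G.S x) * gl l) +
      ((Fintype.card C : ℝ) * 25) • ∑ x : V, sg (G.S x) * Ph l m (G.S x) : SF C) univ at h2
    rw [add_app, smul_app, smul_app] at h2
    exact h2
  · rw [← nsmul_eq_mul, ← Finset.sum_const]
    apply Finset.sum_le_sum
    intro x hx
    rw [hP6, Finset.mem_filter] at hx
    have h2 := coll_six G hG hT v0 (l := l) hm hx.2 univ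
    change (ZU G T v0 univ (fun f => Y0 l (f x.1) (f x.2)) : SF C) univ ≤
      ((15 / (m : ℝ) ^ 3) • (∑ x : V, sg (G.S x) * gl l) +
      ((Fintype.card C : ℝ) * 25) • ∑ x : V, sg (G.S x) * Ph l m (G.S x) : SF C) univ at h2
    rw [add_app, smul_app, smul_app] at h2
    exact h2

end

end Pool.Agent.K4H80.RT
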