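import Pool.Agent.K4H80.RT.Ends

set_option autoImplicit false

/-!
# The main inequality with few collisions allowed
-/

namespace Pool.Agent.K4H80.RT

open Finset Pool.Agent.K4H80.RP V11174.RES

section
variable {W V C : Type} [DecidableEq W] [Fintype W] [DecidableEq V] [Fintype V]
  [DecidableEq C] [Fintype C]
variable (G : Host V C) {T : SimpleGraph W} [DecidableRel T.Adj] {dst : V → V → ℕ}

/-- every rainbow homomorphism has a collision in `Q`, or a far collision, or at least `J`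
collisions at distance four -/
theorem main_ineq2 (hG : CubeLike G dst) (hT : T.IsTree) (v0 : V) (hW : 2 ≤ Fintype.card W)
    {l m J : ℕ} (hm : 4 ≤ m) (hJ : 1 ≤ J) (Q : Finset (W × W))
    (hQ : ∀ x ∈ Q, T.dist x.1 x.2 = 4)
    (hno : ∀ f : W → V, IsHom G T f → IsRb G T f → (∃ x ∈ Q, f x.2 = f x.1) ∨
      (∃ x : W × W, 6 ≤ T.dist x.1 x.2 ∧ f x.2 = f x.1) ∨
      J ≤ ((univ : Finset (W × W)).filter
        (fun x => T.dist x.1 x.2 = 4 ∧ f x.2 = f x.1)).card) :
    (∑ x : V, sg (G.S x) * gl l : SF C) univ -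
      (((Fintype.card W - 2 : ℕ) : ℝ) * (Fintype.card V : ℝ)) *
        ((Fintype.card C).factorial : ℝ) ≤
    ((Q.card : ℝ) +
      (((univ : Finset (W × W)).filter (fun x => T.dist x.1 x.2 = 4)).card : ℝ) / J) *
      (3 / (m : ℝ) ^ 2 * (∑ x : V, sg (G.S x) * gl l : SF C) univ +
        (Fintype.card C : ℝ) * 25 * (∑ x : V, sg (G.S x) * Ph l m (G.S x) : SF C) univ) +
    (((univ : Finset (W × W)).filter (fun x => 6 ≤ T.dist x.1 x.2)).card : ℝ) *
      (15 / (m : ℝ) ^ 3 * (∑ x : V, sg (G.S x) * gl l : SF C) univ +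
        (Fintype.card C : ℝ) * 25 * (∑ x : V, sg (G.S x) * Ph l m (G.S x) : SF C) univ) := by
  refine (mass_lower G hT v0 hW l).trans ?_
  set P4 := (univ : Finset (W × W)).filter (fun x => T.dist x.1 x.2 = 4) with hP4
  set P6 := (univ : Finset (W × W)).filter (fun x => 6 ≤ T.dist x.1 x.2) with hP6
  have hJ0 : (0 : ℝ) < J := by exact_mod_cast hJ
  have hval : ∀ f : W → V, (0 : ℝ) ≤ (wt G T univ f * gl l : SF C) univ := fun f =>
    sf_mul_nonneg (wt_nonneg G T univ f) (gl_SH l).1 univ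
  have hY : ∀ (f : W → V) (a b : W), (wt G T univ f * Y0 l (f a) (f b) : SF C) univ =
      if f b = f a then (wt G T univ f * gl l : SF C) univ else 0 := by
    intro f a b
    unfold Y0
    split_ifs
    · rfl
    · rw [mul_zero]; rfl
  have h1 : (ZU G T v0 univ (fun _ => gl l) : SF C) univ ≤
      (∑ x ∈ Q, (ZU G T v0 univ (fun f => Y0 l (f x.1) (f x.2)) : SF C) univ +
      (∑ x ∈ P4, (ZU G T v0 univ (fun f => Y0 l (f x.1) (f x.2)) : SF C) univ) / J) +
      ∑ x ∈ P6, (ZU G T v0 univ (fun f => Y0 l (f x.1) (f x.2)) : SF C) univ := by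
    unfold ZU
    simp only [sum_app]
    rw [Finset.sum_comm (s := Q), Finset.sum_comm (s := P4), Finset.sum_comm (s := P6),
      Finset.sum_div, ← Finset.sum_add_distrib, ← Finset.sum_add_distrib]
    apply Finset.sum_le_sum
    intro f _
    simp only [hY]
    have hn : ∀ P : Finset (W × W), (0 : ℝ) ≤
        ∑ x ∈ P, if f x.2 = f x.1 then (wt G T univ f * gl l : SF C) univ else 0 := by
      intro P
      apply Finset.sum_nonneg
      intro x _
      split_ifs
      · exact hval f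
      · exact le_rfl
    have h4d := div_nonneg (hn P4) hJ0.le
    by_cases hw : wt G T univ f = 0
    · have h0 : (wt G T univ f * gl l : SF C) univ = 0 := by rw [hw, zero_mul]; rfl
      have h5 := hn Q
      have h6 := hn P6
      linarith
    · obtain ⟨h2, h3⟩ := of_wt_ne G hw
      have hmem : ∀ P : Finset (W × W), ∀ y ∈ P, f y.2 = f y.1 →
          (wt G T univ f * gl l : SF C) univ ≤
          ∑ x ∈ P, if f x.2 = f x.1 then (wt G T univ f * gl l : SF C) univ else 0 := by
        intro P y hP hy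
        have h5 := Finset.single_le_sum (f := fun x : W × W =>
          if f x.2 = f x.1 then (wt G T univ f * gl l : SF C) univ else 0)
          (fun x _ => by
            show (0 : ℝ) ≤ if f x.2 = f x.1 then (wt G T univ f * gl l : SF C) univ else 0
            split_ifs
            · exact hval f
            · exact le_rfl) hP
        refine le_trans (le_of_eq ?_) h5
        show _ = if f y.2 = f y.1 then _ else _
        rw [if_pos hy]
      rcases hno f h2 h3 with ⟨x, hx, hfx⟩ | ⟨x, hx, hfx⟩ | h5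
      · have h6 := hmem Q x hx hfx
        have h7 := hn P6
        linarith
      · have h6 := hmem P6 x (by rw [hP6, Finset.mem_filter]; exact ⟨Finset.mem_univ _, hx⟩) hfx
        have h7 := hn Q
        linarith
      · have h6 : (J : ℝ) * (wt G T univ f * gl l : SF C) univ ≤
            ∑ x ∈ P4, if f x.2 = f x.1 then (wt G T univ f * gl l : SF C) univ else 0 := by
          rw [← Finset.sum_filter, Finset.sum_const, nsmul_eq_mul]
          apply mul_le_mul_of_nonneg_right _ (hval f)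
          have h8 : P4.filter (fun x => f x.2 = f x.1) = (univ : Finset (W × W)).filter
              (fun x => T.dist x.1 x.2 = 4 ∧ f x.2 = f x.1) := by
            rw [hP4, Finset.filter_filter]
          rw [h8]
          exact_mod_cast h5
        have h7 := hn Q
        have h8 := hn P6
        have h9 : (wt G T univ f * gl l : SF C) univ ≤
            (∑ x ∈ P4, if f x.2 = f x.1 then (wt G T univ f * gl l : SF C) univ else 0) / J := by
          rw [le_div_iff₀ hJ0]
          linarith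
        linarith
  refine h1.trans ?_
  have hc4 : ∀ x : W × W, T.dist x.1 x.2 = 4 →
      (ZU G T v0 univ (fun f => Y0 l (f x.1) (f x.2)) : SF C) univ ≤
      3 / (m : ℝ) ^ 2 * (∑ x : V, sg (G.S x) * gl l : SF C) univ +
        (Fintype.card C : ℝ) * 25 * (∑ x : V, sg (G.S x) * Ph l m (G.S x) : SF C) univ := by
    intro x hx
    have h2 := coll_four G hG hT v0 (l := l) hm hx univ
    change (ZU G T v0 univ (fun f => Y0 l (f x.1) (f x.2)) : SF C) univ ≤
      ((3 / (m : ℝ) ^ 2) • (∑ x : V, sg (G.S x) * gl l) +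
      ((Fintype.card C : ℝ) * 25) • ∑ x : V, sg (G.S x) * Ph l m (G.S x) : SF C) univ at h2
    rw [add_app, smul_app, smul_app] at h2
    exact h2
  apply add_le_add
  · rw [add_mul]
    apply add_le_add
    · rw [← nsmul_eq_mul, ← Finset.sum_const]
      apply Finset.sum_le_sum
      intro x hx
      exact hc4 x (hQ x hx)
    · rw [div_mul_eq_mul_div]
      apply div_le_div_of_nonneg_right _ hJ0.le
      rw [← nsmul_eq_mul, ← Finset.sum_const]
      apply Finset.sum_le_sum
      intro x hx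
      rw [hP4, Finset.mem_filter] at hx
      exact hc4 x hx.2
  · rw [← nsmul_eq_mul, ← Finset.sum_const]
    apply Finset.sum_le_sum
    intro x hx
    rw [hP6, Finset.mem_filter] at hx
    have h2 := coll_six G hG hT v0 (l := l) hm hx.2 univ
    change (ZU G T v0 univ (fun f => Y0 l (f x.1) (f x.2)) : SF C) univ ≤
      ((15 / (m : ℝ) ^ 3) • (∑ x : V, sg (G.S x) * gl l) +
      ((Fintype.card C : ℝ) * 25) • ∑ x : V, sg (G.S x) * Ph l m (G.S x) : SF C) univ at h2
    rw [add_app, smul_app, smul_app] at h2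
    exact h2

end

/-- rainbow homomorphisms into a coloured graph -/
def IsRH {V W : Type} (H : SimpleGraph V) (φ : Sym2 V → ℕ) (T : SimpleGraph W) (f : W → V) : Prop :=
  (∀ a b, T.Adj a b → H.Adj (f a) (f b)) ∧
    ∀ a b c d, T.Adj a b → T.Adj c d → φ s(f a, f b) = φ s(f c, f d) → s(a, b) = s(c, d)

/-- the main bound, with few collisions allowed -/
theorem upperT2 {n : ℕ} (H : SimpleGraph (Fin n → Bool)) [DecidableRel H.Adj] (hH : H ≤ cube n)
    (φ : Sym2 (Fin n → Bool) → ℕ) (hφ : IsProper H φ) {W : Type} [Fintype W] [DecidableEq W]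
    (T : SimpleGraph W) (hT : T.IsTree) (k t : ℕ) (hW : Fintype.card W = k + 1)
    (ht : 1400000 ≤ t) (hk : t ^ 4 ≤ k) (Q : Finset (W × W))
    (hQ : ∀ x ∈ Q, T.dist x.1 x.2 = 4) (hQc : 2 * Q.card * t ^ 3 ≤ k ^ 2)
    (hno : ∀ f : W → (Fin n → Bool), IsRH H φ T f → (∀ a b, a ≠ b → f a = f b →
        T.dist a b = 4 ∨ 6 ≤ T.dist a b) → (∃ x ∈ Q, f x.2 = f x.1) ∨
      (∃ x : W × W, 6 ≤ T.dist x.1 x.2 ∧ f x.2 = f x.1) ∨
      8 * t ^ 3 ≤ ((univ : Finset (W × W)).filter
        (fun x => T.dist x.1 x.2 = 4 ∧ f x.2 = f x.1)).card) :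
    t * (2 * H.edgeFinset.card) ≤ k * (t + 1400000) * 2 ^ n := by
  classical
  by_contra hcon
  push Not at hcon
  have hV : Fintype.card (Fin n → Bool) = 2 ^ n := by simp
  rw [← hV] at hcon
  obtain ⟨U, hU1, hU2⟩ := dense_core' H (k * (t + 1400000)) t (by
    convert hcon)
  have hUne : U.Nonempty := by
    rw [Finset.nonempty_iff_ne_empty]
    rintro rfl
    simp at hU1
  obtain ⟨u0, hu0⟩ := hUne
  have ht0 : 0 < t := by omega
  set G := host H φ U hφ with hGdef
  have hS : ∀ v : U, (G.S v).card = (U.filter (fun w => H.Adj v.1 w)).card :=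
    fun v => card_colS hφ v
  have hdeg : ∀ v : U, k < 2 * (G.S v).card := by
    intro v
    have h1 := hU2 v.1 v.2
    rw [← hS v] at h1
    have h2 : k * t ≤ k * (t + 1400000) := Nat.mul_le_mul_left _ (by omega)
    have h3 : t * k < t * (2 * (G.S v).card) := by
      calc t * k = k * t := mul_comm _ _
        _ ≤ _ := h2
        _ < _ := h1
        _ = _ := by ring
    exact lt_of_mul_lt_mul_left h3 (Nat.zero_le _)
  set D : Finset ℕ := (univ : Finset U).biUnion (fun v => G.S v) with hD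
  have hSD : ∀ v, G.S v ⊆ D := fun v =>
    Finset.subset_biUnion_of_mem (fun v => G.S v) (Finset.mem_univ v)
  set G' := restr G D with hG'def
  have hS' : ∀ v : U, (G'.S v).card = (G.S v).card := restr_card G hSD
  have hG' : CubeLike G' (fun v w => hammingDist v.1 w.1) := restr_cube G D (host_cube hH hφ)
  have hCc : Fintype.card D = D.card := Fintype.card_coe D
  have hq1 : k < 2 * D.card := by
    have h1 := hdeg ⟨u0, hu0⟩
    have h2 := Finset.card_le_card (hSD ⟨u0, hu0⟩)
    omega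
  have htk2 : 80 * t * 2 ≤ t ^ 4 := by
    have : t ^ 4 = t ^ 3 * t := by ring
    have h3 : 160 ≤ t ^ 3 := by
      calc 160 ≤ t := by omega
        _ = t ^ 1 := (pow_one t).symm
        _ ≤ t ^ 3 := Nat.pow_le_pow_right ht0 (by norm_num)
    nlinarith
  have hqt : t ≤ D.card := by omega
  -- the parameters
  obtain ⟨l, hl1, hl2⟩ : ∃ l, D.card ≤ t * l ∧ t * l ≤ D.card + t := by
    refine ⟨(D.card + t - 1) / t, ?_, ?_⟩
    · have h1 := Nat.div_add_mod (D.card + t - 1) t
      have h2 := Nat.mod_lt (D.card + t - 1) ht0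
      omega
    · have h1 := Nat.div_mul_le_self (D.card + t - 1) t
      rw [mul_comm] at h1
      omega
  have hlq : l + 1 ≤ D.card := by
    have h1 : t * l ≤ 2 * D.card := by omega
    have h2 : 4 * l ≤ t * l := Nat.mul_le_mul_right _ (by omega)
    omega
  obtain ⟨m, hm1, hm2⟩ : ∃ m, 8 * t * m ≤ k ∧ k < 8 * t * (m + 1) := by
    refine ⟨k / (8 * t), Nat.mul_div_le _ _, ?_⟩
    exact Nat.lt_mul_div_succ k (by omega)
  have hm10 : 10 ≤ m := by
    by_contra hc
    push Not at hc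
    have h1 : 8 * t * (m + 1) ≤ 8 * t * 10 := Nat.mul_le_mul_left _ (by omega)
    omega
  have hk1 : 1 ≤ k := by omega
  -- the collisions
  have hcopy : ∀ f : W → U, IsHom G' T f → IsRb G' T f → (∃ x ∈ Q, f x.2 = f x.1) ∨
      (∃ x : W × W, 6 ≤ T.dist x.1 x.2 ∧ f x.2 = f x.1) ∨
      8 * t ^ 3 ≤ ((univ : Finset (W × W)).filter
        (fun x => T.dist x.1 x.2 = 4 ∧ f x.2 = f x.1)).card := by
    intro f hf hr
    have hadj : ∀ a b, T.Adj a b → H.Adj (f a).1 (f b).1 ∧
        ∃ c : D, c ∈ G'.S (f a) ∧ G'.mv (f a) c = f b ∧ φ s((f a).1, (f b).1) = c.1 := by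
      intro a b hab
      obtain ⟨c, hc, h1⟩ := hf a b hab
      have hc' : c.1 ∈ colS H φ U (f a) := by
        have := hc
        simp only [hG'def, restr, Finset.mem_filter] at this
        exact this.2
      obtain ⟨h2, h3⟩ := colM_spec hc'
      have h4 : colM H φ U (f a) c.1 = f b := h1
      rw [h4] at h2 h3
      exact ⟨h2, c, hc, h1, h3⟩
    have hRH : IsRH H φ T (fun w => (f w).1) := by
      refine ⟨?_, ?_⟩
      · intro a b hab
        exact (hadj a b hab).1
      · intro a b a' b' hab hab' h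
        obtain ⟨_, c, h1, h2, h3⟩ := hadj a b hab
        obtain ⟨_, c', h1', h2', h3'⟩ := hadj a' b' hab'
        have h4 : c = c' := Subtype.ext (by
          have h5 : φ s((f a).1, (f b).1) = φ s((f a').1, (f b').1) := h
          rw [h3, h3'] at h5
          exact h5)
        subst h4
        exact hr a b a' b' c hab hab' h1 h2 h1' h2'
    have hcol : ∀ a b, a ≠ b → (f a).1 = (f b).1 → T.dist a b = 4 ∨ 6 ≤ T.dist a b := by
      intro a b hab h
      exact collide G' hG' hT hf hr hab (Subtype.ext h)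
    rcases hno (fun w => (f w).1) hRH hcol with ⟨x, hx, h1⟩ | ⟨x, hx, h1⟩ | h1
    · exact Or.inl ⟨x, hx, Subtype.ext h1⟩
    · exact Or.inr (Or.inl ⟨x, hx, Subtype.ext h1⟩)
    · right; right
      refine h1.trans (le_of_eq ?_)
      congr 1
      apply Finset.filter_congr
      intro x _
      constructor
      · rintro ⟨h2, h3⟩
        exact ⟨h2, Subtype.ext h3⟩
      · rintro ⟨h2, h3⟩
        exact ⟨h2, congrArg Subtype.val h3⟩
  have hmain := main_ineq2 G' hG' hT ⟨u0, hu0⟩ (by omega) (l := l) (m := m) (J := 8 * t ^ 3)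
    (by omega) (Nat.one_le_iff_ne_zero.2 (by positivity)) Q hQ hcopy
  -- evaluation
  have hfac : (0 : ℝ) < ((D.card - 1).factorial : ℝ) := by positivity
  have hE1 : (∑ x : U, sg (G'.S x) * gl l : SF D) univ =
      ((D.card - 1).factorial : ℝ) * ((∑ v : U, ((G.S v).card : ℝ)) * ((D.card - 1 - l : ℕ) : ℝ)) := by
    rw [sum_app]
    have h1 : ∀ x ∈ (univ : Finset U), (sg (G'.S x) * gl l : SF D) univ =
        ((G.S x).card : ℝ) * (((D.card - 1).factorial : ℝ) * ((D.card - 1 - l : ℕ) : ℝ)) := by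
      intro x _
      rw [sg_gl_univ, hS', hCc]
    rw [Finset.sum_congr rfl h1, ← Finset.sum_mul]
    ring
  have hsmall : ∀ v : U, Phi l m (D.card - 1) ((G.S v).card - 1) ≤ (1 / 2 : ℝ) ^ m := by
    intro v
    apply Phi_small (t := t) (by omega) (by omega)
    have := hdeg v
    have h3 : 2 * (4 * t * m) ≤ k := by
      calc 2 * (4 * t * m) = 8 * t * m := by ring
        _ ≤ k := hm1
    omega
  obtain ⟨B, hBdef⟩ : ∃ B : ℝ, B = ∑ v : U, ((G.S v).card : ℝ) *
      Phi l m (D.card - 1) ((G.S v).card - 1) := ⟨_, rfl⟩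
  have hP1 : (∑ x : U, sg (G'.S x) * Ph l m (G'.S x) : SF D) univ =
      ((D.card - 1).factorial : ℝ) * B := by
    rw [sum_app, hBdef, Finset.mul_sum]
    apply Finset.sum_congr rfl
    intro x _
    rw [sg_Ph_univ, hS', hCc]
    ring
  have hB0 : 0 ≤ B := by
    rw [hBdef]
    apply Finset.sum_nonneg
    intro v _
    have := Phi_nonneg l m (D.card - 1) ((G.S v).card - 1)
    positivity
  have hB1 : B ≤ (∑ v : U, ((G.S v).card : ℝ)) * (1 / 2 : ℝ) ^ m := by
    rw [hBdef, Finset.sum_mul]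
    apply Finset.sum_le_sum
    intro v _
    exact mul_le_mul_of_nonneg_left (hsmall v) (by positivity)
  have hfac2 : ((Fintype.card D).factorial : ℝ) = (D.card : ℝ) * ((D.card - 1).factorial : ℝ) := by
    rw [hCc]
    have := Nat.mul_factorial_pred (show D.card ≠ 0 by omega)
    exact_mod_cast this.symm
  rw [hE1, hP1, hfac2, hCc, Fintype.card_coe] at hmain
  set P4 := ((univ : Finset (W × W)).filter (fun x => T.dist x.1 x.2 = 4)) with hP4
  set P6 := ((univ : Finset (W × W)).filter (fun x => 6 ≤ T.dist x.1 x.2)) with hP6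
  have hk3 : 3 ≤ k := by omega
  have hall : ∀ P : Finset (W × W), P.card ≤ 2 * k ^ 2 := by
    intro P
    refine (Finset.card_le_univ _).trans ?_
    rw [Fintype.card_prod, hW]
    nlinarith
  have hcQ : (0 : ℝ) ≤ (Q.card : ℝ) := by positivity
  have ht3 : (1 : ℝ) ≤ (t : ℝ) ^ 3 := by
    apply one_le_pow₀
    have : 1 ≤ t := by omega
    exact_mod_cast this
  have hJt : (0 : ℝ) < ((8 * t ^ 3 : ℕ) : ℝ) := by
    push_cast
    positivity
  have hd4 : (P4.card : ℝ) / ((8 * t ^ 3 : ℕ) : ℝ) * (t : ℝ) ^ 3 ≤ (k : ℝ) ^ 2 / 4 := by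
    have h1 : (P4.card : ℝ) ≤ 2 * (k : ℝ) ^ 2 := by exact_mod_cast hall P4
    rw [div_mul_eq_mul_div, div_le_iff₀ hJt]
    push_cast
    have h2 : (P4.card : ℝ) * (t : ℝ) ^ 3 ≤ 2 * (k : ℝ) ^ 2 * (t : ℝ) ^ 3 :=
      mul_le_mul_of_nonneg_right h1 (by positivity)
    linarith
  have hd5 : (P4.card : ℝ) / ((8 * t ^ 3 : ℕ) : ℝ) ≤ (k : ℝ) ^ 2 / 4 := by
    have h0 : (0 : ℝ) ≤ (P4.card : ℝ) / ((8 * t ^ 3 : ℕ) : ℝ) := by positivity
    nlinarith
  have hsum : ∑ v : U, ((G.S v).card : ℝ) =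
      ((∑ u ∈ U, (U.filter (fun v => H.Adj u v)).card : ℕ) : ℝ) := by
    push_cast
    rw [← Finset.sum_coe_sort U]
    apply Finset.sum_congr rfl
    intro v _
    rw [hS v]
  set E : ℝ := ∑ v : U, ((G.S v).card : ℝ) with hEdef
  refine arithT (E := E) (N := (U.card : ℝ)) (k := (k : ℝ)) (t := (t : ℝ))
    (q := (D.card : ℝ)) (a := ((D.card - 1 - l : ℕ) : ℝ)) (l := (l : ℝ)) (m := (m : ℝ))
    (P4 := (Q.card : ℝ) + (P4.card : ℝ) / ((8 * t ^ 3 : ℕ) : ℝ))
    (P6 := (P6.card : ℝ)) (Z := (1 / 2 : ℝ) ^ m) (B := B)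
    ?_ ?_ ?_ ?_ ?_ ?_ ?_ ?_ ?_ ?_ ?_ ?_ ?_ ?_ ?_ ?_ ?_ ?_ ?_
  · exact_mod_cast Finset.card_pos.2 ⟨u0, hu0⟩
  · exact_mod_cast ht
  · exact_mod_cast hk
  · positivity
  · positivity
  · have h1 : 2 * (Q.card : ℝ) * (t : ℝ) ^ 3 ≤ (k : ℝ) ^ 2 := by exact_mod_cast hQc
    have h0 : (0 : ℝ) ≤ (k : ℝ) ^ 2 := by positivity
    rw [add_mul]
    linarith
  · have h1 : (P6.card : ℝ) ≤ 2 * (k : ℝ) ^ 2 := by exact_mod_cast hall P6
    have h2 : (Q.card : ℝ) ≤ (k : ℝ) ^ 2 / 2 := by
      have h3 : 2 * (Q.card : ℝ) * (t : ℝ) ^ 3 ≤ (k : ℝ) ^ 2 := by exact_mod_cast hQc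
      nlinarith
    have h0 : (0 : ℝ) ≤ (k : ℝ) ^ 2 := by positivity
    linarith
  · rw [hsum]
    exact_mod_cast hU1
  · have : 1 ≤ m := by omega
    exact_mod_cast this
  · have h3 : k ≤ 16 * t * m := by
      have h4 : 8 * t * (m + 1) ≤ 16 * t * m := by
        have : 8 * t * 1 ≤ 8 * t * m := Nat.mul_le_mul_left _ (by omega)
        have e1 : 8 * t * (m + 1) = 8 * t * m + 8 * t * 1 := by ring
        have e2 : 16 * t * m = 8 * t * m + 8 * t * m := by ring
        omega
      omega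
    exact_mod_cast h3
  · have : 0 < D.card := by omega
    exact_mod_cast this
  · exact_mod_cast hqt
  · have h1 : ((D.card - 1 - l : ℕ) : ℝ) = (D.card : ℝ) - 1 - l := by
      rw [Nat.cast_sub (by omega), Nat.cast_sub (by omega)]
      push_cast
      ring
    rw [h1]
    have h2 : (t : ℝ) * l ≤ D.card + t := by exact_mod_cast hl2
    have h3 : (t : ℝ) ≤ D.card := by exact_mod_cast hqt
    nlinarith
  · have : D.card - 1 - l ≤ D.card := by omega
    exact_mod_cast this
  · positivity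
  · have h3 := pow_ge_cube hm10
    have h4 : ((m : ℝ)) ^ 3 ≤ 2 ^ m := by exact_mod_cast h3
    have h5 : (0 : ℝ) < m := by
      have : 0 < m := by omega
      exact_mod_cast this
    rw [one_div_pow]
    exact one_div_le_one_div_of_le (by positivity) h4
  · exact hB0
  · exact hB1
  · have h1 : ((Fintype.card W - 2 : ℕ) : ℝ) = (k : ℝ) - 1 := by
      rw [hW, show k + 1 - 2 = k - 1 by omega, Nat.cast_sub hk1]
      push_cast
      ring
    rw [h1] at hmain
    have h2 : ((D.card - 1).factorial : ℝ) * (E * ((D.card - 1 - l : ℕ) : ℝ) -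
        ((k : ℝ) - 1) * (U.card : ℝ) * (D.card : ℝ)) ≤ ((D.card - 1).factorial : ℝ) *
        (((Q.card : ℝ) + (P4.card : ℝ) / ((8 * t ^ 3 : ℕ) : ℝ)) *
          (3 / (m : ℝ) ^ 2 * (E * ((D.card - 1 - l : ℕ) : ℝ)) +
          (D.card : ℝ) * 25 * B) +
        (P6.card : ℝ) * (15 / (m : ℝ) ^ 3 * (E * ((D.card - 1 - l : ℕ) : ℝ)) +
          (D.card : ℝ) * 25 * B)) := by
      refine le_trans (le_of_eq ?_) (hmain.trans (le_of_eq ?_))
      · ring
      · ring
    exact le_of_mul_le_mul_left h2 hfac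

end Pool.Agent.K4H80.RT
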