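import Mathlib

set_option autoImplicit false

/-!
# The ring of set functions with the subset convolution
-/

namespace Pool.Agent.K4H80.RT

open Finset

/-- functions on the finite subsets of `C`, with the subset convolution -/
def SF (C : Type) : Type := Finset C → ℝ

variable {C : Type} [DecidableEq C]

noncomputable instance : AddCommGroup (SF C) := inferInstanceAs (AddCommGroup (Finset C → ℝ))
noncomputable instance : Module ℝ (SF C) := inferInstanceAs (Module ℝ (Finset C → ℝ))
instance : PartialOrder (SF C) := inferInstanceAs (PartialOrder (Finset C → ℝ))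
instance : IsOrderedAddMonoid (SF C) :=
  inferInstanceAs (IsOrderedAddMonoid (Finset C → ℝ))

@[ext] theorem SF.ext {f g : SF C} (h : ∀ D : Finset C, f D = g D) : f = g := funext h

theorem le_def {f g : SF C} : f ≤ g ↔ ∀ D : Finset C, f D ≤ g D := Iff.rfl

@[simp] theorem add_app (f g : SF C) (D : Finset C) : (f + g) D = f D + g D := rfl
@[simp] theorem sub_app (f g : SF C) (D : Finset C) : (f - g) D = f D - g D := rfl
@[simp] theorem neg_app (f : SF C) (D : Finset C) : (-f) D = - f D := rfl
@[simp] theorem zero_app (D : Finset C) : (0 : SF C) D = 0 := rfl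
@[simp] theorem smul_app (a : ℝ) (f : SF C) (D : Finset C) : (a • f) D = a * f D := rfl

noncomputable instance : Mul (SF C) :=
  ⟨fun f g => fun D => ∑ M ∈ D.powerset, f M * g (D \ M)⟩

noncomputable instance : One (SF C) := ⟨fun D => if D = ∅ then 1 else 0⟩

theorem mul_app (f g : SF C) (D : Finset C) :
    (f * g) D = ∑ M ∈ D.powerset, f M * g (D \ M) := rfl

theorem one_app (D : Finset C) : (1 : SF C) D = if D = ∅ then 1 else 0 := rfl

theorem sf_mul_comm (f g : SF C) : f * g = g * f := by
  ext D
  rw [mul_app, mul_app]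
  apply Finset.sum_nbij' (fun M => D \ M) (fun M => D \ M)
  · intro M _
    rw [Finset.mem_powerset]
    exact Finset.sdiff_subset
  · intro M _
    rw [Finset.mem_powerset]
    exact Finset.sdiff_subset
  · intro M hM
    rw [Finset.mem_powerset] at hM
    exact Finset.sdiff_sdiff_eq_self hM
  · intro M hM
    rw [Finset.mem_powerset] at hM
    exact Finset.sdiff_sdiff_eq_self hM
  · intro M hM
    rw [Finset.mem_powerset] at hM
    rw [Finset.sdiff_sdiff_eq_self hM, mul_comm]

theorem sf_one_mul (f : SF C) : 1 * f = f := by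
  ext D
  rw [mul_app, Finset.sum_eq_single ∅]
  · rw [one_app, if_pos rfl, Finset.sdiff_empty, one_mul]
  · intro M _ hM
    rw [one_app, if_neg hM, zero_mul]
  · intro h
    exact absurd (Finset.empty_mem_powerset D) h

theorem sf_add_mul (f g h : SF C) : (f + g) * h = f * h + g * h := by
  ext D
  simp only [mul_app, add_app, add_mul, Finset.sum_add_distrib]

theorem sf_zero_mul (f : SF C) : 0 * f = 0 := by
  ext D
  simp [mul_app]

theorem sf_mul_assoc (f g h : SF C) : f * g * h = f * (g * h) := by
  ext D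
  simp only [mul_app, Finset.sum_mul, Finset.mul_sum]
  rw [Finset.sum_sigma', Finset.sum_sigma']
  apply Finset.sum_nbij' (fun x => ⟨x.2, x.1 \ x.2⟩) (fun x => ⟨x.1 ∪ x.2, x.1⟩)
  · rintro ⟨M, K⟩ h1
    simp only [mem_sigma, mem_powerset] at h1 ⊢
    refine ⟨h1.2.trans h1.1, ?_⟩
    exact Finset.sdiff_subset_sdiff h1.1 le_rfl
  · rintro ⟨K, L⟩ h1
    simp only [mem_sigma, mem_powerset] at h1 ⊢
    refine ⟨Finset.union_subset h1.1 (h1.2.trans Finset.sdiff_subset), Finset.subset_union_left⟩
  · rintro ⟨M, K⟩ h1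
    simp only [mem_sigma, mem_powerset] at h1
    simp only [Finset.union_sdiff_of_subset h1.2]
  · rintro ⟨K, L⟩ h1
    simp only [mem_sigma, mem_powerset] at h1
    have h2 : (K ∪ L) \ K = L := by
      ext c
      simp only [mem_sdiff, mem_union]
      constructor
      · rintro ⟨h3 | h3, h4⟩
        · exact absurd h3 h4
        · exact h3
      · intro h3
        exact ⟨Or.inr h3, (Finset.mem_sdiff.1 (h1.2 h3)).2⟩
    simp only [h2]
  · rintro ⟨M, K⟩ h1
    simp only [mem_sigma, mem_powerset] at h1
    have h2 : (D \ K) \ (M \ K) = D \ M := by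
      ext c
      simp only [mem_sdiff]
      constructor
      · rintro ⟨⟨h3, h4⟩, h5⟩
        exact ⟨h3, fun h6 => h5 ⟨h6, h4⟩⟩
      · rintro ⟨h3, h4⟩
        exact ⟨⟨h3, fun h6 => h4 (h1.2 h6)⟩, fun h6 => h4 h6.1⟩
    simp only [h2, mul_assoc]

noncomputable instance : CommRing (SF C) :=
  { (inferInstance : AddCommGroup (SF C)) with
    mul := (· * ·)
    one := 1
    mul_assoc := sf_mul_assoc
    mul_comm := sf_mul_comm
    one_mul := sf_one_mul
    mul_one := fun f => by rw [sf_mul_comm, sf_one_mul]
    left_distrib := fun f g h => by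
      rw [sf_mul_comm, sf_add_mul, sf_mul_comm g, sf_mul_comm h]
    right_distrib := sf_add_mul
    zero_mul := sf_zero_mul
    mul_zero := fun f => by rw [sf_mul_comm, sf_zero_mul] }

theorem smul_mul' (a : ℝ) (f g : SF C) : (a • f) * g = a • (f * g) := by
  ext D
  simp only [mul_app, smul_app, Finset.mul_sum, mul_assoc]

noncomputable instance : Algebra ℝ (SF C) :=
  Algebra.ofModule smul_mul' (fun a f g => by rw [mul_comm, smul_mul', mul_comm])

theorem sf_mul_nonneg {f g : SF C} (hf : 0 ≤ f) (hg : 0 ≤ g) : 0 ≤ f * g := by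
  intro D
  rw [mul_app]
  apply Finset.sum_nonneg
  intro M _
  exact mul_nonneg (hf M) (hg _)

instance : ZeroLEOneClass (SF C) := ⟨fun D => by
  show (0 : ℝ) ≤ (1 : SF C) D
  rw [one_app]
  split_ifs <;> norm_num⟩

instance : IsOrderedRing (SF C) := IsOrderedRing.of_mul_nonneg (fun _ _ h1 h2 => sf_mul_nonneg h1 h2)

theorem smul_le {a : ℝ} (ha : 0 ≤ a) {f g : SF C} (h : f ≤ g) : a • f ≤ a • g := by
  intro D
  exact mul_le_mul_of_nonneg_left (h D) ha

theorem sum_app {ι : Type} (s : Finset ι) (f : ι → SF C) (D : Finset C) :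
    (∑ i ∈ s, f i) D = ∑ i ∈ s, f i D := by
  classical
  induction s using Finset.induction_on with
  | empty => simp
  | insert i s hi ih => rw [Finset.sum_insert hi, Finset.sum_insert hi, add_app, ih]

end Pool.Agent.K4H80.RT
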