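import Pool.Agent.K4H80.RT.Words

set_option autoImplicit false

/-!
# Addresses, spare branches, and moving branches
-/

namespace Pool.Agent.K4H80.RT

open Finset

/-! ### addresses -/

section Addr
variable {W : Type}

/-- the address with given length -/
def adN (idx : W → ℕ) (par : W → W) : ℕ → W → List ℕ
  | 0, _ => []
  | (n + 1), z => idx z :: adN idx par n (par z)

theorem adN_length (idx : W → ℕ) (par : W → W) : ∀ (n : ℕ) (z : W),
    (adN idx par n z).length = n := by
  intro n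
  induction n with
  | zero => intro z; rfl
  | succ n ih => intro z; simp [adN, ih]

theorem exists_words [Fintype W] [DecidableEq W] (T : SimpleGraph W) (hT : T.IsTree) (r : W) :
    ∃ ad : W → List ℕ, Function.Injective ad ∧ TC (univ.image ad) ∧ CN (univ.image ad) ∧
      [] ∈ univ.image ad ∧ ∀ a b, T.Adj a b →
        (∃ i, ad b = i :: ad a) ∨ (∃ i, ad a = i :: ad b) := by
  classical
  have hp : ∀ z, r ≠ z → ∃ y, T.Adj z y ∧ T.dist r y + 1 = T.dist r z :=
    fun z h => closer_exists hT h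
  have : Nonempty W := ⟨r⟩
  choose! par hpar1 hpar2 using hp
  let ch : W → Finset W := fun y => univ.filter (fun z => r ≠ z ∧ par z = y)
  have hch : ∀ y z, z ∈ ch y ↔ r ≠ z ∧ par z = y := by
    intro y z
    simp [ch]
  have hg : ∀ y, ∃ g : W → ℕ, (∀ z ∈ ch y, g z < (ch y).card) ∧
      (∀ z ∈ ch y, ∀ z' ∈ ch y, g z = g z' → z = z') ∧
      (∀ j < (ch y).card, ∃ z ∈ ch y, g z = j) := by
    intro y
    let e := (ch y).equivFin
    refine ⟨fun z => if h : z ∈ ch y then (e ⟨z, h⟩).val else 0, ?_, ?_, ?_⟩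
    · intro z hz
      simp only [dif_pos hz]
      exact (e ⟨z, hz⟩).isLt
    · intro z hz z' hz' h
      simp only [dif_pos hz, dif_pos hz'] at h
      have h1 := e.injective (Fin.ext h)
      exact congrArg Subtype.val h1
    · intro j hj
      refine ⟨(e.symm ⟨j, hj⟩).1, (e.symm ⟨j, hj⟩).2, ?_⟩
      simp only [Subtype.coe_eta, Equiv.apply_symm_apply, dif_pos (e.symm ⟨j, hj⟩).2]
  choose g hg1 hg2 hg3 using hg
  let idx : W → ℕ := fun z => g (par z) z
  let ad : W → List ℕ := fun z => adN idx par (T.dist r z) z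
  have had0 : ad r = [] := by
    show adN idx par (T.dist r r) r = []
    rw [SimpleGraph.dist_self]
    rfl
  have had : ∀ z, r ≠ z → ad z = idx z :: ad (par z) := by
    intro z hz
    show adN idx par (T.dist r z) z = idx z :: adN idx par (T.dist r (par z)) (par z)
    rw [← hpar2 z hz]
    rfl
  have hlen : ∀ z, (ad z).length = T.dist r z := fun z => adN_length _ _ _ _
  have hinj : ∀ n, ∀ z z', T.dist r z = n → ad z = ad z' → z = z' := by
    intro n
    induction n with
    | zero =>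
      intro z z' hz h
      have h1 := congrArg List.length h
      rw [hlen, hlen, hz] at h1
      have h2 : r = z := by
        by_contra hne
        have := hT.connected.pos_dist_of_ne hne
        omega
      have h3 : r = z' := by
        by_contra hne
        have := hT.connected.pos_dist_of_ne hne
        omega
      rw [← h2, ← h3]
    | succ n ih =>
      intro z z' hz h
      have h1 := congrArg List.length h
      rw [hlen, hlen, hz] at h1
      have h2 : r ≠ z := by
        rintro rfl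
        rw [SimpleGraph.dist_self] at hz
        omega
      have h3 : r ≠ z' := by
        rintro rfl
        rw [SimpleGraph.dist_self] at h1
        omega
      rw [had z h2, had z' h3] at h
      obtain ⟨h4, h5⟩ := List.cons.inj h
      have h6 : par z = par z' := by
        apply ih _ _ _ h5
        have := hpar2 z h2
        omega
      have h7 : g (par z) z = g (par z) z' := by
        have h8 : g (par z) z = g (par z') z' := h4
        rw [← h6] at h8
        exact h8
      exact hg2 (par z) z ((hch _ _).2 ⟨h2, rfl⟩) z' ((hch _ _).2 ⟨h3, h6.symm⟩) h7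
  refine ⟨ad, fun z z' h => hinj _ z z' rfl h, ?_, ?_, ?_, ?_⟩
  · intro i w hw
    rw [Finset.mem_image] at hw ⊢
    obtain ⟨z, _, hz⟩ := hw
    have hrz : r ≠ z := by
      rintro rfl
      rw [had0] at hz
      cases hz
    rw [had z hrz] at hz
    exact ⟨par z, Finset.mem_univ _, (List.cons.inj hz).2⟩
  · intro i j w hw hj
    rw [Finset.mem_image] at hw ⊢
    obtain ⟨z, _, hz⟩ := hw
    have hrz : r ≠ z := by
      rintro rfl
      rw [had0] at hz
      cases hz
    rw [had z hrz] at hz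
    obtain ⟨h1, h2⟩ := List.cons.inj hz
    have h3 : idx z < (ch (par z)).card := hg1 (par z) z ((hch _ _).2 ⟨hrz, rfl⟩)
    obtain ⟨z', hz', h4⟩ := hg3 (par z) j (by omega)
    rw [hch] at hz'
    refine ⟨z', Finset.mem_univ _, ?_⟩
    rw [had z' hz'.1, hz'.2, h2]
    congr 1
    show g (par z') z' = j
    rw [hz'.2]
    exact h4
  · rw [Finset.mem_image]
    exact ⟨r, Finset.mem_univ _, had0⟩
  · intro a b hab
    rcases hT.dist_eq_dist_add_one_of_adj r hab with h | h
    · right
      have hra : r ≠ a := by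
        rintro rfl
        rw [SimpleGraph.dist_self] at h
        omega
      have h1 : b = par a := closer_unique hT hab h.symm (hpar1 a hra) (hpar2 a hra)
      exact ⟨idx a, by rw [had a hra, h1]⟩
    · left
      have hrb : r ≠ b := by
        rintro rfl
        rw [SimpleGraph.dist_self] at h
        omega
      have h1 : a = par b := closer_unique hT hab.symm h.symm (hpar1 b hrb) (hpar2 b hrb)
      exact ⟨idx b, by rw [had b hrb, h1]⟩

end Addr

/-! ### spare branches -/

/-- spare branches at the hubs -/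
noncomputable def spr (A : Finset (List ℕ)) (s K J M κ : ℕ) : Finset (List ℕ) :=
  (hub A s K ×ˢ (range J ×ˢ Ups s s)).image (fun x => x.2.2 ++ ((M + 2 * x.2.1 + κ) :: x.1))

theorem mem_spr (A : Finset (List ℕ)) (s K J M κ : ℕ) (w : List ℕ) :
    w ∈ spr A s K J M κ ↔ ∃ y ∈ hub A s K, ∃ j < J, ∃ u ∈ Ups s s,
      w = u ++ ((M + 2 * j + κ) :: y) := by
  unfold spr
  rw [Finset.mem_image]
  constructor
  · rintro ⟨⟨y, j, u⟩, h, rfl⟩
    rw [Finset.mem_product, Finset.mem_product, Finset.mem_range] at h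
    exact ⟨y, h.1, j, h.2.1, u, h.2.2, rfl⟩
  · rintro ⟨y, hy, j, hj, u, hu, rfl⟩
    refine ⟨(y, j, u), ?_, rfl⟩
    rw [Finset.mem_product, Finset.mem_product, Finset.mem_range]
    exact ⟨hy, hj, hu⟩

theorem card_spr (A : Finset (List ℕ)) (s K J M κ : ℕ) :
    (spr A s K J M κ).card ≤ (hub A s K).card * (J * (Ups s s).card) := by
  unfold spr
  refine Finset.card_image_le.trans ?_
  rw [Finset.card_product, Finset.card_product, Finset.card_range]

/-- the roots of the spare branches -/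
def SR (A : Finset (List ℕ)) (s K J M κ : ℕ) (d : List ℕ) : Prop :=
  ∃ y ∈ hub A s K, ∃ j < J, d = (M + 2 * j + κ) :: y

theorem spr_SR {A : Finset (List ℕ)} {s K J M κ : ℕ} {w : List ℕ} (h : w ∈ spr A s K J M κ) :
    ∃ d, SR A s K J M κ d ∧ d <:+ w := by
  rw [mem_spr] at h
  obtain ⟨y, hy, j, hj, u, _, rfl⟩ := h
  exact ⟨(M + 2 * j + κ) :: y, ⟨y, hy, j, hj, rfl⟩, List.suffix_append _ _⟩

section Big
variable (A : Finset (List ℕ)) (s0 K0 s1 K1 J M : ℕ)

/-- the tree with the spare branches -/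
noncomputable def BT : Finset (List ℕ) := A ∪ (spr A s0 K0 J M 0 ∪ spr A s1 K1 J M 1)

theorem mem_BT (w : List ℕ) : w ∈ BT A s0 K0 s1 K1 J M ↔
    w ∈ A ∨ w ∈ spr A s0 K0 J M 0 ∨ w ∈ spr A s1 K1 J M 1 := by
  unfold BT
  rw [Finset.mem_union, Finset.mem_union]

theorem spr_tail {A : Finset (List ℕ)} {s K J M κ i : ℕ} {w : List ℕ}
    (h : (i :: w) ∈ spr A s K J M κ) : w ∈ A ∨ w ∈ spr A s K J M κ := by
  rw [mem_spr] at h
  obtain ⟨y, hy, j, hj, u, hu, hw⟩ := h
  cases u with
  | nil =>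
    left
    rw [List.nil_append] at hw
    rw [(List.cons.inj hw).2]
    exact ((mem_hub A s K y).1 hy).1
  | cons a u =>
    right
    rw [List.cons_append] at hw
    rw [mem_spr]
    refine ⟨y, hy, j, hj, u, ?_, (List.cons.inj hw).2⟩
    rw [mem_Ups] at hu ⊢
    refine ⟨?_, fun i hi => hu.2 i (List.mem_cons_of_mem _ hi)⟩
    have := hu.1
    rw [List.length_cons] at this
    omega

theorem BT_TC (hA : TC A) : TC (BT A s0 K0 s1 K1 J M) := by
  intro i w hw
  rw [mem_BT] at hw ⊢
  rcases hw with h | h | h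
  · exact Or.inl (hA i w h)
  · rcases spr_tail h with h | h
    · exact Or.inl h
    · exact Or.inr (Or.inl h)
  · rcases spr_tail h with h | h
    · exact Or.inl h
    · exact Or.inr (Or.inr h)

theorem BT_card {t : ℕ} (h0 : 2 * t * (J * (Ups s0 s0).card) ≤ K0)
    (h1 : 2 * t * (J * (Ups s1 s1).card) ≤ K1) :
    t * (BT A s0 K0 s1 K1 J M).card ≤ t * A.card + A.card := by
  have e0 : ∀ s K κ, 2 * t * (J * (Ups s s).card) ≤ K →
      2 * t * (spr A s K J M κ).card ≤ A.card := by
    intro s K κ h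
    calc 2 * t * (spr A s K J M κ).card ≤
        2 * t * ((hub A s K).card * (J * (Ups s s).card)) :=
          Nat.mul_le_mul_left _ (card_spr A s K J M κ)
      _ = (hub A s K).card * (2 * t * (J * (Ups s s).card)) := by ring
      _ ≤ (hub A s K).card * K := Nat.mul_le_mul_left _ h
      _ ≤ A.card := hub_count A s K
  have e1 := e0 s0 K0 0 h0
  have e2 := e0 s1 K1 1 h1
  have e3 : (BT A s0 K0 s1 K1 J M).card ≤
      A.card + ((spr A s0 K0 J M 0).card + (spr A s1 K1 J M 1).card) := by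
    unfold BT
    refine (Finset.card_union_le _ _).trans ?_
    have := Finset.card_union_le (spr A s0 K0 J M 0) (spr A s1 K1 J M 1)
    omega
  have e4 := Nat.mul_le_mul_left t e3
  have e5 : t * (A.card + ((spr A s0 K0 J M 0).card + (spr A s1 K1 J M 1).card)) =
      t * A.card + (t * (spr A s0 K0 J M 0).card + t * (spr A s1 K1 J M 1).card) := by ring
  have e6 : 2 * t * (spr A s0 K0 J M 0).card = 2 * (t * (spr A s0 K0 J M 0).card) := by ring
  have e7 : 2 * t * (spr A s1 K1 J M 1).card = 2 * (t * (spr A s1 K1 J M 1).card) := by ring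
  omega

/-- the roots of the branches that can be moved or dropped -/
def Dl (d : List ℕ) : Prop :=
  Good A s0 K0 d ∨ Good A s1 K1 d ∨ SR A s0 K0 J M 0 d ∨ SR A s1 K1 J M 1 d

/-- collisions that can be repaired -/
def Fx (a b : List ℕ) : Prop := ∃ d, Dl A s0 K0 s1 K1 J M d ∧ (d <:+ a ∨ d <:+ b)

theorem mem_A_of_not_Fx {a b : List ℕ} (ha : a ∈ BT A s0 K0 s1 K1 J M)
    (h : ¬ Fx A s0 K0 s1 K1 J M a b) : a ∈ A := by
  rw [mem_BT] at ha
  rcases ha with h1 | h1 | h1
  · exact h1
  · exfalso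
    obtain ⟨d, hd, h2⟩ := spr_SR h1
    exact h ⟨d, Or.inr (Or.inr (Or.inl hd)), Or.inl h2⟩
  · exfalso
    obtain ⟨d, hd, h2⟩ := spr_SR h1
    exact h ⟨d, Or.inr (Or.inr (Or.inr hd)), Or.inl h2⟩

theorem mem_A_of_not_Fx' {a b : List ℕ} (hb : b ∈ BT A s0 K0 s1 K1 J M)
    (h : ¬ Fx A s0 K0 s1 K1 J M a b) : b ∈ A := by
  rw [mem_BT] at hb
  rcases hb with h1 | h1 | h1
  · exact h1
  · exfalso
    obtain ⟨d, hd, h2⟩ := spr_SR h1
    exact h ⟨d, Or.inr (Or.inr (Or.inl hd)), Or.inr h2⟩
  · exfalso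
    obtain ⟨d, hd, h2⟩ := spr_SR h1
    exact h ⟨d, Or.inr (Or.inr (Or.inr hd)), Or.inr h2⟩

open Classical in
/-- the collisions at distance four that cannot be repaired -/
noncomputable def unf : Finset (BT A s0 K0 s1 K1 J M × BT A s0 K0 s1 K1 J M) :=
  univ.filter (fun x => (TG (BT A s0 K0 s1 K1 J M)).dist x.1 x.2 = 4 ∧
    ¬ Fx A s0 K0 s1 K1 J M x.1.1 x.2.1)

theorem mem_unf (x : BT A s0 K0 s1 K1 J M × BT A s0 K0 s1 K1 J M) :
    x ∈ unf A s0 K0 s1 K1 J M ↔ (TG (BT A s0 K0 s1 K1 J M)).dist x.1 x.2 = 4 ∧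
    ¬ Fx A s0 K0 s1 K1 J M x.1.1 x.2.1 := by
  unfold unf
  simp

theorem unf_card (hA : TC A) (h0 : [] ∈ A) (hs0 : 1 ≤ s0) (hs1 : 1 ≤ s1) :
    (unf A s0 K0 s1 K1 J M).card ≤
      A.card * (1 + (A.card / s0 + K0)) +
      A.card * (1 + ((A.card / s0 + K0) + (A.card / s0 + (A.card / s1 + K1) * K0))) := by
  classical
  have hBT := BT_TC A s0 K0 s1 K1 J M hA
  have hB0 : [] ∈ BT A s0 K0 s1 K1 J M := (mem_BT _ _ _ _ _ _ _ _).2 (Or.inl h0)
  let R1 : List ℕ → Finset (List ℕ) := fun a =>
    insert a.tail.tail.tail.tail (ngc A s0 K0 a.tail.tail.tail)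
  let R2 : List ℕ → Finset (List ℕ) := fun b =>
    insert b.tail.tail.tail.tail (ngc A s0 K0 b.tail.tail.tail ∪ ngg A s0 K0 s1 K1 b.tail.tail)
  have hR1 : ∀ a, (R1 a).card ≤ 1 + (A.card / s0 + K0) := by
    intro a
    refine (Finset.card_insert_le _ _).trans ?_
    have := ngc_count (K := K0) hA hs0 a.tail.tail.tail
    omega
  have hR2 : ∀ b, (R2 b).card ≤
      1 + ((A.card / s0 + K0) + (A.card / s0 + (A.card / s1 + K1) * K0)) := by
    intro b
    refine (Finset.card_insert_le _ _).trans ?_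
    have e1 := ngc_count (K := K0) hA hs0 b.tail.tail.tail
    have e2 := ngg_count (K0 := K0) (K1 := K1) hA hs0 hs1 b.tail.tail
    have e3 := Finset.card_union_le (ngc A s0 K0 b.tail.tail.tail)
      (ngg A s0 K0 s1 K1 b.tail.tail)
    omega
  let F1 : Finset (List ℕ × List ℕ) := A.biUnion (fun a => (R1 a).image (fun b => (a, b)))
  let F2 : Finset (List ℕ × List ℕ) := A.biUnion (fun b => (R2 b).image (fun a => (a, b)))
  have hF1 : F1.card ≤ A.card * (1 + (A.card / s0 + K0)) :=
    Finset.card_biUnion_le_card_mul _ _ _ (fun a _ => Finset.card_image_le.trans (hR1 a))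
  have hF2 : F2.card ≤ A.card *
      (1 + ((A.card / s0 + K0) + (A.card / s0 + (A.card / s1 + K1) * K0))) :=
    Finset.card_biUnion_le_card_mul _ _ _ (fun a _ => Finset.card_image_le.trans (hR2 a))
  have hmap : (unf A s0 K0 s1 K1 J M).card ≤ (F1 ∪ F2).card := by
    apply Finset.card_le_card_of_injOn
      (fun x : BT A s0 K0 s1 K1 J M × BT A s0 K0 s1 K1 J M => (x.1.1, x.2.1))
    · rintro ⟨a, b⟩ hx
      rw [Finset.mem_coe, mem_unf] at hx
      obtain ⟨hd, hfx⟩ := hx
      have haA := mem_A_of_not_Fx A s0 K0 s1 K1 J M a.2 hfx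
      have hbA := mem_A_of_not_Fx' A s0 K0 s1 K1 J M b.2 hfx
      have hgood : ∀ d, d <:+ a.1 ∨ d <:+ b.1 → ¬ Good A s0 K0 d ∧ ¬ Good A s1 K1 d := by
        intro d hd
        exact ⟨fun h => hfx ⟨d, Or.inl h, hd⟩, fun h => hfx ⟨d, Or.inr (Or.inl h), hd⟩⟩
      rw [Finset.mem_coe, Finset.mem_union]
      show (a.1, b.1) ∈ F1 ∨ (a.1, b.1) ∈ F2
      rcases dist_four hBT hB0 hd with ⟨i, j, k, l, h⟩ | ⟨i, j, k, l, h⟩ | ⟨z, i, j, k, l, h, h'⟩ |
        ⟨z, i, j, k, l, h, h'⟩ | ⟨z, i, j, k, l, h, h'⟩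
      · left
        rw [Finset.mem_biUnion]
        refine ⟨a.1, haA, ?_⟩
        rw [Finset.mem_image]
        refine ⟨b.1, ?_, rfl⟩
        apply Finset.mem_insert.2
        left
        rw [h]
        rfl
      · right
        rw [Finset.mem_biUnion]
        refine ⟨b.1, hbA, ?_⟩
        rw [Finset.mem_image]
        refine ⟨a.1, ?_, rfl⟩
        apply Finset.mem_insert.2
        left
        rw [h]
        rfl
      · left
        rw [Finset.mem_biUnion]
        refine ⟨a.1, haA, ?_⟩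
        rw [Finset.mem_image]
        refine ⟨b.1, ?_, rfl⟩
        apply Finset.mem_insert.2
        right
        rw [mem_ngc]
        refine ⟨hbA, ⟨l, ?_⟩, (hgood b.1 (Or.inr (List.suffix_refl _))).1⟩
        rw [h, h']
        rfl
      · right
        rw [Finset.mem_biUnion]
        refine ⟨b.1, hbA, ?_⟩
        rw [Finset.mem_image]
        refine ⟨a.1, ?_, rfl⟩
        apply Finset.mem_insert.2
        right
        rw [Finset.mem_union]
        left
        rw [mem_ngc]
        refine ⟨haA, ⟨l, ?_⟩, (hgood a.1 (Or.inl (List.suffix_refl _))).1⟩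
        rw [h, h']
        rfl
      · right
        rw [Finset.mem_biUnion]
        refine ⟨b.1, hbA, ?_⟩
        rw [Finset.mem_image]
        refine ⟨a.1, ?_, rfl⟩
        apply Finset.mem_insert.2
        right
        rw [Finset.mem_union]
        right
        rw [mem_ngg]
        refine ⟨haA, ⟨i, j, ?_⟩, (hgood a.1 (Or.inl (List.suffix_refl _))).1,
          (hgood a.1.tail (Or.inl (List.tail_suffix _))).2⟩
        rw [h, h']
        rfl
    · rintro ⟨a, b⟩ _ ⟨a', b'⟩ _ h
      have h1 : a.1 = a'.1 ∧ b.1 = b'.1 := Prod.mk.inj h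
      rw [Subtype.ext h1.1, Subtype.ext h1.2]
  have := Finset.card_union_le F1 F2
  omega

end Big

/-! ### moving branches -/

section Move

open Classical in
/-- move the branches with roots in `Dg` -/
noncomputable def gm (Dg : Finset (List ℕ)) (sp : List ℕ → List ℕ) : List ℕ → List ℕ
  | [] => []
  | (i :: w) => if (∀ d ∈ Dg, ¬ d <:+ w) ∧ (i :: w) ∈ Dg then sp (i :: w) else i :: gm Dg sp w

variable {Dg : Finset (List ℕ)} {sp : List ℕ → List ℕ}

theorem gm_id : ∀ {w : List ℕ}, (∀ d ∈ Dg, ¬ d <:+ w) → gm Dg sp w = w := by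
  intro w
  induction w with
  | nil => intro _; rfl
  | cons i w ih =>
    intro h
    have h1 : ∀ d ∈ Dg, ¬ d <:+ w := fun d hd h2 => h d hd (h2.trans (List.suffix_cons i w))
    have h2 : (i :: w) ∉ Dg := fun h3 => h _ h3 (List.suffix_refl _)
    show (if (∀ d ∈ Dg, ¬ d <:+ w) ∧ (i :: w) ∈ Dg then sp (i :: w) else i :: gm Dg sp w) = _
    rw [if_neg (fun h3 => h2 h3.2), ih h1]

theorem gm_br (hnil : [] ∉ Dg) : ∀ {w : List ℕ}, (∃ d ∈ Dg, d <:+ w) →
    ∃ d ∈ Dg, ∃ u, w = u ++ d ∧ gm Dg sp w = u ++ sp d ∧ ∀ d' ∈ Dg, ¬ d' <:+ d.tail := by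
  intro w
  induction w with
  | nil =>
    rintro ⟨d, hd, h⟩
    rw [List.suffix_nil] at h
    subst h
    exact absurd hd hnil
  | cons i w ih =>
    rintro ⟨d, hd, h⟩
    have hdef : gm Dg sp (i :: w) =
        (if (∀ d ∈ Dg, ¬ d <:+ w) ∧ (i :: w) ∈ Dg then sp (i :: w) else i :: gm Dg sp w) := by
      rfl
    by_cases h1 : ∃ d ∈ Dg, d <:+ w
    · obtain ⟨d', hd', u, h2, h3, h4⟩ := ih h1
      refine ⟨d', hd', i :: u, by rw [h2]; rfl, ?_, h4⟩
      rw [hdef, if_neg, h3]
      · rfl
      · rintro ⟨h5, _⟩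
        obtain ⟨d'', h6, h7⟩ := h1
        exact h5 d'' h6 h7
    · push Not at h1
      rcases List.suffix_cons_iff.1 h with h2 | h2
      · subst h2
        refine ⟨i :: w, hd, [], rfl, ?_, h1⟩
        rw [hdef, if_pos ⟨h1, hd⟩]
        rfl
      · exact absurd h2 (h1 d hd)

theorem decomp {M : ℕ} : ∀ {u u' y y' : List ℕ} {c c' : ℕ}, (∀ i ∈ u, i < M) → (∀ i ∈ u', i < M) →
    M ≤ c → M ≤ c' → u ++ (c :: y) = u' ++ (c' :: y') → u = u' ∧ c :: y = c' :: y' := by
  intro u
  induction u with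
  | nil =>
    intro u' y y' c c' _ h2 h3 h4 h
    cases u' with
    | nil => exact ⟨rfl, h⟩
    | cons a u' =>
      exfalso
      rw [List.nil_append, List.cons_append] at h
      have h5 := (List.cons.inj h).1
      have h6 := h2 a List.mem_cons_self
      omega
  | cons a u ih =>
    intro u' y y' c c' h1 h2 h3 h4 h
    cases u' with
    | nil =>
      exfalso
      rw [List.nil_append, List.cons_append] at h
      have h5 := (List.cons.inj h).1
      have h6 := h1 a List.mem_cons_self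
      omega
    | cons a' u' =>
      rw [List.cons_append, List.cons_append] at h
      obtain ⟨h5, h6⟩ := List.cons.inj h
      obtain ⟨h7, h8⟩ := ih (fun i hi => h1 i (List.mem_cons_of_mem _ hi))
        (fun i hi => h2 i (List.mem_cons_of_mem _ hi)) h3 h4 h6
      exact ⟨by rw [h5, h7], h8⟩

theorem exists_inj_on (D : Finset (List ℕ)) (R : Finset ℕ) (h : D.card ≤ R.card) :
    ∃ e : List ℕ → ℕ, (∀ d ∈ D, e d ∈ R) ∧ ∀ d ∈ D, ∀ d' ∈ D, e d = e d' → d = d' := by
  classical
  obtain ⟨R', hR', hc⟩ := Finset.exists_subset_card_eq h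
  let f : D ≃ R' := Finset.equivOfCardEq hc.symm
  refine ⟨fun d => if hd : d ∈ D then (f ⟨d, hd⟩).1 else 0, ?_, ?_⟩
  · intro d hd
    simp only [dif_pos hd]
    exact hR' (f ⟨d, hd⟩).2
  · intro d hd d' hd' h1
    simp only [dif_pos hd, dif_pos hd'] at h1
    have h2 := f.injective (Subtype.ext h1)
    exact congrArg Subtype.val h2

theorem fix_map {A : Finset (List ℕ)} (hA : TC A) (hC : CN A) {s0 K0 s1 K1 J M : ℕ}
    (hM : ∀ w ∈ A, ∀ i ∈ w, i < M) (Del : Finset (List ℕ))
    (hDel : ∀ d ∈ Del, Dl A s0 K0 s1 K1 J M d) (hJ : Del.card < J) :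
    ∃ g : List ℕ → List ℕ, (∀ w ∈ A, g w ∈ BT A s0 K0 s1 K1 J M) ∧
      (∀ w ∈ A, ∀ w' ∈ A, g w = g w' → w = w') ∧
      (∀ i w, (i :: w) ∈ A → ∃ j, g (i :: w) = j :: g w) ∧
      ∀ w ∈ A, ∀ d ∈ Del, ¬ d <:+ g w := by
  classical
  set Dg := Del.filter (fun d => d ∈ A) with hDg
  have hbig : ∀ (c : ℕ) (y : List ℕ), M ≤ c → (c :: y) ∉ A := by
    intro c y hc h
    have := hM _ h c List.mem_cons_self
    omega
  -- spare indices
  have hav : ∀ (y : List ℕ) (κ : ℕ), ∃ e : List ℕ → ℕ,
      (∀ d ∈ Dg, e d ∈ (range J).filter (fun j => ((M + 2 * j + κ) :: y) ∉ Del)) ∧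
      ∀ d ∈ Dg, ∀ d' ∈ Dg, e d = e d' → d = d' := by
    intro y κ
    apply exists_inj_on
    have h1 : ((range J).filter (fun j => ¬ ((M + 2 * j + κ) :: y) ∉ Del)).card ≤
        (Del.filter (fun d => ¬ d ∈ A)).card := by
      apply Finset.card_le_card_of_injOn (fun j => (M + 2 * j + κ) :: y)
      · intro j hj
        rw [Finset.mem_coe, Finset.mem_filter] at hj
        rw [Finset.mem_coe, Finset.mem_filter]
        refine ⟨not_not.1 hj.2, hbig _ _ (by omega)⟩
      · intro j _ j' _ h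
        have := (List.cons.inj h).1
        omega
    have h2 := Finset.card_filter_add_card_filter_not (s := range J)
      (fun j => ((M + 2 * j + κ) :: y) ∉ Del)
    have h3 := Finset.card_filter_add_card_filter_not (s := Del) (fun d => d ∈ A)
    rw [Finset.card_range] at h2
    have h4 : Dg.card = (Del.filter (fun d => d ∈ A)).card := rfl
    omega
  choose e he1 he2 using hav
  let kp : List ℕ → ℕ := fun d => if Good A s0 K0 d then 0 else 1
  have hkp : ∀ d, kp d = 0 ∨ kp d = 1 := by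
    intro d
    simp only [kp]
    split_ifs <;> simp
  let sp : List ℕ → List ℕ := fun d => (M + 2 * (e d.tail (kp d) d) + kp d) :: d.tail
  have hspdef : ∀ d, sp d = (M + 2 * (e d.tail (kp d) d) + kp d) :: d.tail := fun _ => rfl
  have hmemDg : ∀ d, d ∈ Dg ↔ d ∈ Del ∧ d ∈ A := by
    intro d
    rw [hDg, Finset.mem_filter]
  have hsp1 : ∀ d ∈ Dg, sp d ∉ Del := by
    intro d hd
    have := he1 d.tail (kp d) d hd
    rw [Finset.mem_filter] at this
    exact this.2
  have hspJ : ∀ d ∈ Dg, e d.tail (kp d) d < J := by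
    intro d hd
    have := he1 d.tail (kp d) d hd
    rw [Finset.mem_filter, Finset.mem_range] at this
    exact this.1
  have hsp2 : ∀ d ∈ Dg, ∀ d' ∈ Dg, sp d = sp d' → d = d' := by
    intro d hd d' hd' h
    obtain ⟨h1, h2⟩ := List.cons.inj h
    have h3 : kp d = kp d' := by
      rcases hkp d with a | a <;> rcases hkp d' with b | b <;> omega
    have h4 : e d.tail (kp d) d = e d'.tail (kp d') d' := by omega
    rw [← h2, ← h3] at h4
    exact he2 _ _ d hd d' hd' h4
  -- elements of `Dg` are good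
  have hgood : ∀ d ∈ Dg, (kp d = 0 ∧ Good A s0 K0 d) ∨ (kp d = 1 ∧ Good A s1 K1 d) := by
    intro d hd
    rw [hmemDg] at hd
    by_cases h : Good A s0 K0 d
    · left
      exact ⟨if_pos h, h⟩
    · right
      refine ⟨if_neg h, ?_⟩
      rcases hDel d hd.1 with h1 | h1 | ⟨y, _, j, _, h1⟩ | ⟨y, _, j, _, h1⟩
      · exact absurd h1 h
      · exact h1
      · exfalso
        rw [h1] at hd
        exact hbig _ _ (by omega) hd.2
      · exfalso
        rw [h1] at hd
        exact hbig _ _ (by omega) hd.2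
  have hnil : [] ∉ Dg := by
    intro h
    rcases hgood _ h with ⟨_, y, _, h2⟩ | ⟨_, y, _, h2⟩
    · rw [mem_lig] at h2
      obtain ⟨_, ⟨i, h3⟩, _⟩ := h2
      cases h3
    · rw [mem_lig] at h2
      obtain ⟨_, ⟨i, h3⟩, _⟩ := h2
      cases h3
  -- letters
  have hlet : ∀ u d, u ++ d ∈ A → ∀ i ∈ u, i < M := by
    intro u d h i hi
    exact hM _ h i (List.mem_append_left _ hi)
  refine ⟨gm Dg sp, ?_, ?_, ?_, ?_⟩
  · intro w hw
    rw [mem_BT]
    by_cases h : ∃ d ∈ Dg, d <:+ w
    · right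
      obtain ⟨d, hd, u, h1, h2, _⟩ := gm_br (sp := sp) hnil h
      rw [h2]
      have huA : u ++ d ∈ A := by rw [← h1]; exact hw
      rcases hgood d hd with ⟨hk, y, hy, hl⟩ | ⟨hk, y, hy, hl⟩
      · left
        rw [mem_spr]
        rw [mem_lig] at hl
        obtain ⟨_, ⟨i, h3⟩, h4⟩ := hl
        refine ⟨y, hy, e d.tail (kp d) d, hspJ d hd, u, light_Ups hA hC h4 huA, ?_⟩
        rw [hspdef, hk]
        congr 2
        rw [h3]
        rfl
      · right
        rw [mem_spr]
        rw [mem_lig] at hl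
        obtain ⟨_, ⟨i, h3⟩, h4⟩ := hl
        refine ⟨y, hy, e d.tail (kp d) d, hspJ d hd, u, light_Ups hA hC h4 huA, ?_⟩
        rw [hspdef, hk]
        congr 2
        rw [h3]
        rfl
    · push Not at h
      left
      rw [gm_id h]
      exact hw
  · -- injective
    intro w hw w' hw' h
    have hout : ∀ u d v, u ++ sp d = v → v ∈ A → False := by
      intro u d v h1 h2
      rw [← h1, hspdef] at h2
      have h3 := hA.suffix (List.suffix_append u _) h2
      exact hbig _ _ (by omega) h3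
    by_cases h1 : ∃ d ∈ Dg, d <:+ w
    · obtain ⟨d, hd, u, a1, a2, _⟩ := gm_br (sp := sp) hnil h1
      by_cases h2 : ∃ d ∈ Dg, d <:+ w'
      · obtain ⟨d', hd', u', b1, b2, _⟩ := gm_br (sp := sp) hnil h2
        rw [a2, b2, hspdef, hspdef] at h
        obtain ⟨c1, c2⟩ := decomp (M := M) (hlet u d (by rw [← a1]; exact hw))
          (hlet u' d' (by rw [← b1]; exact hw')) (by omega) (by omega) h
        have c3 : d = d' := hsp2 d hd d' hd' c2
        rw [a1, b1, c1, c3]
      · push Not at h2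
        rw [a2, gm_id h2] at h
        exact (hout u d w' h hw').elim
    · push Not at h1
      by_cases h2 : ∃ d ∈ Dg, d <:+ w'
      · obtain ⟨d', hd', u', b1, b2, _⟩ := gm_br (sp := sp) hnil h2
        rw [b2, gm_id h1] at h
        exact (hout u' d' w h.symm hw).elim
      · push Not at h2
        rw [gm_id h1, gm_id h2] at h
        exact h
  · intro i w hw
    have hdef : gm Dg sp (i :: w) =
        (if (∀ d ∈ Dg, ¬ d <:+ w) ∧ (i :: w) ∈ Dg then sp (i :: w) else i :: gm Dg sp w) := by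
      rfl
    rw [hdef]
    split_ifs with h
    · rw [gm_id h.1]
      exact ⟨_, rfl⟩
    · exact ⟨i, rfl⟩
  · intro w hw d' hd' hs
    by_cases h : ∃ d ∈ Dg, d <:+ w
    · obtain ⟨d, hd, u, a1, a2, a3⟩ := gm_br (sp := sp) hnil h
      rw [a2] at hs
      have hdA : d ∈ A := ((hmemDg d).1 hd).2
      -- compare the two suffixes
      have hs2 : sp d <:+ u ++ sp d := List.suffix_append _ _
      have hspA : ∀ v, sp d <:+ v → v ∈ A → False := by
        intro v h1 h2
        have h3 := hA.suffix h1 h2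
        rw [hspdef] at h3
        exact hbig _ _ (by omega) h3
      rcases le_total d'.length (sp d).length with h1 | h1
      · have h2 := List.suffix_of_suffix_length_le hs hs2 h1
        rw [hspdef] at h2
        rcases List.suffix_cons_iff.1 h2 with h3 | h3
        · exact hsp1 d hd (by rw [hspdef, ← h3]; exact hd')
        · have h4 : d' ∈ A := hA.suffix h3 (hA.tail hdA)
          exact a3 d' ((hmemDg d').2 ⟨hd', h4⟩) h3
      · have h2 := List.suffix_of_suffix_length_le hs2 hs h1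
        have h5 : ∀ (c : ℕ) (y : List ℕ), y ∈ A → d' = c :: y → False := by
          intro c y hy h6
          rw [h6] at h2
          rcases List.suffix_cons_iff.1 h2 with h3 | h3
          · apply hsp1 d hd
            rw [h3, ← h6]
            exact hd'
          · exact hspA y h3 hy
        rcases hDel d' hd' with ⟨y, _, h6⟩ | ⟨y, _, h6⟩ | ⟨y, hy, j, _, h6⟩ | ⟨y, hy, j, _, h6⟩
        · exact hspA d' h2 ((mem_lig _ _ _ _).1 h6).1
        · exact hspA d' h2 ((mem_lig _ _ _ _).1 h6).1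
        · exact h5 _ y ((mem_hub _ _ _ _).1 hy).1 h6
        · exact h5 _ y ((mem_hub _ _ _ _).1 hy).1 h6
    · push Not at h
      rw [gm_id h] at hs
      have h1 : d' ∈ A := hA.suffix hs hw
      exact h d' ((hmemDg d').2 ⟨hd', h1⟩) hs

end Move

end Pool.Agent.K4H80.RT
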