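import Pool.Agent.K4H80.RT.Elem
import Pool.Agent.K4H80.RP.Hits

set_option autoImplicit false

/-!
# Sums over the homomorphisms of subtrees
-/

namespace Pool.Agent.K4H80.RT

open Finset Pool.Agent.K4H80.RP

/-! ### convex sets in a tree -/

section Conv
variable {W : Type} [DecidableEq W] {T : SimpleGraph W}

theorem closer_exists (hT : T.IsTree) {r z : W} (hne : r ≠ z) :
    ∃ y, T.Adj z y ∧ T.dist r y + 1 = T.dist r z := by
  obtain ⟨p, hp⟩ := hT.connected.exists_walk_length_eq_dist r z
  have hnil : ¬ p.Nil := SimpleGraph.Walk.not_nil_of_ne hne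
  have hadj := p.adj_penultimate hnil
  refine ⟨p.penultimate, hadj.symm, ?_⟩
  have h1 : T.dist r p.penultimate ≤ p.length - 1 := by
    have := SimpleGraph.dist_le p.dropLast
    rw [SimpleGraph.Walk.length_dropLast] at this
    exact this
  rcases hT.dist_eq_dist_add_one_of_adj r hadj with h | h
  · have h2 : 0 < p.length := by
      rcases Nat.eq_zero_or_pos p.length with h0 | h0
      · exact absurd (SimpleGraph.Walk.eq_of_length_eq_zero h0) hne
      · exact h0
    omega
  · exact h.symm

theorem closer_unique (hT : T.IsTree) {r z y y' : W} (h1 : T.Adj z y)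
    (h2 : T.dist r y + 1 = T.dist r z) (h1' : T.Adj z y') (h2' : T.dist r y' + 1 = T.dist r z) :
    y = y' := by
  obtain ⟨p, hp⟩ := hT.connected.exists_walk_length_eq_dist r y
  obtain ⟨p', hp'⟩ := hT.connected.exists_walk_length_eq_dist r y'
  have hq : (p.concat h1.symm).IsPath := by
    apply SimpleGraph.Walk.isPath_of_length_eq_dist
    rw [SimpleGraph.Walk.length_concat, hp, h2]
  have hq' : (p'.concat h1'.symm).IsPath := by
    apply SimpleGraph.Walk.isPath_of_length_eq_dist
    rw [SimpleGraph.Walk.length_concat, hp', h2']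
  have h3 := (hT.isAcyclic.subsingleton_path r z).elim ⟨_, hq⟩ ⟨_, hq'⟩
  have h4 : p.concat h1.symm = p'.concat h1'.symm := congrArg Subtype.val h3
  have h5 := congrArg SimpleGraph.Walk.penultimate h4
  simpa using h5

variable (T) in
/-- convex (connected) sets of vertices -/
def Conv (U : Finset W) : Prop :=
  ∀ r ∈ U, ∀ z ∈ U, r ≠ z → ∃ y ∈ U, T.Adj z y ∧ T.dist r y + 1 = T.dist r z

theorem conv_univ [Fintype W] (hT : T.IsTree) : Conv T univ := by
  intro r _ z _ hne
  obtain ⟨y, h1, h2⟩ := closer_exists hT hne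
  exact ⟨y, Finset.mem_univ _, h1, h2⟩

theorem conv_erase (hT : T.IsTree) {U : Finset W} (hU : Conv T U) {r z : W} (hr : r ∈ U)
    (hz : z ∈ U) (hmax : ∀ y ∈ U, T.dist r y ≤ T.dist r z) : Conv T (U.erase z) := by
  have key : ∀ y ∈ U, T.Adj z y → T.dist r y + 1 = T.dist r z := by
    intro y hy hadj
    have := hmax y hy
    rcases hT.dist_eq_dist_add_one_of_adj r hadj with h | h
    · exact h.symm
    · omega
  intro r' hr' z' hz' hne
  rw [Finset.mem_erase] at hr' hz'
  obtain ⟨y, hy, h1, h2⟩ := hU r' hr'.2 z' hz'.2 hne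
  by_cases hyz : y = z
  · exfalso
    subst hyz
    obtain ⟨y2, hy2, h3, h4⟩ := hU r' hr'.2 y hy hr'.1
    have h5 : y2 = z' := closer_unique hT h3 (key y2 hy2 h3) h1.symm (key z' hz'.2 h1.symm)
    subst h5
    omega
  · exact ⟨y, Finset.mem_erase.2 ⟨hyz, hy⟩, h1, h2⟩

theorem leaf_of_max (hT : T.IsTree) {U : Finset W} (hU : Conv T U) {r z : W} (hr : r ∈ U)
    (hz : z ∈ U) (hne : r ≠ z) (hmax : ∀ y ∈ U, T.dist r y ≤ T.dist r z) :
    ∃ z' ∈ U.erase z, T.Adj z z' ∧ T.dist r z' + 1 = T.dist r z ∧ ∀ y ∈ U, T.Adj z y → y = z' := by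
  obtain ⟨y, hy, h1, h2⟩ := hU r hr z hz hne
  refine ⟨y, Finset.mem_erase.2 ⟨h1.ne', hy⟩, h1, h2, ?_⟩
  intro y' hy' hadj
  have := hmax y' hy'
  rcases hT.dist_eq_dist_add_one_of_adj r hadj with h | h
  · exact closer_unique hT hadj h.symm h1 h2
  · omega

end Conv

/-! ### sums over functions -/

section Sums
variable {W V A : Type} [DecidableEq W] [Fintype W] [DecidableEq V] [Fintype V] [AddCommMonoid A]

/-- functions that are constant outside `U` -/
def PiU (v0 : V) (U : Finset W) : Finset (W → V) := univ.filter (fun f => ∀ w, w ∉ U → f w = v0)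

theorem mem_PiU (v0 : V) (U : Finset W) (f : W → V) :
    f ∈ PiU v0 U ↔ ∀ w, w ∉ U → f w = v0 := by simp [PiU]

theorem sum_split (v0 : V) {U : Finset W} {z : W} (hz : z ∈ U) (G : (W → V) → A) :
    ∑ f ∈ PiU v0 U, G f = ∑ f ∈ PiU v0 (U.erase z), ∑ v : V, G (Function.update f z v) := by
  rw [← Finset.sum_product']
  apply Finset.sum_nbij' (fun f => (Function.update f z v0, f z))
    (fun x => Function.update x.1 z x.2)
  · intro f hf
    rw [mem_PiU] at hf
    rw [Finset.mem_product, mem_PiU]
    refine ⟨?_, Finset.mem_univ _⟩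
    intro w hw
    by_cases hwz : w = z
    · subst hwz; simp
    · show Function.update f z v0 w = v0
      rw [Function.update_of_ne hwz]
      apply hf
      intro h
      exact hw (Finset.mem_erase.2 ⟨hwz, h⟩)
  · rintro ⟨f, v⟩ hf
    rw [Finset.mem_product, mem_PiU] at hf
    rw [mem_PiU]
    intro w hw
    have hwz : w ≠ z := by rintro rfl; exact hw hz
    show Function.update f z v w = v0
    rw [Function.update_of_ne hwz]
    apply hf.1
    intro h
    exact hw (Finset.mem_of_mem_erase h)
  · intro f _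
    show Function.update (Function.update f z v0) z (f z) = f
    rw [Function.update_idem, Function.update_eq_self]
  · rintro ⟨f, v⟩ hf
    rw [Finset.mem_product, mem_PiU] at hf
    have h1 : f z = v0 := hf.1 z (Finset.notMem_erase z U)
    show (Function.update (Function.update f z v) z v0, Function.update f z v z) = (f, v)
    rw [Function.update_idem, Function.update_self, ← h1, Function.update_eq_self]
  · intro f _
    show G f = G (Function.update (Function.update f z v0) z (f z))
    rw [Function.update_idem, Function.update_eq_self]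

theorem sum_PiU_empty (v0 : V) (G : (W → V) → A) : ∑ f ∈ PiU v0 (∅ : Finset W), G f =
    G (fun _ => v0) := by
  have : PiU v0 (∅ : Finset W) = {fun _ => v0} := by
    ext f
    rw [mem_PiU, Finset.mem_singleton]
    constructor
    · intro h
      funext w
      exact h w (Finset.notMem_empty w)
    · rintro rfl w _
      rfl
  rw [this, Finset.sum_singleton]

end Sums

/-! ### the weights -/

section Weight
variable {W V C : Type} [DecidableEq W] [Fintype W] [DecidableEq V] [Fintype V]
  [DecidableEq C] [Fintype C]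
variable (G : Host V C) (T : SimpleGraph W) [DecidableRel T.Adj]

/-- the factor of a pair of vertices of the host -/
noncomputable def Xe (x y : V) : SF C := ∑ c ∈ (G.S x).filter (fun c => G.mv x c = y), X c

theorem Xe_comm (x y : V) : Xe G x y = Xe G y x := by
  unfold Xe
  apply Finset.sum_congr _ (fun _ _ => rfl)
  ext c
  simp only [mem_filter]
  constructor
  · rintro ⟨h1, h2⟩
    subst h2
    exact ⟨G.mem x c h1, G.inv x c h1⟩
  · rintro ⟨h1, h2⟩
    subst h2
    exact ⟨G.mem y c h1, G.inv y c h1⟩

theorem Xe_nonneg (x y : V) : 0 ≤ Xe G x y := Finset.sum_nonneg (fun c _ => X_nonneg c)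

theorem sum_Xe (x : V) (F : V → SF C) :
    ∑ v : V, Xe G x v * F v = ∑ c ∈ G.S x, X c * F (G.mv x c) := by
  unfold Xe
  have h1 : ∀ v : V, (∑ c ∈ (G.S x).filter (fun c => G.mv x c = v), X c) * F v =
      ∑ c ∈ G.S x, (if G.mv x c = v then X c * F v else 0) := by
    intro v
    rw [Finset.sum_mul, Finset.sum_filter]
  rw [Finset.sum_congr rfl (fun v _ => h1 v), Finset.sum_comm]
  apply Finset.sum_congr rfl
  intro c _
  rw [Finset.sum_ite_eq, if_pos (Finset.mem_univ _)]

/-- the factor of an edge of the tree -/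
noncomputable def XE (f : W → V) (e : Sym2 W) : SF C :=
  Sym2.lift ⟨fun a b => Xe G (f a) (f b), fun a b => Xe_comm G (f a) (f b)⟩ e

theorem XE_mk (f : W → V) (a b : W) : XE G f s(a, b) = Xe G (f a) (f b) := rfl

theorem XE_nonneg (f : W → V) (e : Sym2 W) : 0 ≤ XE G f e := by
  induction e using Sym2.ind with
  | _ a b => exact Xe_nonneg G _ _

/-- the edges inside `U` -/
def EU (U : Finset W) : Finset (Sym2 W) :=
  univ.filter (fun e => e ∈ T.edgeSet ∧ ∀ w ∈ e, w ∈ U)

theorem mem_EU (U : Finset W) (e : Sym2 W) :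
    e ∈ EU T U ↔ e ∈ T.edgeSet ∧ ∀ w ∈ e, w ∈ U := by simp [EU]

/-- the degree inside `U` -/
def dgU (U : Finset W) (y : W) : ℕ := (U.filter (fun w => T.Adj y w)).card

/-- the weight of a map -/
noncomputable def wt (U : Finset W) (f : W → V) : SF C :=
  (∏ e ∈ EU T U, XE G f e) * ∏ y ∈ U, (Bk (G.S (f y))) ^ (dgU T U y - 1)

theorem wt_nonneg (U : Finset W) (f : W → V) : 0 ≤ wt G T U f := by
  unfold wt
  apply mul_nonneg
  · exact Finset.prod_nonneg (fun e _ => XE_nonneg G f e)
  · exact Finset.prod_nonneg (fun y _ => pow_nonneg (Bk_nonneg _) _)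

theorem wt_update {U : Finset W} {z z' : W} (hz : z ∈ U) (hz' : z' ∈ U.erase z)
    (hadj : T.Adj z z') (huniq : ∀ y ∈ U, T.Adj z y → y = z')
    (hdeg : 1 ≤ dgU T (U.erase z) z') (f : W → V) (v : V) :
    wt G T U (Function.update f z v) =
      Xe G (f z') v * Bk (G.S (f z')) * wt G T (U.erase z) f := by
  have hzz' : z' ≠ z := Finset.ne_of_mem_erase hz'
  have hz'U : z' ∈ U := Finset.mem_of_mem_erase hz'
  have hE : EU T U = insert s(z, z') (EU T (U.erase z)) := by
    ext e
    rw [Finset.mem_insert, mem_EU, mem_EU]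
    induction e using Sym2.ind with
    | _ a b =>
      simp only [SimpleGraph.mem_edgeSet, Sym2.mem_iff, forall_eq_or_imp, forall_eq,
        Finset.mem_erase]
      constructor
      · rintro ⟨h1, h2, h3⟩
        by_cases ha : a = z
        · subst ha
          left
          rw [huniq b h3 h1]
        · by_cases hb : b = z
          · subst hb
            left
            rw [huniq a h2 h1.symm, Sym2.eq_swap]
          · right
            exact ⟨h1, ⟨ha, h2⟩, ⟨hb, h3⟩⟩
      · rintro (h | ⟨h1, h2, h3⟩)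
        · rcases Sym2.eq_iff.1 h with ⟨h1, h2⟩ | ⟨h1, h2⟩
          · subst h1; subst h2
            exact ⟨hadj, hz, hz'U⟩
          · subst h1; subst h2
            exact ⟨hadj.symm, hz'U, hz⟩
        · exact ⟨h1, h2.2, h3.2⟩
  have hnot : s(z, z') ∉ EU T (U.erase z) := by
    rw [mem_EU]
    rintro ⟨_, h⟩
    exact Finset.notMem_erase z U (h z (Sym2.mem_mk_left _ _))
  have hV : U = insert z (U.erase z) := (Finset.insert_erase hz).symm
  have hdz : dgU T U z = 1 := by
    unfold dgU
    rw [Finset.card_eq_one]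
    refine ⟨z', ?_⟩
    ext y
    rw [Finset.mem_filter, Finset.mem_singleton]
    constructor
    · rintro ⟨h1, h2⟩
      exact huniq y h1 h2
    · rintro rfl
      exact ⟨hz'U, hadj⟩
  have hdy : ∀ y ∈ U.erase z, dgU T U y = dgU T (U.erase z) y + if y = z' then 1 else 0 := by
    intro y hy
    rw [Finset.mem_erase] at hy
    unfold dgU
    by_cases h : y = z'
    · subst h
      rw [if_pos rfl]
      have : U.filter (fun w => T.Adj y w) =
          insert z ((U.erase z).filter (fun w => T.Adj y w)) := by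
        ext w
        simp only [mem_filter, mem_insert, mem_erase]
        constructor
        · rintro ⟨h1, h2⟩
          by_cases hw : w = z
          · exact Or.inl hw
          · exact Or.inr ⟨⟨hw, h1⟩, h2⟩
        · rintro (rfl | ⟨⟨_, h1⟩, h2⟩)
          · exact ⟨hz, hadj.symm⟩
          · exact ⟨h1, h2⟩
      rw [this, Finset.card_insert_of_notMem (by simp)]
    · rw [if_neg h, add_zero]
      congr 1
      ext w
      simp only [mem_filter, mem_erase]
      constructor
      · rintro ⟨h1, h2⟩
        refine ⟨⟨?_, h1⟩, h2⟩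
        rintro rfl
        exact h (huniq y hy.2 h2.symm)
      · rintro ⟨⟨_, h1⟩, h2⟩
        exact ⟨h1, h2⟩
  unfold wt
  rw [hE, Finset.prod_insert hnot]
  have h1 : XE G (Function.update f z v) s(z, z') = Xe G (f z') v := by
    rw [XE_mk, Function.update_self, Function.update_of_ne hzz', Xe_comm]
  have h2 : ∏ e ∈ EU T (U.erase z), XE G (Function.update f z v) e =
      ∏ e ∈ EU T (U.erase z), XE G f e := by
    apply Finset.prod_congr rfl
    intro e he
    rw [mem_EU] at he
    induction e using Sym2.ind with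
    | _ a b =>
      have ha : a ≠ z := Finset.ne_of_mem_erase (he.2 a (Sym2.mem_mk_left _ _))
      have hb : b ≠ z := Finset.ne_of_mem_erase (he.2 b (Sym2.mem_mk_right _ _))
      rw [XE_mk, XE_mk, Function.update_of_ne ha, Function.update_of_ne hb]
  have h3 : ∏ y ∈ U, (Bk (G.S (Function.update f z v y))) ^ (dgU T U y - 1) =
      Bk (G.S (f z')) * ∏ y ∈ U.erase z, (Bk (G.S (f y))) ^ (dgU T (U.erase z) y - 1) := by
    rw [← Finset.mul_prod_erase U _ hz, hdz, Nat.sub_self, pow_zero, one_mul]
    have h4 : ∀ y ∈ U.erase z, (Bk (G.S (Function.update f z v y))) ^ (dgU T U y - 1) =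
        (if y = z' then Bk (G.S (f y)) else 1) *
          (Bk (G.S (f y))) ^ (dgU T (U.erase z) y - 1) := by
      intro y hy
      rw [Function.update_of_ne (Finset.ne_of_mem_erase hy), hdy y hy]
      by_cases h : y = z'
      · subst h
        rw [if_pos rfl, if_pos rfl, ← pow_succ']
        congr 1
        omega
      · rw [if_neg h, if_neg h, one_mul, add_zero]
    rw [Finset.prod_congr rfl h4, Finset.prod_mul_distrib, Finset.prod_ite_eq', if_pos hz']
  rw [h1, h2, h3]
  ring

/-- the sum over the maps of `U` -/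
noncomputable def ZU (v0 : V) (U : Finset W) (F : (W → V) → SF C) : SF C :=
  ∑ f ∈ PiU v0 U, wt G T U f * F f

theorem ZU_le (v0 : V) (U : Finset W) (F F' : (W → V) → SF C) (h : ∀ f, F f ≤ F' f) :
    ZU G T v0 U F ≤ ZU G T v0 U F' := by
  apply Finset.sum_le_sum
  intro f _
  exact mul_le_mul_of_nonneg_left (h f) (wt_nonneg G T U f)

/-- removing a leaf -/
theorem ZU_leaf (v0 : V) {U : Finset W} {z z' : W} (hz : z ∈ U) (hz' : z' ∈ U.erase z)
    (hadj : T.Adj z z') (huniq : ∀ y ∈ U, T.Adj z y → y = z')
    (hdeg : 1 ≤ dgU T (U.erase z) z') (F : (W → V) → SF C) :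
    ZU G T v0 U F = ZU G T v0 (U.erase z) (fun f => Bk (G.S (f z')) *
      ∑ c ∈ G.S (f z'), X c * F (Function.update f z (G.mv (f z') c))) := by
  unfold ZU
  rw [sum_split v0 hz]
  apply Finset.sum_congr rfl
  intro f _
  have h1 : ∀ v : V, wt G T U (Function.update f z v) * F (Function.update f z v) =
      (Bk (G.S (f z')) * wt G T (U.erase z) f) *
        (Xe G (f z') v * F (Function.update f z v)) := by
    intro v
    rw [wt_update G T hz hz' hadj huniq hdeg]
    ring
  rw [Finset.sum_congr rfl (fun v _ => h1 v), ← Finset.mul_sum,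
    sum_Xe G (f z') (fun v => F (Function.update f z v))]
  ring

end Weight

end Pool.Agent.K4H80.RT
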