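import Pool.Agent.K4H80.RT.Main2

set_option autoImplicit false

/-!
# Trees of words
-/

namespace Pool.Agent.K4H80.RT

open Finset

/-- closed under removing the first letter -/
def TC (A : Finset (List ℕ)) : Prop := ∀ i w, (i :: w) ∈ A → w ∈ A

/-- children are numbered consecutively -/
def CN (A : Finset (List ℕ)) : Prop := ∀ i j w, (i :: w) ∈ A → j ≤ i → (j :: w) ∈ A

theorem TC.suffix {A : Finset (List ℕ)} (hA : TC A) {b : List ℕ} : ∀ {w : List ℕ}, b <:+ w →
    w ∈ A → b ∈ A := by
  intro w
  induction w with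
  | nil =>
    intro h hw
    rw [List.suffix_nil] at h
    subst h
    exact hw
  | cons i w ih =>
    intro h hw
    rcases List.suffix_cons_iff.1 h with h | h
    · subst h; exact hw
    · exact ih h (hA i w hw)

theorem TC.tail {A : Finset (List ℕ)} (hA : TC A) {w : List ℕ} (hw : w ∈ A) : w.tail ∈ A := by
  cases w with
  | nil => exact hw
  | cons i w => exact hA i w hw

/-- the tree of a set of words -/
def TG (A : Finset (List ℕ)) : SimpleGraph A where
  Adj u v := (∃ i, v.1 = i :: u.1) ∨ (∃ i, u.1 = i :: v.1)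
  symm := ⟨fun _ _ h => h.symm⟩
  loopless := ⟨fun u h => by
    rcases h with ⟨i, h⟩ | ⟨i, h⟩ <;>
    · have := congrArg List.length h
      simp at this⟩

theorem TG_tree {A : Finset (List ℕ)} (hA : TC A) (h0 : [] ∈ A) : (TG A).IsTree := by
  classical
  rw [SimpleGraph.isTree_iff_connected_and_card]
  have hconn : ∀ w (hw : w ∈ A), (TG A).Reachable ⟨[], h0⟩ ⟨w, hw⟩ := by
    intro w
    induction w with
    | nil => intro hw; exact SimpleGraph.Reachable.refl _
    | cons i w ih =>
      intro hw
      have hw' := hA i w hw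
      refine (ih hw').trans (SimpleGraph.Adj.reachable ?_)
      exact Or.inl ⟨i, rfl⟩
  refine ⟨?_, ?_⟩
  · rw [SimpleGraph.connected_iff_exists_forall_reachable]
    exact ⟨⟨[], h0⟩, fun w => hconn w.1 w.2⟩
  · let ed : A → Sym2 A := fun w => s(⟨w.1.tail, hA.tail w.2⟩, w)
    have h1 : (TG A).edgeSet = ((((univ : Finset A).erase ⟨[], h0⟩).image ed : Finset (Sym2 A)) :
        Set (Sym2 A)) := by
      ext e
      rw [Finset.coe_image]
      induction e using Sym2.ind with
      | _ u v =>
        rw [SimpleGraph.mem_edgeSet, Set.mem_image]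
        constructor
        · rintro (⟨i, h⟩ | ⟨i, h⟩)
          · refine ⟨v, ?_, ?_⟩
            · rw [Finset.mem_coe, Finset.mem_erase]
              refine ⟨?_, Finset.mem_univ _⟩
              intro h2
              rw [h2] at h
              simp at h
            · show s(_, v) = s(u, v)
              congr 2
              show v.1.tail = u.1
              rw [h]
              rfl
          · refine ⟨u, ?_, ?_⟩
            · rw [Finset.mem_coe, Finset.mem_erase]
              refine ⟨?_, Finset.mem_univ _⟩
              intro h2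
              rw [h2] at h
              simp at h
            · show s(_, u) = s(u, v)
              rw [Sym2.eq_swap]
              congr 2
              show u.1.tail = v.1
              rw [h]
              rfl
        · rintro ⟨w, hw, h2⟩
          rw [Finset.mem_coe, Finset.mem_erase] at hw
          rw [← SimpleGraph.mem_edgeSet, ← h2]
          show (TG A).Adj _ w
          obtain ⟨w, hwA⟩ := w
          cases w with
          | nil => exact absurd rfl hw.1
          | cons i w => exact Or.inl ⟨i, rfl⟩
    have hinj : Set.InjOn ed ((univ : Finset A).erase ⟨[], h0⟩ : Finset A) := by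
      intro w hw w' hw' h
      rw [Finset.mem_coe, Finset.mem_erase] at hw hw'
      rcases Sym2.eq_iff.1 h with ⟨_, h2⟩ | ⟨h2, h3⟩
      · exact h2
      · exfalso
        have e1 := congrArg (fun x : A => x.1.length) h2
        have e2 := congrArg (fun x : A => x.1.length) h3
        simp only [List.length_tail] at e1 e2
        have e3 : 0 < w.1.length := by
          rw [List.length_pos_iff]
          intro h4
          exact hw.1 (Subtype.ext h4)
        omega
    rw [Nat.card_coe_set_eq, h1, Set.ncard_coe_finset, Finset.card_image_of_injOn hinj,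
      Finset.card_erase_of_mem (Finset.mem_univ _), Finset.card_univ, Nat.card_eq_fintype_card]
    have : 0 < Fintype.card A := Fintype.card_pos_iff.2 ⟨⟨[], h0⟩⟩
    omega

/-- pairs at distance four -/
theorem dist_four {A : Finset (List ℕ)} (hA : TC A) (h0 : [] ∈ A) {a b : A}
    (h : (TG A).dist a b = 4) :
    (∃ i j k l, a.1 = i :: j :: k :: l :: b.1) ∨ (∃ i j k l, b.1 = i :: j :: k :: l :: a.1) ∨
    (∃ z i j k l, a.1 = i :: j :: k :: z ∧ b.1 = l :: z) ∨
    (∃ z i j k l, b.1 = i :: j :: k :: z ∧ a.1 = l :: z) ∨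
    (∃ z i j k l, a.1 = i :: j :: z ∧ b.1 = k :: l :: z) := by
  have hT := TG_tree hA h0
  obtain ⟨c, hc1, hc2⟩ := closer_exists hT (r := a) (z := b) (by
    rintro rfl
    rw [SimpleGraph.dist_self] at h
    omega)
  obtain ⟨p, hp1, hp2⟩ := closer_exists hT (r := a) (z := c) (by
    rintro rfl
    rw [SimpleGraph.dist_self] at hc2
    omega)
  obtain ⟨x, hx1, hx2⟩ := closer_exists hT (r := a) (z := p) (by
    rintro rfl
    rw [SimpleGraph.dist_self] at hp2
    omega)
  have hxa : (TG A).dist a x = 1 := by omega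
  rw [SimpleGraph.dist_eq_one_iff_adj] at hxa
  have hxc : x.1 ≠ c.1 := by
    intro h2
    have : x = c := Subtype.ext h2
    subst this
    omega
  have hap : a.1 ≠ p.1 := by
    intro h2
    have : a = p := Subtype.ext h2
    subst this
    rw [SimpleGraph.dist_self] at hp2
    omega
  have hpb : p.1 ≠ b.1 := by
    intro h2
    have : p = b := Subtype.ext h2
    subst this
    omega
  -- the four steps
  rcases hxa with ⟨i1, e1⟩ | ⟨i1, e1⟩
  · -- down
    rcases hx1 with ⟨i2, e2⟩ | ⟨i2, e2⟩
    · -- x = i2 :: p, x = i1 :: a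
      exfalso
      rw [e1] at e2
      exact hap (List.cons.inj e2).2
    · rcases hp1 with ⟨i3, e3⟩ | ⟨i3, e3⟩
      · exfalso
        rw [e2] at e3
        exact hxc (List.cons.inj e3).2
      · rcases hc1 with ⟨i4, e4⟩ | ⟨i4, e4⟩
        · exfalso
          rw [e3] at e4
          exact hpb (List.cons.inj e4).2
        · right; left
          exact ⟨i4, i3, i2, i1, by rw [e4, e3, e2, e1]⟩
  · rcases hx1 with ⟨i2, e2⟩ | ⟨i2, e2⟩
    · rcases hp1 with ⟨i3, e3⟩ | ⟨i3, e3⟩
      · rcases hc1 with ⟨i4, e4⟩ | ⟨i4, e4⟩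
        · left
          exact ⟨i1, i2, i3, i4, by rw [e1, e2, e3, e4]⟩
        · right; right; left
          exact ⟨c.1, i1, i2, i3, i4, by rw [e1, e2, e3], e4⟩
      · rcases hc1 with ⟨i4, e4⟩ | ⟨i4, e4⟩
        · exfalso
          rw [e3] at e4
          exact hpb (List.cons.inj e4).2
        · right; right; right; right
          exact ⟨p.1, i1, i2, i4, i3, by rw [e1, e2], by rw [e4, e3]⟩
    · rcases hp1 with ⟨i3, e3⟩ | ⟨i3, e3⟩
      · exfalso
        rw [e2] at e3
        exact hxc (List.cons.inj e3).2
      · rcases hc1 with ⟨i4, e4⟩ | ⟨i4, e4⟩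
        · exfalso
          rw [e3] at e4
          exact hpb (List.cons.inj e4).2
        · right; right; right; left
          exact ⟨x.1, i4, i3, i2, i1, by rw [e4, e3, e2], e1⟩

/-! ### branches -/

/-- the words with suffix `b` -/
def br (A : Finset (List ℕ)) (b : List ℕ) : Finset (List ℕ) := A.filter (fun w => b <:+ w)

theorem mem_br (A : Finset (List ℕ)) (b w : List ℕ) : w ∈ br A b ↔ w ∈ A ∧ b <:+ w := by
  simp [br]

/-- branches at words of equal length are disjoint -/
theorem br_disjoint (A : Finset (List ℕ)) {b b' : List ℕ} (hl : b.length = b'.length)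
    (hne : b ≠ b') : Disjoint (br A b) (br A b') := by
  rw [Finset.disjoint_left]
  intro w h1 h2
  rw [mem_br] at h1 h2
  apply hne
  exact (List.suffix_of_suffix_length_le h1.2 h2.2 hl.le).eq_of_length hl

theorem heavy_count (A : Finset (List ℕ)) (n s : ℕ) (F : Finset (List ℕ))
    (hF : ∀ b ∈ F, b.length = n ∧ s < (br A b).card) : s * F.card ≤ A.card := by
  have h1 : (F.biUnion (fun b => br A b)).card = ∑ b ∈ F, (br A b).card := by
    apply Finset.card_biUnion
    intro b hb b' hb' hne
    exact br_disjoint A (by rw [(hF b hb).1, (hF b' hb').1]) hne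
  have h2 : (F.biUnion (fun b => br A b)) ⊆ A := by
    intro w hw
    rw [Finset.mem_biUnion] at hw
    obtain ⟨b, _, h⟩ := hw
    exact ((mem_br A b w).1 h).1
  have h3 := Finset.card_le_card h2
  have h4 : ∑ b ∈ F, s ≤ ∑ b ∈ F, (br A b).card :=
    Finset.sum_le_sum (fun b hb => (hF b hb).2.le)
  rw [Finset.sum_const, smul_eq_mul] at h4
  rw [h1] at h3
  rw [mul_comm]
  omega

/-- the children of `y` -/
noncomputable def chd (A : Finset (List ℕ)) (y : List ℕ) : Finset (List ℕ) :=
  by classical exact A.filter (fun w => ∃ i, w = i :: y)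

theorem mem_chd (A : Finset (List ℕ)) (y w : List ℕ) :
    w ∈ chd A y ↔ w ∈ A ∧ ∃ i, w = i :: y := by
  classical
  unfold chd
  simp

/-- the light children of `y` -/
noncomputable def lig (A : Finset (List ℕ)) (s : ℕ) (y : List ℕ) : Finset (List ℕ) :=
  (chd A y).filter (fun w => (br A w).card ≤ s)

theorem mem_lig (A : Finset (List ℕ)) (s : ℕ) (y w : List ℕ) :
    w ∈ lig A s y ↔ w ∈ A ∧ (∃ i, w = i :: y) ∧ (br A w).card ≤ s := by
  unfold lig
  rw [Finset.mem_filter, mem_chd]
  tauto

/-- the hubs -/
noncomputable def hub (A : Finset (List ℕ)) (s K : ℕ) : Finset (List ℕ) :=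
  A.filter (fun y => K ≤ (lig A s y).card)

theorem mem_hub (A : Finset (List ℕ)) (s K : ℕ) (y : List ℕ) :
    y ∈ hub A s K ↔ y ∈ A ∧ K ≤ (lig A s y).card := by
  unfold hub
  rw [Finset.mem_filter]

/-- light children of hubs -/
def Good (A : Finset (List ℕ)) (s K : ℕ) (w : List ℕ) : Prop :=
  ∃ y ∈ hub A s K, w ∈ lig A s y

theorem hub_count (A : Finset (List ℕ)) (s K : ℕ) : (hub A s K).card * K ≤ A.card := by
  have h1 : ((hub A s K).biUnion (fun y => lig A s y)).card = ∑ y ∈ hub A s K, (lig A s y).card := by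
    apply Finset.card_biUnion
    intro y _ y' _ hne
    show Disjoint (lig A s y) (lig A s y')
    rw [Finset.disjoint_left]
    intro w h1 h2
    rw [mem_lig] at h1 h2
    obtain ⟨_, ⟨i, e1⟩, _⟩ := h1
    obtain ⟨_, ⟨j, e2⟩, _⟩ := h2
    rw [e1] at e2
    exact hne (List.cons.inj e2).2
  have h2 : (hub A s K).biUnion (fun y => lig A s y) ⊆ A := by
    intro w hw
    rw [Finset.mem_biUnion] at hw
    obtain ⟨y, _, h⟩ := hw
    exact ((mem_lig A s y w).1 h).1
  have h3 := Finset.card_le_card h2
  have h4 : ∑ _y ∈ hub A s K, K ≤ ∑ y ∈ hub A s K, (lig A s y).card :=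
    Finset.sum_le_sum (fun y hy => ((mem_hub A s K y).1 hy).2)
  rw [Finset.sum_const, smul_eq_mul] at h4
  rw [h1] at h3
  omega

/-- children of `z` that are not good -/
noncomputable def ngc (A : Finset (List ℕ)) (s K : ℕ) (z : List ℕ) : Finset (List ℕ) :=
  by classical exact (chd A z).filter (fun w => ¬ Good A s K w)

theorem mem_ngc (A : Finset (List ℕ)) (s K : ℕ) (z w : List ℕ) :
    w ∈ ngc A s K z ↔ w ∈ A ∧ (∃ i, w = i :: z) ∧ ¬ Good A s K w := by
  classical
  unfold ngc
  rw [Finset.mem_filter, mem_chd]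
  tauto

theorem ngc_count {A : Finset (List ℕ)} (hA : TC A) {s K : ℕ} (hs : 1 ≤ s) (z : List ℕ) :
    (ngc A s K z).card ≤ A.card / s + K := by
  classical
  have h1 : ngc A s K z ⊆ ((chd A z).filter (fun w => s < (br A w).card)) ∪
      (if z ∈ hub A s K then ∅ else lig A s z) := by
    intro w hw
    rw [mem_ngc] at hw
    rw [Finset.mem_union, Finset.mem_filter, mem_chd]
    by_cases h : s < (br A w).card
    · exact Or.inl ⟨⟨hw.1, hw.2.1⟩, h⟩
    · right
      push Not at h
      have h2 : w ∈ lig A s z := (mem_lig A s z w).2 ⟨hw.1, hw.2.1, h⟩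
      rw [if_neg]
      · exact h2
      · intro h3
        exact hw.2.2 ⟨z, h3, h2⟩
  have h2 : ((chd A z).filter (fun w => s < (br A w).card)).card ≤ A.card / s := by
    rw [Nat.le_div_iff_mul_le (by omega), mul_comm]
    apply heavy_count A (z.length + 1) s
    intro b hb
    rw [Finset.mem_filter, mem_chd] at hb
    obtain ⟨⟨_, i, h⟩, h3⟩ := hb
    refine ⟨?_, h3⟩
    rw [h]
    simp
  have h3 : (if z ∈ hub A s K then ∅ else lig A s z).card ≤ K := by
    split_ifs with h
    · simp
    · by_cases hz : z ∈ A
      · rw [mem_hub] at h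
        push Not at h
        exact (h hz).le
      · have : lig A s z = ∅ := by
          rw [Finset.eq_empty_iff_forall_notMem]
          intro w hw
          rw [mem_lig] at hw
          obtain ⟨h4, ⟨i, h5⟩, _⟩ := hw
          rw [h5] at h4
          exact hz (hA i z h4)
        rw [this]
        simp
  refine (Finset.card_le_card h1).trans ((Finset.card_union_le _ _).trans ?_)
  omega

/-- grandchildren of `p` that are not good and whose parents are not good -/
noncomputable def ngg (A : Finset (List ℕ)) (s0 K0 s1 K1 : ℕ) (p : List ℕ) : Finset (List ℕ) :=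
  by classical exact A.filter (fun w => (∃ i j, w = i :: j :: p) ∧ ¬ Good A s0 K0 w ∧
    ¬ Good A s1 K1 w.tail)

theorem mem_ngg (A : Finset (List ℕ)) (s0 K0 s1 K1 : ℕ) (p w : List ℕ) :
    w ∈ ngg A s0 K0 s1 K1 p ↔ w ∈ A ∧ (∃ i j, w = i :: j :: p) ∧ ¬ Good A s0 K0 w ∧
      ¬ Good A s1 K1 w.tail := by
  classical
  unfold ngg
  rw [Finset.mem_filter]

theorem ngg_count {A : Finset (List ℕ)} (hA : TC A) {s0 K0 s1 K1 : ℕ} (hs0 : 1 ≤ s0)
    (hs1 : 1 ≤ s1) (p : List ℕ) :
    (ngg A s0 K0 s1 K1 p).card ≤ A.card / s0 + (A.card / s1 + K1) * K0 := by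
  classical
  have h1 : ngg A s0 K0 s1 K1 p ⊆
      (A.filter (fun w => (∃ i j, w = i :: j :: p) ∧ s0 < (br A w).card)) ∪
      (ngc A s1 K1 p).biUnion (fun x => if x ∈ hub A s0 K0 then ∅ else lig A s0 x) := by
    intro w hw
    rw [mem_ngg] at hw
    obtain ⟨hwA, ⟨i, j, hw2⟩, hg0, hg1⟩ := hw
    rw [Finset.mem_union]
    by_cases h : s0 < (br A w).card
    · left
      rw [Finset.mem_filter]
      exact ⟨hwA, ⟨i, j, hw2⟩, h⟩
    · right
      push Not at h
      have h2 : w ∈ lig A s0 (j :: p) := (mem_lig A s0 _ w).2 ⟨hwA, ⟨i, hw2⟩, h⟩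
      rw [Finset.mem_biUnion]
      refine ⟨j :: p, ?_, ?_⟩
      · rw [mem_ngc]
        refine ⟨?_, ⟨j, rfl⟩, ?_⟩
        · rw [hw2] at hwA
          exact hA i _ hwA
        · rw [hw2] at hg1
          exact hg1
      · rw [if_neg]
        · exact h2
        · intro h3
          exact hg0 ⟨j :: p, h3, h2⟩
  have h2 : (A.filter (fun w => (∃ i j, w = i :: j :: p) ∧ s0 < (br A w).card)).card ≤
      A.card / s0 := by
    rw [Nat.le_div_iff_mul_le (by omega), mul_comm]
    apply heavy_count A (p.length + 2) s0
    intro b hb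
    rw [Finset.mem_filter] at hb
    obtain ⟨_, ⟨i, j, h⟩, h3⟩ := hb
    refine ⟨?_, h3⟩
    rw [h]
    simp
  have h3 : ((ngc A s1 K1 p).biUnion
      (fun x => if x ∈ hub A s0 K0 then ∅ else lig A s0 x)).card ≤
      (A.card / s1 + K1) * K0 := by
    refine (Finset.card_biUnion_le_card_mul _ _ K0 ?_).trans
      (Nat.mul_le_mul_right _ (ngc_count hA hs1 p))
    intro x hx
    rw [mem_ngc] at hx
    split_ifs with h
    · simp
    · rw [mem_hub] at h
      push Not at h
      exact (h hx.1).le
  refine (Finset.card_le_card h1).trans ((Finset.card_union_le _ _).trans ?_)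
  omega

/-! ### the universal branches -/

/-- the words of length at most `n` with letters less than `s` -/
def Ups (s : ℕ) : ℕ → Finset (List ℕ)
  | 0 => {[]}
  | (n + 1) => Ups s n ∪ ((range s) ×ˢ (Ups s n)).image (fun x => x.1 :: x.2)

theorem mem_Ups (s : ℕ) : ∀ (n : ℕ) (u : List ℕ), u ∈ Ups s n ↔ u.length ≤ n ∧ ∀ i ∈ u, i < s := by
  intro n
  induction n with
  | zero =>
    intro u
    simp only [Ups, Finset.mem_singleton]
    constructor
    · rintro rfl
      simp
    · rintro ⟨h, _⟩
      exact List.length_eq_zero_iff.1 (Nat.le_zero.1 h)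
  | succ n ih =>
    intro u
    simp only [Ups, Finset.mem_union, Finset.mem_image, Finset.mem_product, Finset.mem_range,
      Prod.exists]
    constructor
    · rintro (h | ⟨i, v, ⟨h1, h2⟩, rfl⟩)
      · rw [ih] at h
        exact ⟨by omega, h.2⟩
      · rw [ih] at h2
        refine ⟨by simpa using h2.1, ?_⟩
        intro j hj
        rcases List.mem_cons.1 hj with rfl | hj
        · exact h1
        · exact h2.2 j hj
    · rintro ⟨h1, h2⟩
      cases u with
      | nil =>
        left
        rw [ih]
        exact ⟨by simp, h2⟩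
      | cons i v =>
        right
        refine ⟨i, v, ⟨h2 i (List.mem_cons_self), ?_⟩, rfl⟩
        rw [ih]
        exact ⟨by simpa using h1, fun j hj => h2 j (List.mem_cons_of_mem _ hj)⟩

/-- a light branch embeds into the universal one -/
theorem light_Ups {A : Finset (List ℕ)} (hA : TC A) (hC : CN A) {s : ℕ} {b : List ℕ}
    (hb : (br A b).card ≤ s) {u : List ℕ} (hu : u ++ b ∈ A) : u ∈ Ups s s := by
  rw [mem_Ups]
  constructor
  · -- the suffixes of `u ++ b` that contain `b`
    have h1 : (range (u.length + 1)).card ≤ (br A b).card := by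
      apply Finset.card_le_card_of_injOn (fun n => (u.drop n) ++ b)
      · intro n _
        rw [Finset.mem_coe, mem_br]
        refine ⟨?_, List.suffix_append _ _⟩
        apply hA.suffix _ hu
        refine ⟨u.take n, ?_⟩
        rw [← List.append_assoc, List.take_append_drop]
      · intro n hn n' hn' h
        rw [Finset.mem_coe, Finset.mem_range] at hn hn'
        have h2 := congrArg List.length h
        simp only [List.length_append, List.length_drop] at h2
        omega
    rw [Finset.card_range] at h1
    omega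
  · intro i hi
    obtain ⟨v, w, rfl⟩ := List.append_of_mem hi
    have h1 : (i :: w) ++ b ∈ A := by
      apply hA.suffix _ hu
      refine ⟨v, ?_⟩
      simp
    have h2 : (range (i + 1)).card ≤ ((br A b).erase b).card := by
      apply Finset.card_le_card_of_injOn (fun j => (j :: w) ++ b)
      · intro j hj
        rw [Finset.mem_coe, Finset.mem_range] at hj
        rw [Finset.mem_coe, Finset.mem_erase, mem_br]
        refine ⟨?_, ?_, List.suffix_append _ _⟩
        · intro h3
          have := congrArg List.length h3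
          simp at this
          omega
        · exact hC i j (w ++ b) h1 (by omega)
      · intro j _ j' _ h3
        have : j :: (w ++ b) = j' :: (w ++ b) := h3
        exact (List.cons.inj this).1
    have h3 : b ∈ br A b := by
      rw [mem_br]
      exact ⟨hA.suffix (List.suffix_append _ _) hu, List.suffix_refl _⟩
    rw [Finset.card_range, Finset.card_erase_of_mem h3] at h2
    have h4 : 0 < (br A b).card := Finset.card_pos.2 ⟨b, h3⟩
    omega

end Pool.Agent.K4H80.RT
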